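import Pool.Agent.H17.TA.Sim

/-!
# Before : a configuration which can be moved far behind another one
-/

set_option autoImplicit false

namespace Pool.H17.TA

open Pool.H22.VC Function Set

variable {r : ℕ} {K ι κ κ' : Type} {N : Col r K ℕ} {A : Set ℕ} {e : ℕ → ι → ℕ}

/-- The configuration `z'` looks like one behind `z`. -/
def Bef (N : Col r K ℕ) (A : Set ℕ) (e : ℕ → ι → ℕ) (z : κ → ℕ × ι) (z' : κ' → ℕ × ι) : Prop :=
  ∀ m, (∀ k, (z k).1 < m) →
    Teq N A e (Sum.elim z z') (Sum.elim z (fun k => (m + (z' k).1, (z' k).2)))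

private theorem bf_bound [Finite κ] (z : κ → ℕ × ι) : ∃ m, ∀ k, (z k).1 < m := by
  obtain ⟨B, hB⟩ := (Set.finite_range (fun k => (z k).1)).bddAbove
  exact ⟨B + 1, fun k => Nat.lt_succ_of_le (hB ⟨k, rfl⟩)⟩

/-- one large `m` is enough (`teq_pat`) -/
theorem bef_of_one (hH : Hom N A e) [Finite κ] [Finite κ'] {z : κ → ℕ × ι} {z' : κ' → ℕ × ι}
    (m : ℕ) (hm : ∀ k, (z k).1 < m)
    (h : Teq N A e (Sum.elim z z') (Sum.elim z (fun k => (m + (z' k).1, (z' k).2)))) :
    Bef N A e z z' := by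
  intro m' hm'
  refine h.trans (teq_pat hH _ _ ?_ ?_)
  · rintro (k | k) <;> rfl
  · rintro (k | k) (k' | k')
    · exact Iff.rfl
    · have h1 := hm k
      have h2 := hm' k
      simp only [Sum.elim_inl, Sum.elim_inr]
      omega
    · have h1 := hm k'
      have h2 := hm' k'
      simp only [Sum.elim_inl, Sum.elim_inr]
      omega
    · simp only [Sum.elim_inr]
      omega

/-- really behind -/
theorem bef_of_lt (hH : Hom N A e) [Finite κ] [Finite κ'] {z : κ → ℕ × ι} {z' : κ' → ℕ × ι}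
    (h : ∀ k k', (z k).1 < (z' k').1) : Bef N A e z z' := by
  intro m hm
  refine teq_pat hH _ _ ?_ ?_
  · rintro (k | k) <;> rfl
  · rintro (k | k) (k' | k')
    · exact Iff.rfl
    · have h1 := hm k
      have h2 := h k k'
      simp only [Sum.elim_inl, Sum.elim_inr]
      omega
    · have h1 := hm k'
      have h2 := h k' k
      simp only [Sum.elim_inl, Sum.elim_inr]
      omega
    · simp only [Sum.elim_inr]
      omega

/-- `Bef` depends on the type of the pair only: `z`, `w` have the same type, so do `z'`, `w'`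
(`Teq.comp`), then `cp_back`. -/
theorem Bef.congr (hH : Hom N A e) [Finite κ] [Finite κ'] {z w : κ → ℕ × ι} {z' w' : κ' → ℕ × ι}
    (h : Bef N A e z z') (hw : Teq N A e (Sum.elim z z') (Sum.elim w w')) : Bef N A e w w' := by
  intro m hm
  obtain ⟨m₁, hm₁⟩ := bf_bound z
  have h1 : Teq N A e z w := hw.comp hH (Sum.inl : κ → κ ⊕ κ')
  have h2 : Teq N A e z' w' := hw.comp hH (Sum.inr : κ' → κ ⊕ κ')
  have h3 : Teq N A e z' (fun k => (m₁ + (z' k).1, (z' k).2)) :=
    Teq.reloc hH z' (fun n => m₁ + n) (fun a b hab => Nat.add_lt_add_left hab m₁)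
  have h4 : Teq N A e w' (fun k => (m + (w' k).1, (w' k).2)) :=
    Teq.reloc hH w' (fun n => m + n) (fun a b hab => Nat.add_lt_add_left hab m)
  have h5 : Teq N A e (Sum.elim z (fun k => (m₁ + (z' k).1, (z' k).2)))
      (Sum.elim w (fun k => (m + (w' k).1, (w' k).2))) :=
    cp_back hH h1 ((h3.symm.trans h2).trans h4)
      (fun k a => lt_of_lt_of_le (hm₁ k) (Nat.le_add_right _ _))
      (fun k a => lt_of_lt_of_le (hm k) (Nat.le_add_right _ _))
  exact (hw.symm.trans (h m₁ hm₁)).trans h5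

/-- subtuples -/
theorem Bef.comp {κ₁ κ₂ : Type} (hH : Hom N A e) [Finite κ] [Finite κ'] [Finite κ₁] [Finite κ₂]
    {z : κ → ℕ × ι} {z' : κ' → ℕ × ι} (h : Bef N A e z z') (ρ : κ₁ → κ) (ρ' : κ₂ → κ') :
    Bef N A e (fun k => z (ρ k)) (fun k => z' (ρ' k)) := by
  obtain ⟨m, hm⟩ := bf_bound z
  refine bef_of_one hH m (fun k => hm (ρ k)) ?_
  have h1 := (h m hm).comp hH (Sum.map ρ ρ')
  have h2 : ∀ (u : κ → ℕ × ι) (v : κ' → ℕ × ι),
      (fun k => Sum.elim u v (Sum.map ρ ρ' k)) = Sum.elim (fun k => u (ρ k)) (fun k => v (ρ' k)) := by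
    intro u v
    funext k
    rcases k with k | k <;> rfl
  rw [h2, h2] at h1
  exact h1

/-- `Prec` of letter tuples is `Bef` inside a block (any block) -/
theorem bef_blk_iff (hH : Hom N A e) [Finite κ] [Finite κ'] (i : ℕ) (τ : κ → ι) (τ' : κ' → ι) :
    Bef N A e (blk i τ) (blk i τ') ↔ Prec N A e τ τ' := by
  have h1 : (fun k => (i + 1 + (blk i τ' k).1, (blk i τ' k).2)) = blk (i + 1 + i) τ' := rfl
  constructor
  · intro h
    have h2 := h (i + 1) (fun _ => Nat.lt_succ_self i)
    rw [h1] at h2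
    exact ((teq_two hH τ τ' (by omega) (by omega)).trans h2).trans
      (teq_two hH τ τ' (by omega) (by omega))
  · intro h
    refine bef_of_one hH (i + 1) (fun _ => Nat.lt_succ_self i) ?_
    rw [h1]
    exact ((teq_two hH τ τ' (by omega) (by omega)).trans h).trans
      (teq_two hH τ τ' (by omega) (by omega))

/-- Two configurations of types of similar chain atoms are not before each other both ways: the
first one would give that the pair has the type of `((0, τ), (1, τ'))`, the second one that it has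
the type of `((1, τ), (0, τ'))`; but `¬ Perp τ τ'` (`CA.not_perp`). -/
theorem Bef.asymm (hH : Hom N A e) [Finite κ] [Finite κ'] {τ : κ → ι} {τ' : κ' → ι}
    (hn : ¬ Perp N A e τ τ') {z : κ → ℕ × ι} {z' : κ' → ℕ × ι} (hz : Teq N A e z (blk 0 τ))
    (hz' : Teq N A e z' (blk 0 τ')) (h : Bef N A e z z') : ¬ Bef N A e z' z := by
  intro h'
  obtain ⟨m, hm⟩ := bf_bound z
  obtain ⟨m', hm'⟩ := bf_bound z'
  have h1 : Teq N A e (Sum.elim z z') (Sum.elim (blk 0 τ) (blk 1 τ')) := by
    have h3 : Teq N A e z' (fun k => (m + (z' k).1, (z' k).2)) :=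
      Teq.reloc hH z' (fun n => m + n) (fun a b hab => Nat.add_lt_add_left hab m)
    refine (h m hm).trans (cp_back hH hz ((h3.symm.trans hz').trans (teq_blk hH 0 1 τ')) ?_ ?_)
    · exact fun k a => lt_of_lt_of_le (hm k) (Nat.le_add_right _ _)
    · exact fun _ _ => Nat.zero_lt_one
  have h2 : Teq N A e (Sum.elim z' z) (Sum.elim (blk 0 τ') (blk 1 τ)) := by
    have h3 : Teq N A e z (fun k => (m' + (z k).1, (z k).2)) :=
      Teq.reloc hH z (fun n => m' + n) (fun a b hab => Nat.add_lt_add_left hab m')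
    refine (h' m' hm').trans (cp_back hH hz' ((h3.symm.trans hz).trans (teq_blk hH 0 1 τ)) ?_ ?_)
    · exact fun k a => lt_of_lt_of_le (hm' k) (Nat.le_add_right _ _)
    · exact fun _ _ => Nat.zero_lt_one
  have h3 := h2.comp hH (Sum.swap : κ ⊕ κ' → κ' ⊕ κ)
  have h4 : ∀ (u : κ → ℕ × ι) (v : κ' → ℕ × ι),
      (fun k => Sum.elim v u (Sum.swap k)) = Sum.elim u v := by
    intro u v
    funext k
    rcases k with k | k <;> rfl
  rw [h4, h4] at h3
  exact hn (h1.symm.trans h3)

/-- in different blocks `Bef` is the order of the blocks (for tuples which do not commute) -/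
theorem bef_iff_lt (hH : Hom N A e) [Finite κ] [Finite κ'] {τ : κ → ι} {τ' : κ' → ι}
    (hn : ¬ Perp N A e τ τ') {i j : ℕ} (hij : i ≠ j) :
    Bef N A e (blk i τ) (blk j τ') ↔ i < j := by
  constructor
  · intro h
    have h2 := h (i + 1) (fun _ => Nat.lt_succ_self i)
    exact lt_of_not_perp hH hn (i := i) (j := i + 1 + j) (by omega) hij h2.symm
  · intro h
    exact bef_of_lt hH fun _ _ => h

/-- `Bef` for tuples of chain atom type is the relation `Vis` (types of `((0, τ), (1, τ'))`) -/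
theorem bef_iff_teq (hH : Hom N A e) [Finite κ] [Finite κ'] {τ : κ → ι} {τ' : κ' → ι}
    {z : κ → ℕ × ι} {z' : κ' → ℕ × ι} (hz : Teq N A e z (blk 0 τ))
    (hz' : Teq N A e z' (blk 0 τ')) :
    Bef N A e z z' ↔ Teq N A e (Sum.elim z z') (Sum.elim (blk 0 τ) (blk 1 τ')) := by
  constructor
  · intro h
    obtain ⟨m, hm⟩ := bf_bound z
    have h3 : Teq N A e z' (fun k => (m + (z' k).1, (z' k).2)) :=
      Teq.reloc hH z' (fun n => m + n) (fun a b hab => Nat.add_lt_add_left hab m)
    refine (h m hm).trans (cp_back hH hz ((h3.symm.trans hz').trans (teq_blk hH 0 1 τ')) ?_ ?_)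
    · exact fun k a => lt_of_lt_of_le (hm k) (Nat.le_add_right _ _)
    · exact fun _ _ => Nat.zero_lt_one
  · intro h
    exact (bef_of_lt hH (z := blk 0 τ) (z' := blk 1 τ') fun _ _ => Nat.zero_lt_one).congr hH h.symm

end Pool.H17.TA
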