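import Pool.Agent.H17.TA.Pair

/-!
# Similar letter tuples, C1
-/

set_option autoImplicit false

namespace Pool.H17.TA

open Pool.H22.VC Function Set

variable {r : ℕ} {K ι κ κ' : Type} {N : Col r K ℕ} {A : Set ℕ} {e : ℕ → ι → ℕ}

/-- Two letter tuples have the same type up to the labels. -/
def Sim (N : Col r K ℕ) (A : Set ℕ) (e : ℕ → ι → ℕ) (τ : κ → ι) (τ' : κ' → ι) : Prop :=
  ∃ σ : κ ≃ κ', Teq N A e (blk 0 τ) (blk 0 (fun k => τ' (σ k)))

theorem Sim.refl (hH : Hom N A e) (τ : κ → ι) : Sim N A e τ τ :=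
  ⟨Equiv.refl κ, Teq.refl hH _⟩

theorem Sim.symm (hH : Hom N A e) [Finite κ] [Finite κ'] {τ : κ → ι} {τ' : κ' → ι}
    (h : Sim N A e τ τ') : Sim N A e τ' τ := by
  obtain ⟨σ, hσ⟩ := h
  refine ⟨σ.symm, Teq.symm ?_⟩
  have h1 := hσ.comp hH σ.symm
  have e1 : (fun k => (blk 0 (fun k => τ' (σ k)) : κ → ℕ × ι) (σ.symm k)) = blk 0 τ' := by
    funext k
    simp [blk]
  rw [e1] at h1
  exact h1

theorem Sim.trans {κ'' : Type} (hH : Hom N A e) [Finite κ] [Finite κ'] [Finite κ'']
    {τ : κ → ι} {τ' : κ' → ι} {τ'' : κ'' → ι}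
    (h : Sim N A e τ τ') (h' : Sim N A e τ' τ'') : Sim N A e τ τ'' := by
  obtain ⟨σ, hσ⟩ := h
  obtain ⟨σ', hσ'⟩ := h'
  exact ⟨σ.trans σ', hσ.trans (hσ'.comp hH σ)⟩

/-- chain atoms are preserved by `Sim` -/
theorem CA.sim (hH : Hom N A e) [Finite κ] [Finite κ'] {τ : κ → ι} {τ' : κ' → ι}
    (hτ : CA N A e τ) (hi : Injective τ') (h : Sim N A e τ τ') : CA N A e τ' := by
  obtain ⟨σ, hσ⟩ := h
  have h1 := (hτ.congr hH (hi.comp σ.injective) hσ).equiv hH σ.symm
  have e1 : (fun k => (τ' ∘ σ) (σ.symm k)) = τ' := by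
    funext k
    simp
  rw [e1] at h1
  exact h1

/-- similar chain atoms do not commute -/
theorem CA.not_perp (hH : Hom N A e) [Finite κ] [Finite κ'] {τ : κ → ι} {τ' : κ' → ι}
    (hτ : CA N A e τ) (h : Sim N A e τ τ') : ¬ Perp N A e τ τ' := by
  obtain ⟨σ, hσ⟩ := h
  intro hp
  exact hτ.nperp ((hp.comp hH id σ).congr hH (Teq.refl hH _) hσ.symm)

theorem sim_nonempty (hH : Hom N A e) [Finite κ] [Finite κ'] {τ : κ → ι} {τ' : κ' → ι}
    (hn : ¬ Perp N A e τ τ') : Nonempty κ ∧ Nonempty κ' := by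
  constructor
  · by_contra h
    rw [not_nonempty_iff] at h
    refine hn (teq_pat hH _ _ ?_ ?_)
    · rintro (k | k)
      · exact (h.false k).elim
      · rfl
    · rintro (k | k) (k' | k')
      · exact (h.false k).elim
      · exact (h.false k).elim
      · exact (h.false k').elim
      · simp [blk]
  · by_contra h
    rw [not_nonempty_iff] at h
    refine hn (teq_pat hH _ _ ?_ ?_)
    · rintro (k | k)
      · rfl
      · exact (h.false k).elim
    · rintro (k | k) (k' | k')
      · simp [blk]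
      · exact (h.false k').elim
      · exact (h.false k).elim
      · exact (h.false k).elim

theorem c1_sim (hW : ¬ Wild N univ) (hH : Hom N A e) (hA : A.Finite) [Finite ι] [Finite κ]
    [Finite κ'] {τ : κ → ι} {τ' : κ' → ι} (hi : Injective τ) (hi' : Injective τ')
    (hn : ¬ Perp N A e τ τ')
    (hmin : ∀ (s : Set κ) (s' : Set κ'), (s ≠ univ ∨ s' ≠ univ) →
      Perp N A e (res s τ) (res s' τ')) :
    ∃ σ : κ' ≃ κ, Teq N A e (blk 0 (fun k => τ (σ k))) (blk 0 τ') := by
  obtain ⟨hne, hne'⟩ := sim_nonempty hH hn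
  have hn' : ¬ Perp N A e τ' τ := fun h => hn (h.symm hH)
  have h1 : ∀ s : Set κ, s ≠ univ → Perp N A e (res s τ) τ' := fun s hs =>
    (hmin s univ (Or.inl hs)).comp hH id (fun k => ⟨k, mem_univ k⟩)
  have h2 : ∀ s : Set κ', s ≠ univ → Perp N A e (res s τ') τ := fun s hs =>
    Perp.symm hH ((hmin univ s (Or.inr hs)).comp hH (fun k => ⟨k, mem_univ k⟩) id)
  obtain ⟨ρ, hρ, hρt⟩ := pair hW hH hA hi hi' hn (inblk hH h1 hn) (inblk hH h2 hn')
  obtain ⟨ρ', hρ', -⟩ := pair hW hH hA hi' hi hn' (inblk hH h2 hn') (inblk hH h1 hn)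
  have hb : Bijective ρ := (Nat.bijective_iff_injective_and_card ρ).2
    ⟨hρ, le_antisymm (Nat.card_le_card_of_injective ρ hρ) (Nat.card_le_card_of_injective ρ' hρ')⟩
  exact ⟨Equiv.ofBijective ρ hb, hρt⟩

/-- C1. A minimal non-commuting pair consists of two tuples of the same type (up to labels). PROOF.
`inblk` for `τ`, `τ'` and for `τ'`, `τ` (`Perp.symm`); both are nonempty (an empty tuple commutes
with everything, `teq_pat`); `pair` twice gives injections between the labels, so the first `ρ` is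
a bijection. -/
theorem c1 (hW : ¬ Wild N univ) (hH : Hom N A e) (hA : A.Finite) [Finite ι] [Finite κ]
    [Finite κ'] {τ : κ → ι} {τ' : κ' → ι} (hi : Injective τ) (hi' : Injective τ')
    (hn : ¬ Perp N A e τ τ')
    (hmin : ∀ (s : Set κ) (s' : Set κ'), (s ≠ univ ∨ s' ≠ univ) →
      Perp N A e (res s τ) (res s' τ')) : Sim N A e τ τ' ∧ CA N A e τ ∧ CA N A e τ' := by
  obtain ⟨σ, hσ⟩ := c1_sim hW hH hA hi hi' hn hmin
  have hs : Sim N A e τ τ' := by
    refine ⟨σ.symm, ?_⟩
    have h1 := hσ.comp hH σ.symm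
    have e1 : (fun k => (blk 0 (fun k => τ (σ k)) : κ' → ℕ × ι) (σ.symm k)) = blk 0 τ := by
      funext k
      simp [blk]
    rw [e1] at h1
    exact h1
  have hca : CA N A e τ := by
    refine ⟨hi, ?_, ?_⟩
    · intro hp
      exact hn ((hp.comp hH id σ).congr hH (Teq.refl hH _) hσ)
    · intro s s' hss
      have h1 : Perp N A e (res s τ) (res {k : κ' | σ k ∈ s'} τ') := by
        refine hmin s _ ?_
        rcases hss with h | h
        · exact Or.inl h
        · refine Or.inr fun h2 => h ?_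
          ext k
          refine ⟨fun _ => mem_univ k, fun _ => ?_⟩
          have h3 : σ.symm k ∈ {k : κ' | σ k ∈ s'} := by
            rw [h2]
            exact mem_univ _
          have h4 : σ (σ.symm k) ∈ s' := h3
          rwa [Equiv.apply_symm_apply] at h4
      have h2 : Teq N A e (blk 0 (res {k : κ' | σ k ∈ s'} τ'))
          (blk 0 (fun k : {k : κ' | σ k ∈ s'} => τ (σ k))) :=
        (hσ.comp hH (Subtype.val : {k : κ' | σ k ∈ s'} → κ')).symm
      have h3 := (h1.congr hH (Teq.refl hH _) h2).comp hH id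
        (fun k : s' => ⟨σ.symm k, by
          show σ (σ.symm k) ∈ s'
          rw [Equiv.apply_symm_apply]
          exact k.2⟩)
      have e1 : (fun k : s' => τ (σ ((⟨σ.symm k, by
          show σ (σ.symm k) ∈ s'
          rw [Equiv.apply_symm_apply]
          exact k.2⟩ : {k : κ' | σ k ∈ s'}) : κ'))) = res s' τ := by
        funext k
        simp [res]
      rw [e1] at h3
      exact h3
  exact ⟨hs, hca, hca.sim hH hi' hs⟩

/-- C1'. Tuples which do not commute contain similar chain atoms (minimal non-commuting pair of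
subtuples, `c1`). -/
theorem c1' (hW : ¬ Wild N univ) (hH : Hom N A e) (hA : A.Finite) [Finite ι] [Finite κ]
    [Finite κ'] {τ : κ → ι} {τ' : κ' → ι} (hi : Injective τ) (hi' : Injective τ')
    (hn : ¬ Perp N A e τ τ') :
    ∃ (s : Set κ) (s' : Set κ'), CA N A e (res s τ) ∧ CA N A e (res s' τ') ∧
      Sim N A e (res s τ) (res s' τ') := by
  classical
  have hex : ∃ p : Set κ × Set κ', ¬ Perp N A e (res p.1 τ) (res p.2 τ') := by
    refine ⟨(univ, univ), fun h => hn ?_⟩
    exact h.comp hH (fun k => ⟨k, mem_univ k⟩) (fun k => ⟨k, mem_univ k⟩)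
  obtain ⟨⟨s, s'⟩, hp, hmin⟩ := Set.exists_min_image
    {p : Set κ × Set κ' | ¬ Perp N A e (res p.1 τ) (res p.2 τ')}
    (fun p => p.1.ncard + p.2.ncard) (Set.toFinite _) hex
  have hp' : ¬ Perp N A e (res s τ) (res s' τ') := hp
  obtain ⟨h1, h2, h3⟩ := c1 hW hH hA (τ := res s τ) (τ' := res s' τ')
    (hi.comp Subtype.val_injective) (hi'.comp Subtype.val_injective) hp' (by
      intro t t' htt
      by_contra hcon
      have hle : ∀ {γ : Type} [Finite γ] (s : Set γ) (t : Set s),
          (Subtype.val '' t).ncard ≤ s.ncard ∧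
          (t ≠ univ → (Subtype.val '' t).ncard < s.ncard) := by
        intro γ _ s t
        have hsub : Subtype.val '' t ⊆ s := by
          rintro _ ⟨x, -, rfl⟩
          exact x.2
        refine ⟨Set.ncard_le_ncard hsub (Set.toFinite _), fun ht => ?_⟩
        refine Set.ncard_lt_ncard ⟨hsub, fun h => ht ?_⟩ (Set.toFinite _)
        ext x
        refine ⟨fun _ => mem_univ x, fun _ => ?_⟩
        obtain ⟨y, hy, hyx⟩ := h x.2
        have : y = x := Subtype.ext hyx
        rwa [this] at hy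
      have h4 : (Subtype.val '' t, Subtype.val '' t') ∈
          {p : Set κ × Set κ' | ¬ Perp N A e (res p.1 τ) (res p.2 τ')} := by
        intro h
        apply hcon
        exact h.comp hH (fun k : t => ⟨(k : s), ⟨(k : s), k.2, rfl⟩⟩)
          (fun k : t' => ⟨(k : s'), ⟨(k : s'), k.2, rfl⟩⟩)
      have h5 := hmin _ h4
      have h6 := hle s t
      have h7 := hle s' t'
      simp only at h5
      rcases htt with h | h
      · have := h6.2 h
        have := h7.1
        omega
      · have := h7.2 h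
        have := h6.1
        omega)
  exact ⟨s, s', h2, h3, h1⟩

/-- C1''. If `τ` is a chain atom and `σ` contains no chain atom similar to `τ` then they commute
(`c1'` and `CA.sub_eq`). -/
theorem perp_of_no_atom (hW : ¬ Wild N univ) (hH : Hom N A e) (hA : A.Finite) [Finite ι]
    [Finite κ] [Finite κ'] {τ : κ → ι} {σ : κ' → ι} (hτ : CA N A e τ) (hi : Injective σ)
    (h : ∀ s : Set κ', CA N A e (res s σ) → ¬ Sim N A e (res s σ) τ) : Perp N A e σ τ := by
  by_contra hn
  obtain ⟨s, s', h1, h2, h3⟩ := c1' hW hH hA hi hτ.inj hn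
  have h4 := hτ.sub_eq hH s' h2
  subst h4
  refine h s h1 (h3.trans hH ⟨Equiv.Set.univ κ, Teq.refl hH _⟩)

end Pool.H17.TA
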