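import Pool.Agent.H17.TA.Mark
import Pool.Agent.H17.TA.Sim

/-!
# C3 : chain atoms are equal or disjoint
-/

set_option autoImplicit false

namespace Pool.H17.TA

open Pool.H22.VC Function Set

variable {r : ℕ} {K ι κ κ' : Type} {N : Col r K ℕ} {A : Set ℕ} {e : ℕ → ι → ℕ}

/-- A chain atom whose range is contained in the range of another chain atom has the same range
(`CA.sub_eq`). -/
theorem CA.range_eq (hH : Hom N A e) [Finite κ] [Finite κ'] {τ : κ → ι} {τ' : κ' → ι}
    (hτ : CA N A e τ) (hτ' : CA N A e τ') (h : range τ' ⊆ range τ) : range τ' = range τ := by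
  classical
  refine Subset.antisymm h ?_
  let s : Set κ := {k | τ k ∈ range τ'}
  have h1 : ∀ k : s, ∃ k' : κ', τ' k' = τ k := fun k => k.2
  choose f hf using h1
  have hfb : Bijective f := by
    constructor
    · intro k k' hk
      have h2 := hf k
      rw [hk, hf k'] at h2
      exact Subtype.ext (hτ.inj h2.symm)
    · intro k'
      obtain ⟨k, hk⟩ := h (mem_range_self k')
      have hks : k ∈ s := ⟨k', hk.symm⟩
      refine ⟨⟨k, hks⟩, hτ'.inj ?_⟩
      rw [hf ⟨k, hks⟩]
      exact hk
  have h2 := hτ'.equiv hH (Equiv.ofBijective f hfb)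
  have h3 : (fun k => τ' (Equiv.ofBijective f hfb k)) = res s τ := by
    funext k
    exact hf k
  rw [h3] at h2
  have h4 := hτ.sub_eq hH s h2
  rintro _ ⟨k, rfl⟩
  have h5 : k ∈ s := by
    rw [h4]
    exact mem_univ k
  exact h5

/-- C3. PROOF. Suppose not. Let `T = range τ`, `U = T ∪ range τ'`, `b = cX T ≥ 1`,
`c = cX U ≥ b`. `mark` with `n = c` and the lists `l true` = `b` times `U`, `c - b` times `∅`, and
`l false` = `c` times `T`: the numbers of tuples of type `τ` are `b c` for both (`cX ∅ = 0`). The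
property `P` of `z`: there is a configuration `y` of type `τ'` in the domain with
`range y ∩ range z ≠ ∅` and `range y ≠ range z`. It is block-local because `y` lies in one block
(`CA.inblk`). Inside `T` there is no such tuple: all tuples of type `τ` in `T` have the range
`T`, and a tuple of type `τ'` in `T` is a chain atom, so its range is `T` too (`CA.range_eq`).
Inside `U`: `τ` itself, with `τ'`. -/
theorem c3 (hW : ¬ Wild N univ) (hH : Hom N A e) (hA : A.Finite) [Finite ι] [Finite κ]
    [Finite κ'] {τ : κ → ι} {τ' : κ' → ι} (hτ : CA N A e τ) (hτ' : CA N A e τ')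
    (h : (range τ ∩ range τ').Nonempty) : range τ = range τ' := by
  classical
  by_contra hne
  have hκ := hτ.nonempty hH
  have hκ' := hτ'.nonempty hH
  obtain ⟨T, hT⟩ : ∃ T, T = range τ := ⟨_, rfl⟩
  obtain ⟨U, hU⟩ : ∃ U, U = range τ ∪ range τ' := ⟨_, rfl⟩
  obtain ⟨b, hb⟩ : ∃ b, b = cX N A e τ T := ⟨_, rfl⟩
  obtain ⟨c, hc⟩ : ∃ c, c = cX N A e τ U := ⟨_, rfl⟩
  have hb1 : 1 ≤ b := by
    rw [hb, hT]
    exact cX_range hH hτ.inj Subset.rfl
  have hbc : b ≤ c := by
    rw [hb, hc]
    unfold cX cQ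
    refine ncard_le_ncard ?_ (Set.toFinite _)
    rintro σ ⟨h1, h2, h3⟩
    refine ⟨h1, fun k => ?_, h3⟩
    rw [hU, ← hT]
    exact Or.inl (h2 k)
  let P : Set (ℕ × ι) → (κ → ℕ × ι) → Prop := fun D z =>
    ∃ y : κ' → ℕ × ι, y ∈ XT N A e τ' D ∧ (range y ∩ range z).Nonempty ∧ range y ≠ range z
  let Q : Set ι → (κ → ι) → Prop := fun S σ =>
    ∃ σ' : κ' → ι, σ' ∈ LX N A e τ' (fun _ _ => True) S ∧ (range σ' ∩ range σ).Nonempty ∧
      range σ' ≠ range σ
  have hrb : ∀ {β : Type} (i : ℕ) (σ : β → ι), range (blk i σ) = (fun c => (i, c)) '' range σ := by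
    intro β i σ
    rw [← range_comp]
    rfl
  have hinj : ∀ i : ℕ, Injective (fun c : ι => (i, c)) := fun i c c' h => (Prod.ext_iff.1 h).2
  refine mark hW hH hA hτ P Q ?_ ?_ c
    (fun x => if x then List.replicate b U ++ List.replicate (c - b) ∅ else List.replicate c T)
    ?_ ?_ ?_
  · rintro g D D' z hg hz ⟨y, hy, ⟨p, ⟨k, hk⟩, k', hk'⟩, hyz⟩
    refine ⟨fun k => g (y k), hg.xt hH τ' hy, ⟨g p, ⟨k, ?_⟩, k', ?_⟩, fun hr => hyz ?_⟩
    · simp only [hk]
    · simp only [hk']
    · have hy2 : range y ⊆ D := by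
        rintro _ ⟨k, rfl⟩
        exact hy.2.1 k
      have hz2 : range z ⊆ D := by
        rintro _ ⟨k, rfl⟩
        exact hz.2.1 k
      have hr2 : g '' range y = g '' range z := by
        rw [← range_comp, ← range_comp]
        exact hr
      exact (hg.1.injOn.image_eq_image_iff hy2 hz2).1 hr2
  · intro B i σ hσ
    constructor
    · rintro ⟨y, hy, ⟨p, ⟨k, hk⟩, k', hk'⟩, hyz⟩
      have hin := hτ'.inblk hH y hy.2.2
      have hi : (y k).1 = i := by rw [hk, ← hk']; rfl
      have hy2 : y = blk i (fun k => (y k).2) := by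
        funext k₁
        exact Prod.ext ((hin k₁ k).trans hi) rfl
      refine ⟨fun k => (y k).2, ⟨?_, ?_, ?_, trivial⟩, ?_, ?_⟩
      · intro k₁ k₂ h12
        apply hy.1
        rw [hy2]
        exact Prod.ext rfl h12
      · intro k₁
        have h1 := hy.2.1 k₁
        have h2 : (y k₁).2 ∈ B (y k₁).1 := h1
        rw [(hin k₁ k).trans hi] at h2
        exact h2
      · have h1 := hy.2.2
        rw [hy2] at h1
        exact (teq_blk hH 0 i _).trans h1
      · refine ⟨p.2, ⟨k, by rw [← hk]⟩, k', ?_⟩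
        rw [← hk']
        rfl
      · intro hr
        apply hyz
        rw [hy2, hrb, hrb, hr]
    · rintro ⟨σ', hσ', ⟨p, ⟨k, hk⟩, k', hk'⟩, hyz⟩
      refine ⟨blk i σ', ⟨?_, ?_, ?_⟩, ?_, ?_⟩
      · intro k₁ k₂ h12
        exact hσ'.1 (Prod.ext_iff.1 h12).2
      · exact fun k₁ => hσ'.2.1 k₁
      · exact (teq_blk hH i 0 σ').trans hσ'.2.2.1
      · refine ⟨(i, p), ⟨k, ?_⟩, k', ?_⟩
        · exact Prod.ext rfl hk
        · exact Prod.ext rfl hk'
      · intro hr
        rw [hrb, hrb] at hr
        exact hyz ((hinj i).image_injective hr)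
  · intro x
    cases x
    · simp
    · simp only [if_true, List.length_append, List.length_replicate]
      omega
  · have h0 : cX N A e τ ∅ = 0 := cX_empty' τ
    simp only [if_true, List.map_append, List.map_replicate, List.sum_append,
      List.sum_replicate, smul_eq_mul, h0, mul_zero, add_zero, Bool.false_eq_true, if_false]
    rw [← hb, ← hc, mul_comm]
  · have h0 : cQ N A e τ Q T = 0 := by
      unfold cQ
      rw [ncard_eq_zero (Set.toFinite _)]
      ext σ
      simp only [mem_empty_iff_false, iff_false]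
      rintro ⟨h1, h2, h3, σ', h4, -, h5⟩
      rw [hT] at h2
      have c1 : CA N A e σ := hτ.congr hH h1 h3.symm
      have c2 : CA N A e σ' := hτ'.congr hH h4.1 h4.2.2.1.symm
      have r1 : range σ = range τ := hτ.range_eq hH c1 (by
        rintro _ ⟨k, rfl⟩
        exact h2 k)
      have r2 : range σ' = range τ := hτ.range_eq hH c2 (by
        rintro _ ⟨k, rfl⟩
        have := h4.2.1 k
        rw [hT] at this
        exact this)
      exact h5 (r2.trans r1.symm)
    have h1 : 1 ≤ cQ N A e τ Q U := by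
      unfold cQ
      rw [Nat.one_le_iff_ne_zero, ← Nat.pos_iff_ne_zero, ncard_pos (Set.toFinite _)]
      refine ⟨τ, hτ.inj, fun k => ?_, Teq.refl hH _, τ', ⟨hτ'.inj, fun k => ?_, Teq.refl hH _,
        trivial⟩, ?_, fun h => hne h.symm⟩
      · rw [hU]
        exact Or.inl (mem_range_self k)
      · rw [hU]
        exact Or.inr (mem_range_self k)
      · rw [inter_comm]
        exact h
    have h2 : 1 ≤ b * cQ N A e τ Q U := Nat.mul_pos hb1 h1
    simp only [if_true, List.map_append, List.map_replicate, List.sum_append,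
      List.sum_replicate, smul_eq_mul, Bool.false_eq_true, if_false, h0, mul_zero]
    omega

/-- Additivity of the number of tuples of type `τ`: the range of a chain atom can be split off,
because every tuple of type `τ` is a chain atom (`CA.congr`) and its range is disjoint from or
equal to `range τ'` (`c3`). -/
theorem cX_split (hW : ¬ Wild N univ) (hH : Hom N A e) (hA : A.Finite) [Finite ι] [Finite κ]
    [Finite κ'] {τ : κ → ι} {τ' : κ' → ι} (hτ : CA N A e τ) (hτ' : CA N A e τ') (J : Set ι)
    (hd : Disjoint J (range τ')) :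
    cX N A e τ (J ∪ range τ') = cX N A e τ J + cX N A e τ (range τ') := by
  classical
  have hκ := hτ.nonempty hH
  have h1 : LX N A e τ (fun _ _ => True) (J ∪ range τ') =
      LX N A e τ (fun _ _ => True) J ∪ LX N A e τ (fun _ _ => True) (range τ') := by
    ext σ
    constructor
    · rintro ⟨h1, h2, h3, h4⟩
      have c1 : CA N A e σ := hτ.congr hH h1 h3.symm
      by_cases h5 : (range σ ∩ range τ').Nonempty
      · have h6 := c3 hW hH hA c1 hτ' h5
        refine Or.inr ⟨h1, fun k => ?_, h3, h4⟩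
        rw [← h6]
        exact mem_range_self k
      · refine Or.inl ⟨h1, fun k => ?_, h3, h4⟩
        rcases h2 k with h7 | h7
        · exact h7
        · exact absurd ⟨σ k, mem_range_self k, h7⟩ h5
    · rintro (⟨h1, h2, h3⟩ | ⟨h1, h2, h3⟩)
      · exact ⟨h1, fun k => Or.inl (h2 k), h3⟩
      · exact ⟨h1, fun k => Or.inr (h2 k), h3⟩
  unfold cX cQ
  rw [h1]
  refine ncard_union_eq ?_ (Set.toFinite _) (Set.toFinite _)
  rw [Set.disjoint_left]
  rintro σ ⟨-, h2, -⟩ ⟨-, h3, -⟩
  obtain ⟨k⟩ := hκ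
  exact Set.disjoint_left.1 hd (h2 k) (h3 k)

/-- there are no tuples of chain atom type in the empty set -/
theorem cX_empty (hH : Hom N A e) [Finite κ] {τ : κ → ι} (hτ : CA N A e τ) :
    cX N A e τ ∅ = 0 := by
  have := hτ.nonempty hH
  exact cX_empty' τ

end Pool.H17.TA
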