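import Pool.Agent.H17.TA.C3
import Pool.Agent.H17.TA.Bef

/-!
# C5 : similar chain atoms inside a block are comparable
-/

set_option autoImplicit false

namespace Pool.H17.TA

open Pool.H22.VC Function Set

variable {r : ℕ} {K ι κ κ' κ'' : Type} {N : Col r K ℕ} {A : Set ℕ} {e : ℕ → ι → ℕ}

/-- renaming and forgetting labels in `Prec` -/
theorem c5_prec_map {κ₁ κ₂ : Type} (hH : Hom N A e) [Finite κ] [Finite κ'] {τ : κ → ι}
    {τ' : κ' → ι} (h : Prec N A e τ τ') (ρ : κ₁ → κ) (ρ' : κ₂ → κ') :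
    Prec N A e (fun k => τ (ρ k)) (fun k => τ' (ρ' k)) := by
  have h1 := Teq.comp hH h (Sum.map ρ ρ' : κ₁ ⊕ κ₂ → κ ⊕ κ')
  have e1 : (fun k => Sum.elim (blk 0 τ) (blk 0 τ') (Sum.map ρ ρ' k)) =
      Sum.elim (blk 0 (fun k => τ (ρ k))) (blk 0 (fun k => τ' (ρ' k))) := by
    funext k
    rcases k with k | k <;> rfl
  have e2 : (fun k => Sum.elim (blk 0 τ) (blk 1 τ') (Sum.map ρ ρ' k)) =
      Sum.elim (blk 0 (fun k => τ (ρ k))) (blk 1 (fun k => τ' (ρ' k))) := by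
    funext k
    rcases k with k | k <;> rfl
  rw [e1, e2] at h1
  exact h1

/-- `Prec` of tuples of type `τ` is `Vis` inside the block `0` -/
theorem c5_vis_iff_prec (hH : Hom N A e) [Finite κ] {τ σ ρ : κ → ι}
    (hσ : Teq N A e (blk 0 σ) (blk 0 τ)) (hρ : Teq N A e (blk 0 ρ) (blk 0 τ)) :
    Vis N A e τ τ (blk 0 σ) (blk 0 ρ) ↔ Prec N A e σ ρ := by
  have h1 : Teq N A e (Sum.elim (blk 0 σ) (blk 1 ρ)) (Sum.elim (blk 0 τ) (blk 1 τ)) :=
    cp_back hH hσ ((teq_blk hH 1 0 ρ).trans (hρ.trans (teq_blk hH 0 1 τ)))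
      (fun _ _ => Nat.zero_lt_one) (fun _ _ => Nat.zero_lt_one)
  exact ⟨fun h => Teq.trans h h1.symm, fun h => Teq.trans h h1⟩

/-- `Vis` does not depend on the block -/
theorem c5_vis_blk (hH : Hom N A e) [Finite κ] {τ : κ → ι} (i j : ℕ) (σ ρ : κ → ι) :
    Vis N A e τ τ (blk i σ) (blk i ρ) → Vis N A e τ τ (blk j σ) (blk j ρ) := by
  intro h
  refine h.congr ?_
  have h1 := teq_blk hH i j (Sum.elim σ ρ)
  have e1 : ∀ i : ℕ, (blk i (Sum.elim σ ρ) : κ ⊕ κ → ℕ × ι) = Sum.elim (blk i σ) (blk i ρ) := by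
    intro i
    funext k
    rcases k with k | k <;> rfl
  rw [e1, e1] at h1
  exact h1

/-- `Vis` and type preserving maps -/
theorem c5_vis_pres (hH : Hom N A e) [Finite κ] {τ : κ → ι} {g : ℕ × ι → ℕ × ι}
    {D D' : Set (ℕ × ι)} (h : Pres N A e g D D') {z y : κ → ℕ × ι} (hz : ∀ k, z k ∈ D)
    (hy : ∀ k, y k ∈ D) :
    Vis N A e τ τ (fun k => g (z k)) (fun k => g (y k)) ↔ Vis N A e τ τ z y := by
  have h3 := h.teq hH (Sum.elim z y) (by
    rintro (k | k)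
    · exact hz k
    · exact hy k)
  have e1 : (fun k => g (Sum.elim z y k)) =
      Sum.elim (fun k => g (z k)) (fun k => g (y k)) := by
    funext k
    rcases k with k | k <;> rfl
  rw [e1] at h3
  exact ⟨fun hv => hv.congr h3.symm, fun hv => hv.congr h3⟩

/-- disjoint ranges and injective maps -/
theorem c5_disj_pres {g : ℕ × ι → ℕ × ι} {D : Set (ℕ × ι)} (h : InjOn g D)
    {z y : κ → ℕ × ι} (hz : ∀ k, z k ∈ D) (hy : ∀ k, y k ∈ D)
    (hd : Disjoint (range y) (range z)) :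
    Disjoint (range (fun k => g (y k))) (range (fun k => g (z k))) := by
  rw [Set.disjoint_left]
  rintro x ⟨k, rfl⟩ ⟨k', hk'⟩
  have h1 := h (hz k') (hy k) hk'
  exact Set.disjoint_left.1 hd ⟨k, rfl⟩ ⟨k', h1⟩

/-- disjoint ranges of letters and of tuples in a block -/
theorem c5_disj_blk (i : ℕ) {σ ρ : κ → ι} :
    Disjoint (range (blk i ρ : κ → ℕ × ι)) (range (blk i σ : κ → ℕ × ι)) ↔
      Disjoint (range ρ) (range σ) := by
  rw [Set.disjoint_left, Set.disjoint_left]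
  constructor
  · rintro h x ⟨k, rfl⟩ ⟨k', hk'⟩
    exact h ⟨k, rfl⟩ ⟨k', Prod.ext rfl hk'⟩
  · rintro h x ⟨k, rfl⟩ ⟨k', hk'⟩
    exact h ⟨k, rfl⟩ ⟨k', congrArg Prod.snd hk'⟩

/-- tuples of the type of a chain atom inside the range of a tuple of this type -/
theorem c5_range (hH : Hom N A e) [Finite κ] {τ τ' : κ → ι} (hτ : CA N A e τ)
    (hi : Injective τ') (h : Teq N A e (blk 0 τ) (blk 0 τ')) {σ : κ → ι}
    (hσ : σ ∈ LX N A e τ (fun _ _ => True) (range τ')) : range σ = range τ' := by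
  refine CA.range_eq hH (hτ.congr hH hi h) (hτ.congr hH hσ.1 hσ.2.2.1.symm) ?_
  rintro x ⟨k, rfl⟩
  exact hσ.2.1 k

/-- C5, same labels. PROOF. Let `S = range τ`, `L = range τ'`; suppose that neither is before the
other. `mark` with `n = 2`, `l true = [S ∪ L, ∅]`, `l false = [S, L]`: the numbers of tuples of type
`τ` are equal (`cX_split`, `cX_empty`). The property `P` of `z`: there is a configuration `y` of
type `τ` in the domain with `range y ∩ range z = ∅`, not `Vis τ τ z y` and not `Vis τ τ y z`; such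
a `y` is in the same block as `z` (`vis_iff`), so `P` is block-local. In `S` and in `L` there is
none (all tuples of type `τ` in `S` have the range `S`, and similarly for `L`, whose tuples of
type `τ` are chain atoms, `CA.congr`, `CA.range_eq`); in `S ∪ L` the tuple `τ` has the property, with
`y = τ'` (`bef_iff_teq`, `bef_blk_iff`). -/
theorem c5' (hW : ¬ Wild N univ) (hH : Hom N A e) (hA : A.Finite) [Finite ι] [Finite κ]
    {τ τ' : κ → ι} (hτ : CA N A e τ) (hτ' : Injective τ') (h : Teq N A e (blk 0 τ) (blk 0 τ'))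
    (hd : Disjoint (range τ) (range τ')) : Prec N A e τ τ' ∨ Prec N A e τ' τ := by
  by_contra hcon
  push Not at hcon
  have hne := hτ.nonempty hH
  have hτ'c : CA N A e τ' := hτ.congr hH hτ' h
  obtain ⟨Q, hQd⟩ : ∃ Q : Set ι → (κ → ι) → Prop, ∀ S σ, Q S σ ↔
      ∃ ρ ∈ LX N A e τ (fun _ _ => True) S, Disjoint (range ρ) (range σ) ∧
        ¬ Vis N A e τ τ (blk 0 σ) (blk 0 ρ) ∧ ¬ Vis N A e τ τ (blk 0 ρ) (blk 0 σ) :=
    ⟨_, fun _ _ => Iff.rfl⟩
  have hzero : ∀ T : κ → ι, Injective T → Teq N A e (blk 0 τ) (blk 0 T) →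
      cQ N A e τ Q (range T) = 0 := by
    intro T hT hTe
    unfold cQ
    rw [ncard_eq_zero (Set.toFinite _), Set.eq_empty_iff_forall_notMem]
    rintro σ ⟨h1, h2, h3, h4⟩
    obtain ⟨ρ, hρ, hdis, -, -⟩ := (hQd _ _).1 h4
    rw [c5_range hH hτ hT hTe hρ, c5_range hH hτ hT hTe ⟨h1, h2, h3, trivial⟩] at hdis
    obtain ⟨k0⟩ := hne
    exact Set.disjoint_left.1 hdis ⟨k0, rfl⟩ ⟨k0, rfl⟩
  refine mark hW hH hA hτ
    (fun D z => ∃ y ∈ XT N A e τ D, Disjoint (range y) (range z) ∧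
      ¬ Vis N A e τ τ z y ∧ ¬ Vis N A e τ τ y z) Q ?_ ?_ 2
    (fun b => if b then [range τ ∪ range τ', ∅] else [range τ, range τ']) ?_ ?_ ?_
  · rintro g D D' z hg hz ⟨y, hy, hd1, hv1, hv2⟩
    refine ⟨fun k => g (y k), hg.xt hH τ hy, c5_disj_pres hg.1.injOn hz.2.1 hy.2.1 hd1, ?_, ?_⟩
    · rw [c5_vis_pres hH hg hz.2.1 hy.2.1]
      exact hv1
    · rw [c5_vis_pres hH hg hy.2.1 hz.2.1]
      exact hv2
  · intro B i σ hσ
    rw [hQd]
    constructor
    · rintro ⟨y, hy, hd1, hv1, hv2⟩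
      obtain ⟨j, ρ, hρ, rfl⟩ := (mem_XT_iff hH (hτ.inblk hH) B y).1 hy
      rcases lt_trichotomy i j with hij | hij | hij
      · exact absurd ((vis_iff hH hτ.nperp hij.ne hσ.2.2.1 hρ.2.2.1).2 hij) hv1
      · subst hij
        exact ⟨ρ, hρ, (c5_disj_blk i).1 hd1, fun h1 => hv1 (c5_vis_blk hH 0 i σ ρ h1),
          fun h1 => hv2 (c5_vis_blk hH 0 i ρ σ h1)⟩
      · exact absurd ((vis_iff hH hτ.nperp hij.ne hρ.2.2.1 hσ.2.2.1).2 hij) hv2
    · rintro ⟨ρ, hρ, hd1, hv1, hv2⟩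
      exact ⟨blk i ρ, (mem_XT_iff hH (hτ.inblk hH) B _).2 ⟨i, ρ, hρ, rfl⟩,
        (c5_disj_blk i).2 hd1, fun h1 => hv1 (c5_vis_blk hH i 0 σ ρ h1),
        fun h1 => hv2 (c5_vis_blk hH i 0 ρ σ h1)⟩
  · intro b
    cases b <;> rfl
  · have h1 := cX_split hW hH hA hτ hτ'c (range τ) hd
    have h2 := cX_empty hH hτ
    simp only [if_true, Bool.false_eq_true, if_false, List.map_cons, List.map_nil, List.sum_cons,
      List.sum_nil]
    omega
  · have h1 := hzero τ hτ.inj (Teq.refl hH _)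
    have h2 := hzero τ' hτ' h
    have h3 : 0 < cQ N A e τ Q (range τ ∪ range τ') := by
      unfold cQ
      rw [ncard_pos (Set.toFinite _)]
      refine ⟨τ, hτ.inj, fun k => Or.inl ⟨k, rfl⟩, Teq.refl hH _, (hQd _ _).2
        ⟨τ', ⟨hτ', fun k => Or.inr ⟨k, rfl⟩, h.symm, trivial⟩, hd.symm, ?_, ?_⟩⟩
      · rw [c5_vis_iff_prec hH (Teq.refl hH _) h.symm]
        exact hcon.1
      · rw [c5_vis_iff_prec hH h.symm (Teq.refl hH _)]
        exact hcon.2
    simp only [if_true, Bool.false_eq_true, if_false, List.map_cons, List.map_nil, List.sum_cons,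
      List.sum_nil]
    omega

/-- C5 -/
theorem c5 (hW : ¬ Wild N univ) (hH : Hom N A e) (hA : A.Finite) [Finite ι] [Finite κ]
    [Finite κ'] {τ : κ → ι} {τ' : κ' → ι} (hτ : CA N A e τ) (hτ' : CA N A e τ')
    (h : Sim N A e τ τ') (hd : Disjoint (range τ) (range τ')) :
    Prec N A e τ τ' ∨ Prec N A e τ' τ := by
  obtain ⟨σ, hσ⟩ := h
  have hr : range (fun k => τ' (σ k)) = range τ' := by
    ext x
    constructor
    · rintro ⟨k, rfl⟩
      exact ⟨σ k, rfl⟩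
    · rintro ⟨k, rfl⟩
      exact ⟨σ.symm k, by simp⟩
  have h1 := c5' hW hH hA hτ (τ' := fun k => τ' (σ k)) (hτ'.inj.comp σ.injective) hσ
    (by rw [hr]; exact hd)
  have e1 : (fun k => (fun k => τ' (σ k)) (σ.symm k)) = τ' := by
    funext k
    simp
  rcases h1 with h1 | h1
  · left
    have h2 := c5_prec_map hH h1 (id : κ → κ) σ.symm
    rw [e1] at h2
    exact h2
  · right
    have h2 := c5_prec_map hH h1 σ.symm (id : κ → κ)
    rw [e1] at h2
    exact h2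

end Pool.H17.TA
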