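import Pool.Agent.H17.TA.C5

/-!
# C6 : the order of similar chain atoms is transitive
-/

set_option autoImplicit false

namespace Pool.H17.TA

open Pool.H22.VC Function Set

variable {r : ℕ} {K ι κ κ' κ'' : Type} {N : Col r K ℕ} {A : Set ℕ} {e : ℕ → ι → ℕ}

/-- C6, same labels. PROOF. Suppose `τ₁` is before `τ₂`, `τ₂` before `τ₃`, but not `τ₁` before
`τ₃`; then `τ₃` is before `τ₁` (`c5'`). `mark` with `τ = τ₁`, `n = 3`,
`l true = [T₁ ∪ T₂ ∪ T₃, ∅, ∅]`, `l false = [T₁, T₂, T₃]` (`Tᵢ = range τᵢ`; `cX_split` twice). The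
property `P` of `z`: there are configurations `y`, `y'` of type `τ` in the domain, with ranges
disjoint from each other and from the range of `z`, with `Vis z y`, `Vis y y'`, `Vis y' z`; they
are in the same block (`vis_iff`: otherwise the block numbers increase). -/
theorem c6' (hW : ¬ Wild N univ) (hH : Hom N A e) (hA : A.Finite) [Finite ι] [Finite κ]
    {τ₁ τ₂ τ₃ : κ → ι} (hτ₁ : CA N A e τ₁) (h2 : Injective τ₂) (h3 : Injective τ₃)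
    (h12 : Teq N A e (blk 0 τ₁) (blk 0 τ₂)) (h13 : Teq N A e (blk 0 τ₁) (blk 0 τ₃))
    (d12 : Disjoint (range τ₁) (range τ₂)) (d13 : Disjoint (range τ₁) (range τ₃))
    (d23 : Disjoint (range τ₂) (range τ₃)) (p12 : Prec N A e τ₁ τ₂) (p23 : Prec N A e τ₂ τ₃) :
    Prec N A e τ₁ τ₃ := by
  by_contra hcon
  have hne := hτ₁.nonempty hH
  have hτ₂ : CA N A e τ₂ := hτ₁.congr hH h2 h12
  have hτ₃ : CA N A e τ₃ := hτ₁.congr hH h3 h13
  have p31 : Prec N A e τ₃ τ₁ := (c5' hW hH hA hτ₁ h3 h13 d13).resolve_left hcon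
  obtain ⟨Q, hQd⟩ : ∃ Q : Set ι → (κ → ι) → Prop, ∀ S σ, Q S σ ↔
      ∃ ρ ∈ LX N A e τ₁ (fun _ _ => True) S, ∃ ρ' ∈ LX N A e τ₁ (fun _ _ => True) S,
        Disjoint (range ρ) (range σ) ∧ Vis N A e τ₁ τ₁ (blk 0 σ) (blk 0 ρ) ∧
          Vis N A e τ₁ τ₁ (blk 0 ρ) (blk 0 ρ') ∧ Vis N A e τ₁ τ₁ (blk 0 ρ') (blk 0 σ) :=
    ⟨_, fun _ _ => Iff.rfl⟩
  have hzero : ∀ T : κ → ι, Injective T → Teq N A e (blk 0 τ₁) (blk 0 T) →
      cQ N A e τ₁ Q (range T) = 0 := by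
    intro T hT hTe
    unfold cQ
    rw [ncard_eq_zero (Set.toFinite _), Set.eq_empty_iff_forall_notMem]
    rintro σ ⟨h1, h2, h3, h4⟩
    obtain ⟨ρ, hρ, ρ', -, hdis, -⟩ := (hQd _ _).1 h4
    rw [c5_range hH hτ₁ hT hTe hρ, c5_range hH hτ₁ hT hTe ⟨h1, h2, h3, trivial⟩] at hdis
    obtain ⟨k0⟩ := hne
    exact Set.disjoint_left.1 hdis ⟨k0, rfl⟩ ⟨k0, rfl⟩
  refine mark hW hH hA hτ₁
    (fun D z => ∃ y ∈ XT N A e τ₁ D, ∃ y' ∈ XT N A e τ₁ D, Disjoint (range y) (range z) ∧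
      Vis N A e τ₁ τ₁ z y ∧ Vis N A e τ₁ τ₁ y y' ∧ Vis N A e τ₁ τ₁ y' z) Q ?_ ?_ 3
    (fun b => if b then [range τ₁ ∪ range τ₂ ∪ range τ₃, ∅, ∅] else
      [range τ₁, range τ₂, range τ₃]) ?_ ?_ ?_
  · rintro g D D' z hg hz ⟨y, hy, y', hy', hd1, hv1, hv2, hv3⟩
    refine ⟨fun k => g (y k), hg.xt hH τ₁ hy, fun k => g (y' k), hg.xt hH τ₁ hy',
      c5_disj_pres hg.1.injOn hz.2.1 hy.2.1 hd1, ?_, ?_, ?_⟩
    · rw [c5_vis_pres hH hg hz.2.1 hy.2.1]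
      exact hv1
    · rw [c5_vis_pres hH hg hy.2.1 hy'.2.1]
      exact hv2
    · rw [c5_vis_pres hH hg hy'.2.1 hz.2.1]
      exact hv3
  · intro B i σ hσ
    rw [hQd]
    have hle : ∀ (i j : ℕ) (σ ρ : κ → ι), Teq N A e (blk 0 σ) (blk 0 τ₁) →
        Teq N A e (blk 0 ρ) (blk 0 τ₁) → Vis N A e τ₁ τ₁ (blk i σ) (blk j ρ) → i ≤ j := by
      intro i j σ ρ hσ hρ hv
      rcases eq_or_ne i j with hij | hij
      · exact hij.le
      · exact ((vis_iff hH hτ₁.nperp hij hσ hρ).1 hv).le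
    constructor
    · rintro ⟨y, hy, y', hy', hd1, hv1, hv2, hv3⟩
      obtain ⟨j, ρ, hρ, rfl⟩ := (mem_XT_iff hH (hτ₁.inblk hH) B y).1 hy
      obtain ⟨j', ρ', hρ', rfl⟩ := (mem_XT_iff hH (hτ₁.inblk hH) B y').1 hy'
      have l1 := hle _ _ _ _ hσ.2.2.1 hρ.2.2.1 hv1
      have l2 := hle _ _ _ _ hρ.2.2.1 hρ'.2.2.1 hv2
      have l3 := hle _ _ _ _ hρ'.2.2.1 hσ.2.2.1 hv3
      have e1 : j = i := by omega
      have e2 : j' = i := by omega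
      subst e1
      subst e2
      exact ⟨ρ, hρ, ρ', hρ', (c5_disj_blk _).1 hd1, c5_vis_blk hH _ 0 σ ρ hv1,
        c5_vis_blk hH _ 0 ρ ρ' hv2, c5_vis_blk hH _ 0 ρ' σ hv3⟩
    · rintro ⟨ρ, hρ, ρ', hρ', hd1, hv1, hv2, hv3⟩
      exact ⟨blk i ρ, (mem_XT_iff hH (hτ₁.inblk hH) B _).2 ⟨i, ρ, hρ, rfl⟩,
        blk i ρ', (mem_XT_iff hH (hτ₁.inblk hH) B _).2 ⟨i, ρ', hρ', rfl⟩,
        (c5_disj_blk i).2 hd1, c5_vis_blk hH 0 i σ ρ hv1, c5_vis_blk hH 0 i ρ ρ' hv2,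
        c5_vis_blk hH 0 i ρ' σ hv3⟩
  · intro b
    cases b <;> rfl
  · have h4 := cX_split hW hH hA hτ₁ hτ₂ (range τ₁) d12
    have h5 := cX_split hW hH hA hτ₁ hτ₃ (range τ₁ ∪ range τ₂) (d13.union_left d23)
    have h6 := cX_empty hH hτ₁
    simp only [if_true, Bool.false_eq_true, if_false, List.map_cons, List.map_nil, List.sum_cons,
      List.sum_nil]
    omega
  · have h4 := hzero τ₁ hτ₁.inj (Teq.refl hH _)
    have h5 := hzero τ₂ h2 h12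
    have h6 := hzero τ₃ h3 h13
    have h7 : 0 < cQ N A e τ₁ Q (range τ₁ ∪ range τ₂ ∪ range τ₃) := by
      unfold cQ
      rw [ncard_pos (Set.toFinite _)]
      refine ⟨τ₁, hτ₁.inj, fun k => Or.inl (Or.inl ⟨k, rfl⟩), Teq.refl hH _, (hQd _ _).2
        ⟨τ₂, ⟨h2, fun k => Or.inl (Or.inr ⟨k, rfl⟩), h12.symm, trivial⟩,
          τ₃, ⟨h3, fun k => Or.inr ⟨k, rfl⟩, h13.symm, trivial⟩, d12.symm, ?_, ?_, ?_⟩⟩
      · rw [c5_vis_iff_prec hH (Teq.refl hH _) h12.symm]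
        exact p12
      · rw [c5_vis_iff_prec hH h12.symm h13.symm]
        exact p23
      · rw [c5_vis_iff_prec hH h13.symm (Teq.refl hH _)]
        exact p31
    simp only [if_true, Bool.false_eq_true, if_false, List.map_cons, List.map_nil, List.sum_cons,
      List.sum_nil]
    omega

/-- C6 -/
theorem c6 (hW : ¬ Wild N univ) (hH : Hom N A e) (hA : A.Finite) [Finite ι] [Finite κ]
    [Finite κ'] [Finite κ''] {τ₁ : κ → ι} {τ₂ : κ' → ι} {τ₃ : κ'' → ι} (hτ₁ : CA N A e τ₁)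
    (hτ₂ : CA N A e τ₂) (hτ₃ : CA N A e τ₃)
    (h12 : Sim N A e τ₁ τ₂) (h13 : Sim N A e τ₁ τ₃)
    (d12 : Disjoint (range τ₁) (range τ₂)) (d13 : Disjoint (range τ₁) (range τ₃))
    (d23 : Disjoint (range τ₂) (range τ₃)) (p12 : Prec N A e τ₁ τ₂) (p23 : Prec N A e τ₂ τ₃) :
    Prec N A e τ₁ τ₃ := by
  obtain ⟨σ, hσ⟩ := h12
  obtain ⟨σ', hσ'⟩ := h13
  have hr : range (fun k => τ₂ (σ k)) = range τ₂ := by
    ext x
    constructor
    · rintro ⟨k, rfl⟩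
      exact ⟨σ k, rfl⟩
    · rintro ⟨k, rfl⟩
      exact ⟨σ.symm k, by simp⟩
  have hr' : range (fun k => τ₃ (σ' k)) = range τ₃ := by
    ext x
    constructor
    · rintro ⟨k, rfl⟩
      exact ⟨σ' k, rfl⟩
    · rintro ⟨k, rfl⟩
      exact ⟨σ'.symm k, by simp⟩
  have h1 := c6' hW hH hA hτ₁ (τ₂ := fun k => τ₂ (σ k)) (τ₃ := fun k => τ₃ (σ' k))
    (hτ₂.inj.comp σ.injective) (hτ₃.inj.comp σ'.injective) hσ hσ' (by rw [hr]; exact d12)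
    (by rw [hr']; exact d13) (by rw [hr, hr']; exact d23)
    (c5_prec_map hH p12 (id : κ → κ) σ) (c5_prec_map hH p23 σ σ')
  have h2 := c5_prec_map hH h1 (id : κ → κ) σ'.symm
  have e1 : (fun k => (fun k => τ₃ (σ' k)) (σ'.symm k)) = τ₃ := by
    funext k
    simp
  rw [e1] at h2
  exact h2

end Pool.H17.TA
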