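import Pool.Agent.H17.TA.TlDefs

/-!
# TL 4 : the sets of data are closed
-/

set_option autoImplicit false

namespace Pool.H17.TA

open Pool.H22.VC Function Set

variable {r : ℕ} {K ι κ κ' : Type} {N : Col r K ℕ} {A : Set ℕ} {e : ℕ → ι → ℕ}

private theorem cl_val {X Y : Type} [TopologicalSpace X] [TopologicalSpace Y] [DiscreteTopology Y]
    (f : X → Y) (hf : Continuous f) (P : Y → X → Prop) (hP : ∀ v, IsClosed {x | P v x}) :
    IsClosed {x | P (f x) x} := by
  have h1 : {x | P (f x) x} = ⋂ v, {x | f x = v → P v x} := by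
    ext x
    simp
  rw [h1]
  exact isClosed_iInter fun v => isClosed_imp ((isOpen_discrete {v}).preimage hf) (hP v)

private theorem cl_disc {X Y : Type} [TopologicalSpace X] [TopologicalSpace Y]
    [DiscreteTopology Y] (f : X → Y) (hf : Continuous f) (P : Y → Prop) :
    IsClopen {x | P (f x)} := (isClopen_discrete {y | P y}).preimage hf

private theorem cl_all {X I : Type} [TopologicalSpace X] (P : I → X → Prop)
    (hP : ∀ i, IsClosed {x | P i x}) : IsClosed {x | ∀ i, P i x} := by
  have h1 : {x | ∀ i, P i x} = ⋂ i, {x | P i x} := by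
    ext x
    simp
  rw [h1]
  exact isClosed_iInter hP

/-- membership in the domain is a clopen condition -/
theorem dm_clopen (n : ℕ) (l : Bool → List (Set ι)) (p : ℕ × ι) :
    IsClopen {s : ℕ → Bool | p ∈ Dm (BS n l s)} := by
  have h1 : {s : ℕ → Bool | p ∈ Dm (BS n l s)} =
      {s : ℕ → Bool | (fun b => p ∈ Dm (BS n l (fun _ => b))) (s (p.1 / (n + 1)))} := by
    ext s
    show p.2 ∈ BS n l s p.1 ↔ p.2 ∈ BS n l (fun _ => s (p.1 / (n + 1))) p.1
    rw [BS_congr n l s (fun _ => s (p.1 / (n + 1))) p.1 rfl]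
  rw [h1]
  exact cl_disc (fun s : ℕ → Bool => s (p.1 / (n + 1))) (continuous_apply _)
    (fun b => p ∈ Dm (BS n l (fun _ => b)))

/-- For every pattern `(lt, R)` the set of the data `(s, s', (G, m))` is closed; here maps
`ℕ × ι → ℕ × ι` are coded by `ℕ → ℕ × ι` through a bijection `q`, and all countable sets are
discrete. -/
theorem tl_closed [Countable ι] [TopologicalSpace ι] [DiscreteTopology ι] (n : ℕ)
    (l : Bool → List (Set ι)) (lt : ι → ι) (R : ι → ι → Prop) :
    IsClosed {x : (ℕ → Bool) × (ℕ → Bool) × ((ℕ × ι → ℕ × ι) × (ℕ × ι → ℕ × ι) × (ℕ → ℕ)) |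
      NIso N A e (Dm (BS n l x.1)) (Dm (BS n l x.2.1)) x.2.2.1 ∧
        InvOn x.2.2.2.1 x.2.2.1 (Dm (BS n l x.1)) (Dm (BS n l x.2.1)) ∧
        MapsTo x.2.2.2.1 (Dm (BS n l x.2.1)) (Dm (BS n l x.1)) ∧
        PatAt n lt R x.2.2.2.2 x.2.2.1} := by
  set X : Type := (ℕ → Bool) × (ℕ → Bool) × ((ℕ × ι → ℕ × ι) × (ℕ × ι → ℕ × ι) × (ℕ → ℕ)) with hX
  have cG : ∀ p, Continuous (fun x : X => x.2.2.1 p) := fun p =>
    (continuous_apply p).comp (continuous_fst.comp (continuous_snd.comp continuous_snd))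
  have cG' : ∀ p, Continuous (fun x : X => x.2.2.2.1 p) := fun p =>
    (continuous_apply p).comp (continuous_fst.comp
      (continuous_snd.comp (continuous_snd.comp continuous_snd)))
  have cm : ∀ k, Continuous (fun x : X => x.2.2.2.2 k) := fun k =>
    (continuous_apply k).comp (continuous_snd.comp
      (continuous_snd.comp (continuous_snd.comp continuous_snd)))
  have cD : ∀ p, IsClopen {x : X | p ∈ Dm (BS n l x.1)} := fun p =>
    (dm_clopen n l p).preimage continuous_fst
  have cD' : ∀ p, IsClopen {x : X | p ∈ Dm (BS n l x.2.1)} := fun p =>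
    (dm_clopen n l p).preimage (continuous_fst.comp continuous_snd)
  -- the closed conditions
  have h1 : IsClosed {x : X | ∀ p, p ∈ Dm (BS n l x.1) → x.2.2.1 p ∈ Dm (BS n l x.2.1)} :=
    cl_all _ fun p => cl_val (fun x : X => x.2.2.1 p) (cG p)
      (fun v x => p ∈ Dm (BS n l x.1) → v ∈ Dm (BS n l x.2.1)) fun v =>
        isClosed_imp (cD p).isOpen (cD' v).isClosed
  have h2 : IsClosed {x : X | ∀ p, p ∈ Dm (BS n l x.2.1) → x.2.2.2.1 p ∈ Dm (BS n l x.1)} :=
    cl_all _ fun p => cl_val (fun x : X => x.2.2.2.1 p) (cG' p)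
      (fun v x => p ∈ Dm (BS n l x.2.1) → v ∈ Dm (BS n l x.1)) fun v =>
        isClosed_imp (cD' p).isOpen (cD v).isClosed
  have h3 : IsClosed {x : X | ∀ p, p ∈ Dm (BS n l x.1) → x.2.2.2.1 (x.2.2.1 p) = p} :=
    cl_all _ fun p => cl_val (fun x : X => x.2.2.1 p) (cG p)
      (fun v x => p ∈ Dm (BS n l x.1) → x.2.2.2.1 v = p) fun v =>
        isClosed_imp (cD p).isOpen (cl_disc (fun x : X => x.2.2.2.1 v) (cG' v) (· = p)).isClosed
  have h4 : IsClosed {x : X | ∀ p, p ∈ Dm (BS n l x.2.1) → x.2.2.1 (x.2.2.2.1 p) = p} :=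
    cl_all _ fun p => cl_val (fun x : X => x.2.2.2.1 p) (cG' p)
      (fun v x => p ∈ Dm (BS n l x.2.1) → x.2.2.1 v = p) fun v =>
        isClosed_imp (cD' p).isOpen (cl_disc (fun x : X => x.2.2.1 v) (cG v) (· = p)).isClosed
  have h5 : IsClosed {x : X | ∀ t : Fin r → ℕ ⊕ ((Fin r × ι) ⊕ (ℕ × ι)),
      (∀ j a, t j = Sum.inl a → a ∈ A) →
      (∀ j p, t j = Sum.inr (Sum.inr p) → p ∈ Dm (BS n l x.1)) →
      N (fun j => Sum.elim id (Sum.elim (fun p => e p.1 p.2) (fun p => el r e (x.2.2.1 p))) (t j)) =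
        N (fun j => Sum.elim id (Sum.elim (fun p => e p.1 p.2) (fun p => el r e p)) (t j))} := by
    refine cl_all _ fun t => ?_
    by_cases hA : ∀ j a, t j = Sum.inl a → a ∈ A
    · have hopen : IsOpen {x : X | ∀ j p, t j = Sum.inr (Sum.inr p) → p ∈ Dm (BS n l x.1)} := by
        have : {x : X | ∀ j p, t j = Sum.inr (Sum.inr p) → p ∈ Dm (BS n l x.1)} =
            ⋂ j, {x : X | ∀ p, t j = Sum.inr (Sum.inr p) → p ∈ Dm (BS n l x.1)} := by
          ext x
          simp
        rw [this]
        refine isOpen_iInter_of_finite fun j => ?_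
        rcases htj : t j with a | p | p
        · have : {x : X | ∀ p', (Sum.inl a : ℕ ⊕ ((Fin r × ι) ⊕ (ℕ × ι))) =
              Sum.inr (Sum.inr p') → p' ∈ Dm (BS n l x.1)} = univ := by
            ext x
            simp
          rw [this]
          exact isOpen_univ
        · have : {x : X | ∀ p', (Sum.inr (Sum.inl p) : ℕ ⊕ ((Fin r × ι) ⊕ (ℕ × ι))) =
              Sum.inr (Sum.inr p') → p' ∈ Dm (BS n l x.1)} = univ := by
            ext x
            simp
          rw [this]
          exact isOpen_univ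
        · have : {x : X | ∀ p', (Sum.inr (Sum.inr p) : ℕ ⊕ ((Fin r × ι) ⊕ (ℕ × ι))) =
              Sum.inr (Sum.inr p') → p' ∈ Dm (BS n l x.1)} = {x : X | p ∈ Dm (BS n l x.1)} := by
            ext x
            constructor
            · intro h
              exact h p rfl
            · intro h p' hp
              have : p = p' := Sum.inr.inj (Sum.inr.inj hp)
              rw [← this]
              exact h
          rw [this]
          exact (cD p).isOpen
      have hval : IsClosed {x : X | N (fun j => Sum.elim id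
          (Sum.elim (fun p : Fin r × ι => e p.1 p.2) (fun p => el r e (x.2.2.1 p))) (t j)) =
          N (fun j => Sum.elim id (Sum.elim (fun p : Fin r × ι => e p.1 p.2)
            (fun p => el r e p)) (t j))} := by
        have hc : Continuous (fun x : X => fun j => Sum.elim id
            (Sum.elim (fun p : Fin r × ι => e p.1 p.2) (fun p => el r e (x.2.2.1 p))) (t j)) := by
          refine continuous_pi fun j => ?_
          rcases t j with a | p | p
          · exact continuous_const
          · exact continuous_const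
          · exact (continuous_of_discreteTopology (f := fun q : ℕ × ι => el r e q)).comp (cG p)
        exact (cl_disc _ hc (fun v => N v = N (fun j => Sum.elim id
          (Sum.elim (fun p : Fin r × ι => e p.1 p.2) (fun p => el r e p)) (t j)))).isClosed
      have : {x : X | (∀ j a, t j = Sum.inl a → a ∈ A) →
          (∀ j p, t j = Sum.inr (Sum.inr p) → p ∈ Dm (BS n l x.1)) →
          N (fun j => Sum.elim id (Sum.elim (fun p => e p.1 p.2)
            (fun p => el r e (x.2.2.1 p))) (t j)) =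
          N (fun j => Sum.elim id (Sum.elim (fun p => e p.1 p.2) (fun p => el r e p)) (t j))} =
          {x : X | (∀ j p, t j = Sum.inr (Sum.inr p) → p ∈ Dm (BS n l x.1)) →
          N (fun j => Sum.elim id (Sum.elim (fun p => e p.1 p.2)
            (fun p => el r e (x.2.2.1 p))) (t j)) =
          N (fun j => Sum.elim id (Sum.elim (fun p => e p.1 p.2)
            (fun p => el r e p)) (t j))} := by
        ext x
        exact ⟨fun h => h hA, fun h _ => h⟩
      rw [this]
      exact isClosed_imp hopen hval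
    · have : {x : X | (∀ j a, t j = Sum.inl a → a ∈ A) →
          (∀ j p, t j = Sum.inr (Sum.inr p) → p ∈ Dm (BS n l x.1)) →
          N (fun j => Sum.elim id (Sum.elim (fun p => e p.1 p.2)
            (fun p => el r e (x.2.2.1 p))) (t j)) =
          N (fun j => Sum.elim id (Sum.elim (fun p => e p.1 p.2)
            (fun p => el r e p)) (t j))} = univ := by
        ext x
        simp only [mem_setOf_eq, mem_univ, iff_true]
        exact fun h => absurd h hA
      rw [this]
      exact isClosed_univ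
  have h6 : IsClosed {x : X | ∀ i j, i < j → x.2.2.2.2 i < x.2.2.2.2 j} := by
    refine cl_all _ fun i => cl_all _ fun j => ?_
    by_cases hij : i < j
    · have : {x : X | i < j → x.2.2.2.2 i < x.2.2.2.2 j} =
          {x : X | x.2.2.2.2 i < x.2.2.2.2 j} := by
        ext x
        exact ⟨fun h => h hij, fun h _ => h⟩
      rw [this]
      exact cl_val (fun x : X => x.2.2.2.2 i) (cm i) (fun v x => v < x.2.2.2.2 j) fun v =>
        (cl_disc (fun x : X => x.2.2.2.2 j) (cm j) (v < ·)).isClosed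
    · have : {x : X | i < j → x.2.2.2.2 i < x.2.2.2.2 j} = univ := by
        ext x
        simp only [mem_setOf_eq, mem_univ, iff_true]
        exact fun h => absurd h hij
      rw [this]
      exact isClosed_univ
  have h7 : IsClosed {x : X | ∀ k c, (x.2.2.1 ((n + 1) * x.2.2.2.2 k + n, c)).2 = lt c} :=
    cl_all _ fun k => cl_all _ fun c => cl_val (fun x : X => x.2.2.2.2 k) (cm k)
      (fun v x => (x.2.2.1 ((n + 1) * v + n, c)).2 = lt c) fun v =>
        (cl_disc _ (cG ((n + 1) * v + n, c)) (fun q => q.2 = lt c)).isClosed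
  have h8 : IsClosed {x : X | ∀ k c c', (x.2.2.1 ((n + 1) * x.2.2.2.2 k + n, c)).1 <
      (x.2.2.1 ((n + 1) * x.2.2.2.2 k + n, c')).1 ↔ R c c'} :=
    cl_all _ fun k => cl_all _ fun c => cl_all _ fun c' =>
      cl_val (fun x : X => x.2.2.2.2 k) (cm k)
      (fun v x => (x.2.2.1 ((n + 1) * v + n, c)).1 < (x.2.2.1 ((n + 1) * v + n, c')).1 ↔
        R c c') fun v => cl_val _ (cG ((n + 1) * v + n, c))
          (fun q x => q.1 < (x.2.2.1 ((n + 1) * v + n, c')).1 ↔ R c c') fun q =>
          (cl_disc _ (cG ((n + 1) * v + n, c')) (fun q' => q.1 < q'.1 ↔ R c c')).isClosed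
  have h9 : IsClosed {x : X | ∀ k k' c c', k < k' →
      (x.2.2.1 ((n + 1) * x.2.2.2.2 k + n, c)).1 <
        (x.2.2.1 ((n + 1) * x.2.2.2.2 k' + n, c')).1} := by
    refine cl_all _ fun k => cl_all _ fun k' => cl_all _ fun c => cl_all _ fun c' => ?_
    by_cases hij : k < k'
    · have : {x : X | k < k' → (x.2.2.1 ((n + 1) * x.2.2.2.2 k + n, c)).1 <
          (x.2.2.1 ((n + 1) * x.2.2.2.2 k' + n, c')).1} =
          {x : X | (x.2.2.1 ((n + 1) * x.2.2.2.2 k + n, c)).1 <
          (x.2.2.1 ((n + 1) * x.2.2.2.2 k' + n, c')).1} := by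
        ext x
        exact ⟨fun h => h hij, fun h _ => h⟩
      rw [this]
      exact cl_val (fun x : X => x.2.2.2.2 k) (cm k)
        (fun v x => (x.2.2.1 ((n + 1) * v + n, c)).1 <
          (x.2.2.1 ((n + 1) * x.2.2.2.2 k' + n, c')).1) fun v =>
        cl_val (fun x : X => x.2.2.2.2 k') (cm k')
        (fun v' x => (x.2.2.1 ((n + 1) * v + n, c)).1 <
          (x.2.2.1 ((n + 1) * v' + n, c')).1) fun v' =>
        cl_val _ (cG ((n + 1) * v + n, c))
          (fun q x => q.1 < (x.2.2.1 ((n + 1) * v' + n, c')).1) fun q =>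
          (cl_disc _ (cG ((n + 1) * v' + n, c')) (fun q' => q.1 < q'.1)).isClosed
    · have : {x : X | k < k' → (x.2.2.1 ((n + 1) * x.2.2.2.2 k + n, c)).1 <
          (x.2.2.1 ((n + 1) * x.2.2.2.2 k' + n, c')).1} = univ := by
        ext x
        simp only [mem_setOf_eq, mem_univ, iff_true]
        exact fun h => absurd h hij
      rw [this]
      exact isClosed_univ
  have hall := h1.inter (h2.inter (h3.inter (h4.inter (h5.inter (h6.inter (h7.inter
    (h8.inter h9)))))))
  convert hall using 1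
  ext x
  constructor
  · rintro ⟨⟨hb, ht⟩, hinv, hmaps, hp⟩
    exact ⟨fun p hp => hb.mapsTo hp, fun p hp => hmaps hp, fun p hp => hinv.1 hp,
      fun p hp => hinv.2 hp, ht, fun i j hij => hp.1 hij, hp.2.1, hp.2.2.1, hp.2.2.2⟩
  · rintro ⟨g1, g2, g3, g4, g5, g6, g7, g8, g9⟩
    refine ⟨⟨⟨fun p hp => g1 p hp, ?_, ?_⟩, g5⟩, ⟨fun p hp => g3 p hp, fun p hp => g4 p hp⟩,
      fun p hp => g2 p hp, fun i j hij => g6 i j hij, g7, g8, g9⟩
    · intro p hp p' hp' hpp
      rw [← g3 p hp, ← g3 p' hp', hpp]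
    · intro p hp
      exact ⟨_, g2 p hp, g4 p hp⟩

end Pool.H17.TA
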