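import Pool.Agent.H17.TA.TlDefs

/-!
# TL 3 : isomorphisms of substructures
-/

set_option autoImplicit false

namespace Pool.H17.TA

open Pool.H22.VC Function Set

variable {r : ℕ} {K ι κ κ' : Type} {N : Col r K ℕ} {A : Set ℕ} {e : ℕ → ι → ℕ}

/-- the substructure with the domain `D` -/
def Om (r : ℕ) (A : Set ℕ) (e : ℕ → ι → ℕ) (D : Set (ℕ × ι)) : Set ℕ :=
  A ∪ {x | ∃ i c, i < r ∧ x = e i c} ∪ {x | ∃ p ∈ D, x = el r e p}

/-- an isomorphism over `A` and the first `r` blocks gives a map `G` (`Hom.inj`, `Hom.notA`) -/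
theorem nIso_of_iso (hH : Hom N A e) (D D' : Set (ℕ × ι)) (A' : Finset ℕ)
    (hA' : (A' : Set ℕ) = A ∪ {x | ∃ i c, i < r ∧ x = e i c})
    (h : IsoOn N A' (Om r A e D) (Om r A e D')) : ∃ G, NIso N A e D D' G := by
  classical
  obtain ⟨g, hg1, hg2⟩ := h
  have hel : ∀ p : ℕ × ι, el r e p ∉ A' := by
    intro p hp
    have hp' : el r e p ∈ (A' : Set ℕ) := hp
    rw [hA'] at hp'
    rcases hp' with hp' | ⟨i, c, hi, hp'⟩
    · exact hH.notA _ _ hp'
    · have := (hH.inj _ _ _ _ hp').1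
      omega
  have helinj : ∀ p p' : ℕ × ι, el r e p = el r e p' → p = p' := by
    intro p p' hpp
    have := hH.inj _ _ _ _ hpp
    refine Prod.ext ?_ this.2
    omega
  have hmemA : ∀ (E : Set (ℕ × ι)) (x : ℕ), x ∈ A' → x ∈ Om r A e E := by
    intro E x hx
    have hx' : x ∈ (A' : Set ℕ) := hx
    rw [hA'] at hx'
    exact Or.inl hx'
  have hfixsymm : ∀ (x : ℕ) (hx : x ∈ A'), ((g.symm ⟨x, hmemA D' x hx⟩ : Om r A e D) : ℕ) = x := by
    intro x hx
    have h1 := hg1 ⟨x, hmemA D x hx⟩ hx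
    have h2 : g ⟨x, hmemA D x hx⟩ = ⟨x, hmemA D' x hx⟩ := Subtype.ext h1
    rw [← h2]
    simp
  -- image of an element of the domain
  have himg : ∀ p ∈ D, ∃ p' ∈ D', ∀ hx : el r e p ∈ Om r A e D,
      (g ⟨el r e p, hx⟩ : ℕ) = el r e p' := by
    intro p hp
    have hx : el r e p ∈ Om r A e D := Or.inr ⟨p, hp, rfl⟩
    have h1 := (g ⟨el r e p, hx⟩).2
    by_cases h2 : (g ⟨el r e p, hx⟩ : ℕ) ∈ A'
    · exfalso
      have h3 := hfixsymm _ h2
      have h4 : (⟨(g ⟨el r e p, hx⟩ : ℕ), hmemA D' _ h2⟩ : Om r A e D') = g ⟨el r e p, hx⟩ :=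
        Subtype.ext rfl
      rw [h4] at h3
      simp only [Equiv.symm_apply_apply] at h3
      exact hel p (by rw [h3]; exact h2)
    · rcases h1 with h1 | ⟨p', hp', h1⟩
      · exfalso
        apply h2
        have : (g ⟨el r e p, hx⟩ : ℕ) ∈ (A' : Set ℕ) := by
          rw [hA']
          exact h1
        exact this
      · exact ⟨p', hp', fun _ => h1⟩
  have himg' : ∀ p' ∈ D', ∃ p ∈ D, ∀ hx : el r e p ∈ Om r A e D,
      (g ⟨el r e p, hx⟩ : ℕ) = el r e p' := by
    intro p' hp'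
    have hx' : el r e p' ∈ Om r A e D' := Or.inr ⟨p', hp', rfl⟩
    have h1 := (g.symm ⟨el r e p', hx'⟩).2
    by_cases h2 : (g.symm ⟨el r e p', hx'⟩ : ℕ) ∈ A'
    · exfalso
      have h3 := hg1 (g.symm ⟨el r e p', hx'⟩) h2
      simp only [Equiv.apply_symm_apply] at h3
      exact hel p' (by rw [h3]; exact h2)
    · rcases h1 with h1 | ⟨p, hp, h1⟩
      · exfalso
        apply h2
        have : (g.symm ⟨el r e p', hx'⟩ : ℕ) ∈ (A' : Set ℕ) := by
          rw [hA']
          exact h1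
        exact this
      · refine ⟨p, hp, fun hx => ?_⟩
        have h4 : (⟨el r e p, hx⟩ : Om r A e D) = g.symm ⟨el r e p', hx'⟩ :=
          Subtype.ext h1.symm
        rw [h4]
        simp
  let G : ℕ × ι → ℕ × ι := fun p => if hp : p ∈ D then (himg p hp).choose else p
  have hG : ∀ p (hp : p ∈ D), G p ∈ D' ∧ ∀ hx : el r e p ∈ Om r A e D,
      (g ⟨el r e p, hx⟩ : ℕ) = el r e (G p) := by
    intro p hp
    simp only [G, dif_pos hp]
    exact (himg p hp).choose_spec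
  have hOm : ∀ p ∈ D, el r e p ∈ Om r A e D := fun p hp => Or.inr ⟨p, hp, rfl⟩
  refine ⟨G, ⟨fun p hp => (hG p hp).1, ?_, ?_⟩, ?_⟩
  · intro p hp p' hp' hpp
    have h1 := (hG p hp).2 (hOm p hp)
    have h2 := (hG p' hp').2 (hOm p' hp')
    rw [hpp, ← h2] at h1
    have h3 := g.injective (Subtype.ext h1)
    exact helinj p p' (congrArg Subtype.val h3)
  · intro p' hp'
    obtain ⟨p, hp, h1⟩ := himg' p' hp'
    refine ⟨p, hp, ?_⟩
    have h2 := (hG p hp).2 (hOm p hp)
    rw [h1 (hOm p hp)] at h2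
    exact (helinj _ _ h2).symm
  · intro t htA htD
    -- the tuple of elements
    have hfront : ∀ (p : Fin r × ι), e p.1 p.2 ∈ A' := by
      intro p
      have : e p.1 p.2 ∈ (A' : Set ℕ) := by
        rw [hA']
        exact Or.inr ⟨p.1, p.2, p.1.2, rfl⟩
      exact this
    have hAA : ∀ a ∈ A, a ∈ A' := by
      intro a ha
      have : a ∈ (A' : Set ℕ) := by
        rw [hA']
        exact Or.inl ha
      exact this
    have hmem : ∀ j, Sum.elim id (Sum.elim (fun p : Fin r × ι => e p.1 p.2)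
        (fun p => el r e p)) (t j) ∈ Om r A e D := by
      intro j
      rcases htj : t j with a | p | p
      · exact hmemA D a (hAA a (htA j a htj))
      · exact hmemA D _ (hfront p)
      · exact hOm p (htD j p htj)
    have h1 := hg2 (fun j => ⟨_, hmem j⟩)
    refine Eq.trans ?_ h1
    congr 1
    funext j
    have h2 : ∀ (x : ℕ) (hx : x ∈ Om r A e D) (hx' : x ∈ A'), (g ⟨x, hx⟩ : ℕ) = x :=
      fun x hx hx' => hg1 ⟨x, hx⟩ hx'
    have key : ∀ (u : ℕ ⊕ ((Fin r × ι) ⊕ (ℕ × ι))), (∀ a, u = Sum.inl a → a ∈ A) →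
        (∀ p, u = Sum.inr (Sum.inr p) → p ∈ D) →
        ∀ h3 : Sum.elim id (Sum.elim (fun p : Fin r × ι => e p.1 p.2)
          (fun p => el r e p)) u ∈ Om r A e D,
        Sum.elim id (Sum.elim (fun p : Fin r × ι => e p.1 p.2) (fun p => el r e (G p))) u =
          (g ⟨_, h3⟩ : ℕ) := by
      rintro (a | p | p) ha hp h3
      · exact (h2 a h3 (hAA a (ha a rfl))).symm
      · exact (h2 _ h3 (hfront p)).symm
      · exact ((hG p (hp p rfl)).2 h3).symm
    exact key (t j) (fun a h => htA j a h) (fun p h => htD j p h) (hmem j)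

end Pool.H17.TA
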