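import Pool.Agent.H17.TA.TlDefs

/-!
# TL 2 : two isomorphisms with the same pattern at infinity
-/

set_option autoImplicit false

namespace Pool.H17.TA

open Pool.H22.VC Function Set

variable {r : ℕ} {K ι κ κ' : Type} {N : Col r K ℕ} {A : Set ℕ} {e : ℕ → ι → ℕ}

/-- The colour of a context for `z` (in the sense of `Teq`) is the colour of a context in which the
blocks in front are among the first `r` blocks of `e` and the blocks behind are full blocks of the
sequence `m`, beyond the `k₀`-th one. PROOF. At most `r` blocks are used in front, and at most `r`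
behind; choose `u : ℕ → ℕ` (order preserving on the used front numbers, values `< r`) and
`v : ℕ → ℕ` strictly monotone (e.g. `v i = k₀ + i`): then `Hom.pat`. -/
theorem ctx_norm (hH : Hom N A e) [Finite κ] (n : ℕ) (m : ℕ → ℕ) (hm : StrictMono m)
    (z : κ → ℕ × ι) (f b : ℕ) (hf : f ≤ b) (hz : ∀ k, f + (z k).1 < b)
    (t : Fin r → ℕ ⊕ ((ℕ × ι) ⊕ (κ ⊕ (ℕ × ι)))) (ht : Adm A f t) (u : ℕ → Fin r)
    (hu : ∀ j j' p p', t j = Sum.inr (Sum.inl p) → t j' = Sum.inr (Sum.inl p') →
      (p.1 < p'.1 ↔ u p.1 < u p'.1))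
    (k₀ : ℕ) (hk : ∀ k, (z k).1 < (n + 1) * m k₀ + n) :
    N (fun j => pl e f b z (t j)) =
      N (fun j => Sum.elim id (Sum.elim (fun p => e (u p.1 : ℕ) p.2)
        (Sum.elim (fun k => el r e (z k))
          (fun p => el r e ((n + 1) * m (k₀ + p.1) + n, p.2)))) (t j)) := by
  classical
  have hm1 : ∀ x y : ℕ, (n + 1) * m x < (n + 1) * m y ↔ x < y := fun x y => by
    rw [Nat.mul_lt_mul_left (Nat.succ_pos n)]
    exact hm.lt_iff_lt
  have hm2 : ∀ x : ℕ, (n + 1) * m k₀ ≤ (n + 1) * m (k₀ + x) := fun x =>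
    Nat.mul_le_mul_left _ (hm.monotone (Nat.le_add_right _ _))
  let T : Fin r → ℕ ⊕ (ℕ × ι) := fun j => Sum.elim Sum.inl (Sum.elim Sum.inr
    (Sum.elim (fun k => Sum.inr (f + (z k).1, (z k).2))
      (fun p => Sum.inr (b + p.1, p.2)))) (t j)
  let T' : Fin r → ℕ ⊕ (ℕ × ι) := fun j => Sum.elim Sum.inl
    (Sum.elim (fun p => Sum.inr ((u p.1 : ℕ), p.2))
    (Sum.elim (fun k => Sum.inr (r + (z k).1, (z k).2))
      (fun p => Sum.inr (r + ((n + 1) * m (k₀ + p.1) + n), p.2)))) (t j)
  have e1 : (fun j => pl e f b z (t j)) = fun j => ev e (T j) := by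
    funext j
    simp only [T]
    rcases t j with a | p | k | p <;> rfl
  have e2 : (fun j => Sum.elim id (Sum.elim (fun p => e (u p.1 : ℕ) p.2)
        (Sum.elim (fun k => el r e (z k))
          (fun p => el r e ((n + 1) * m (k₀ + p.1) + n, p.2)))) (t j)) = fun j => ev e (T' j) := by
    funext j
    simp only [T']
    rcases t j with a | p | k | p <;> rfl
  rw [e1, e2]
  refine hH.pat T T' ?_ ?_ ?_
  · intro j a hj
    rcases htj : t j with a' | p | k | p <;> simp only [T, htj, Sum.elim_inl, Sum.elim_inr] at hj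
    · have : a' = a := Sum.inl.inj hj
      refine ⟨this ▸ ht.1 j a' htj, ?_⟩
      simp only [T', htj, Sum.elim_inl]
      rw [this]
    all_goals simp at hj
  · intro j i c hj
    rcases htj : t j with a' | p | k | p <;> simp only [T, htj, Sum.elim_inl, Sum.elim_inr] at hj
    · simp at hj
    · have h1 := Sum.inr.inj hj
      exact ⟨u p.1, by simp only [T', htj, Sum.elim_inl, Sum.elim_inr]; rw [h1]⟩
    · have h1 := Prod.mk.inj (Sum.inr.inj hj)
      exact ⟨r + (z k).1, by simp only [T', htj, Sum.elim_inr, Sum.elim_inl]; rw [h1.2]⟩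
    · have h1 := Prod.mk.inj (Sum.inr.inj hj)
      exact ⟨r + ((n + 1) * m (k₀ + p.1) + n), by
        simp only [T', htj, Sum.elim_inr]; rw [h1.2]⟩
  · intro j j' i c i' c' k d k' d' h1 h2 h3 h4
    rcases htj : t j with a₁ | p₁ | k₁ | p₁ <;>
      rcases htj' : t j' with a₂ | p₂ | k₂ | p₂ <;>
      simp only [T, T', htj, htj', Sum.elim_inl, Sum.elim_inr, Sum.inr.injEq, Prod.mk.injEq,
        reduceCtorEq] at h1 h2 h3 h4
    · -- front, front
      have h5 := hu j j' p₁ p₂ htj htj'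
      rw [h1, h2] at h5
      rw [← h3.1, ← h4.1, h1, h2]
      exact h5
    · have h5 := ht.2 j p₁ htj
      rw [h1] at h5
      simp only at h5
      have h6 := (u p₁.1).2
      omega
    · have h5 := ht.2 j p₁ htj
      rw [h1] at h5
      simp only at h5
      have h6 := (u p₁.1).2
      omega
    · have h5 := ht.2 j' p₂ htj'
      rw [h2] at h5
      simp only at h5
      have h6 := (u p₂.1).2
      omega
    · omega
    · have h5 := hz k₁
      have h6 := hk k₁
      have h7 := hm2 p₂.1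
      omega
    · have h5 := ht.2 j' p₂ htj'
      rw [h2] at h5
      simp only at h5
      have h6 := (u p₂.1).2
      omega
    · have h5 := hz k₂
      have h6 := hk k₂
      have h7 := hm2 p₁.1
      omega
    · have h5 := hm1 (k₀ + p₁.1) (k₀ + p₂.1)
      omega

private theorem rk_lt' (F : Finset ℕ) {p p' : ℕ} (hp : p ∈ F) (h : p < p') :
    (F.filter (· < p)).card < (F.filter (· < p')).card := by
  apply Finset.card_lt_card
  rw [Finset.ssubset_iff_of_subset]
  · exact ⟨p, Finset.mem_filter.2 ⟨hp, h⟩, by simp⟩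
  · intro q hq
    rw [Finset.mem_filter] at hq ⊢
    exact ⟨hq.1, hq.2.trans h⟩

private theorem rk_card' (F : Finset ℕ) {p : ℕ} (hp : p ∈ F) :
    (F.filter (· < p)).card < F.card := by
  apply Finset.card_lt_card
  rw [Finset.ssubset_iff_of_subset (Finset.filter_subset _ _)]
  exact ⟨p, hp, by simp⟩

/-- The map `u` of `ctx_norm` exists (there are at most `r` used numbers). If `r = 0` everything is
trivial: `[NeZero r]` is assumed. -/
theorem exists_front [NeZero r] (t : Fin r → ℕ ⊕ ((ℕ × ι) ⊕ (κ ⊕ (ℕ × ι)))) :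
    ∃ u : ℕ → Fin r, ∀ j j' p p', t j = Sum.inr (Sum.inl p) → t j' = Sum.inr (Sum.inl p') →
      (p.1 < p'.1 ↔ u p.1 < u p'.1) := by
  classical
  let P : Finset ℕ := Finset.univ.biUnion (fun j => Sum.elim (fun _ => (∅ : Finset ℕ))
    (Sum.elim (fun p => {p.1}) (fun _ => ∅)) (t j))
  have hP : ∀ j p, t j = Sum.inr (Sum.inl p) → p.1 ∈ P := by
    intro j p hj
    simp only [P, Finset.mem_biUnion, Finset.mem_univ, true_and]
    exact ⟨j, by rw [hj]; simp⟩
  have hcard : P.card ≤ r := by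
    refine Finset.card_biUnion_le.trans ?_
    calc _ ≤ ∑ _j : Fin r, 1 := by
          refine Finset.sum_le_sum (fun j _ => ?_)
          rcases t j with a | p | p <;> simp
      _ = r := by simp
  refine ⟨fun p => if h : (P.filter (· < p)).card < r then ⟨_, h⟩ else 0, ?_⟩
  intro j j' p p' hj hj'
  have h1 := (rk_card' P (hP j p hj)).trans_le hcard
  have h2 := (rk_card' P (hP j' p' hj')).trans_le hcard
  simp only [dif_pos h1, dif_pos h2, Fin.mk_lt_mk]
  constructor
  · intro h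
    exact rk_lt' P (hP j p hj) h
  · intro h
    by_contra hc
    rcases eq_or_lt_of_le (not_lt.1 hc) with h3 | h3
    · rw [h3] at h
      exact lt_irrefl _ h
    · exact lt_irrefl _ (h.trans (rk_lt' P (hP j' p' hj') h3))

/-- TL, key lemma. `G₁ : D₁ → D'` and `G₂ : D₂ → D'` isomorphisms over `A` and the first `r` blocks,
with the same pattern at infinity. Then `G₂⁻¹ ∘ G₁` preserves all types. PROOF. Let
`z : Fin q → D₁` and let `w` be its image in `D₂`, `G₂ w = G₁ z =: y`. Let `t` be an admissible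
context. By `ctx_norm` its colour for `z` is the colour of a context with front blocks among the
first `r` blocks and with the full blocks `(n + 1) m₁ (k₀ + i) + n` behind, `k₀` large; `G₁`
preserves this colour (`NIso`); the images of the full blocks are `G₁ (…)`, of the pattern
`(lt, R)`, behind `y`. The same for `w`, `m₂`, `G₂`. The two tuples in the blocks of `D'` have the
same letters and the same order pattern: `Hom.pat`. -/
theorem tl_key (hH : Hom N A e) [Finite ι] (n : ℕ) (D₁ D₂ D' : Set (ℕ × ι))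
    (h1 : ∀ k c, ((n + 1) * k + n, c) ∈ D₁) (h2 : ∀ k c, ((n + 1) * k + n, c) ∈ D₂)
    (G₁ G₂ : ℕ × ι → ℕ × ι) (hG₁ : NIso N A e D₁ D' G₁) (hG₂ : NIso N A e D₂ D' G₂)
    (lt : ι → ι) (R : ι → ι → Prop) (m₁ m₂ : ℕ → ℕ) (hp₁ : PatAt n lt R m₁ G₁)
    (hp₂ : PatAt n lt R m₂ G₂) :
    ∃ g : ℕ × ι → ℕ × ι, Pres N A e g D₁ D₂ := by
  classical
  rcases isEmpty_or_nonempty (ℕ × ι) with he | hne
  · refine ⟨id, ⟨?_, ?_⟩⟩
    · have : D₁ = D₂ := by
        ext p
        exact (he.false p).elim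
      rw [this]
      exact bijOn_id _
    · intro q z _ _
      exact Teq.refl hH z
  have hinv : InvOn (invFunOn G₂ D₂) G₂ D₂ D' := hG₂.1.invOn_invFunOn
  have hbij : BijOn (invFunOn G₂ D₂) D' D₂ := hG₂.1.symm hinv.symm
  let g : ℕ × ι → ℕ × ι := fun p => invFunOn G₂ D₂ (G₁ p)
  have hg : BijOn g D₁ D₂ := hbij.comp hG₁.1
  have hgG : ∀ p ∈ D₁, G₂ (g p) = G₁ p := fun p hp => hinv.2 (hG₁.1.mapsTo hp)
  refine ⟨g, hg, ?_⟩
  intro q z _ hzD
  intro f b b' hfb hfb' hzb hwb t ht
  rcases Nat.eq_zero_or_pos r with hr | hr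
  · subst hr
    congr 1
    funext j
    exact j.elim0
  have : NeZero r := ⟨hr.ne'⟩
  obtain ⟨u, hu⟩ := exists_front t
  -- the images of the full blocks go to infinity
  have hinf : ∀ (G : ℕ × ι → ℕ × ι) (m : ℕ → ℕ), PatAt n lt R m G → ∀ k c,
      k ≤ (G ((n + 1) * m k + n, c)).1 := by
    intro G m hp k c
    have : StrictMono (fun k => (G ((n + 1) * m k + n, c)).1) := fun k k' hkk =>
      hp.2.2.2 k k' c c hkk
    exact this.le_apply
  let k₀ : ℕ := (Finset.univ.sup (fun k => (z k).1)) + (Finset.univ.sup (fun k => (g (z k)).1)) +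
    (Finset.univ.sup (fun k => (G₁ (z k)).1)) + 1
  have hk₀1 : ∀ k, (z k).1 < k₀ := by
    intro k
    have := Finset.le_sup (f := fun k => (z k).1) (Finset.mem_univ k)
    simp only [k₀]
    omega
  have hk₀2 : ∀ k, (g (z k)).1 < k₀ := by
    intro k
    have := Finset.le_sup (f := fun k => (g (z k)).1) (Finset.mem_univ k)
    simp only [k₀]
    omega
  have hk₀3 : ∀ k, (G₁ (z k)).1 < k₀ := by
    intro k
    have := Finset.le_sup (f := fun k => (G₁ (z k)).1) (Finset.mem_univ k)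
    simp only [k₀]
    omega
  have hmk : ∀ (m : ℕ → ℕ), StrictMono m → k₀ ≤ (n + 1) * m k₀ + n := by
    intro m hm
    have h3 : k₀ ≤ m k₀ := hm.le_apply
    have h4 : m k₀ ≤ (n + 1) * m k₀ := Nat.le_mul_of_pos_left _ (Nat.succ_pos n)
    omega
  rw [ctx_norm hH n m₁ hp₁.1 z f b hfb hzb t ht u hu k₀
      (fun k => (hk₀1 k).trans_le (hmk m₁ hp₁.1)),
    ctx_norm hH n m₂ hp₂.1 (fun k => g (z k)) f b' hfb' hwb t ht u hu k₀
      (fun k => (hk₀2 k).trans_le (hmk m₂ hp₂.1))]
  -- transport by the isomorphisms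
  have tr : ∀ (D : Set (ℕ × ι)) (G : ℕ × ι → ℕ × ι) (m : ℕ → ℕ) (y : Fin q → ℕ × ι),
      NIso N A e D D' G → (∀ k c, ((n + 1) * k + n, c) ∈ D) → (∀ k, y k ∈ D) →
      N (fun j => Sum.elim id (Sum.elim (fun p => e (u p.1 : ℕ) p.2)
        (Sum.elim (fun k => el r e (y k))
          (fun p => el r e ((n + 1) * m (k₀ + p.1) + n, p.2)))) (t j)) =
      N (fun j => ev e (Sum.elim Sum.inl (Sum.elim (fun p => Sum.inr ((u p.1 : ℕ), p.2))
        (Sum.elim (fun k => Sum.inr (r + (G (y k)).1, (G (y k)).2))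
          (fun p => Sum.inr (r + (G ((n + 1) * m (k₀ + p.1) + n, p.2)).1,
            (G ((n + 1) * m (k₀ + p.1) + n, p.2)).2)))) (t j))) := by
    intro D G m y hG hD hy
    have h3 := hG.2 (fun j => Sum.elim Sum.inl (Sum.elim (fun p => Sum.inr (Sum.inl (u p.1, p.2)))
      (Sum.elim (fun k => Sum.inr (Sum.inr (y k)))
        (fun p => Sum.inr (Sum.inr ((n + 1) * m (k₀ + p.1) + n, p.2))))) (t j)) (by
        intro j a hj
        rcases htj : t j with a' | p | k | p <;>
          simp only [htj, Sum.elim_inl, Sum.elim_inr] at hj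
        · rw [← Sum.inl.inj hj]
          exact ht.1 j a' htj
        all_goals simp at hj) (by
        intro j p hj
        rcases htj : t j with a' | p' | k | p' <;>
          simp only [htj, Sum.elim_inl, Sum.elim_inr] at hj
        · simp at hj
        · simp at hj
        · rw [← Sum.inr.inj (Sum.inr.inj hj)]
          exact hy k
        · rw [← Sum.inr.inj (Sum.inr.inj hj)]
          exact hD _ _)
    refine Eq.trans ?_ (h3.symm.trans ?_)
    · congr 1
      funext j
      rcases t j with a' | p | k | p <;> rfl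
    · congr 1
      funext j
      rcases t j with a' | p | k | p <;> rfl
  rw [tr D₁ G₁ m₁ z hG₁ h1 hzD, tr D₂ G₂ m₂ (fun k => g (z k)) hG₂ h2
    (fun k => hg.mapsTo (hzD k))]
  refine hH.pat _ _ ?_ ?_ ?_
  · intro j a hj
    rcases htj : t j with a' | p | k | p <;> simp only [htj, Sum.elim_inl, Sum.elim_inr] at hj
    · have : a' = a := Sum.inl.inj hj
      refine ⟨this ▸ ht.1 j a' htj, ?_⟩
      simp only [htj, Sum.elim_inl]
      rw [this]
    all_goals simp at hj
  · intro j i c hj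
    rcases htj : t j with a' | p | k | p <;> simp only [htj, Sum.elim_inl, Sum.elim_inr] at hj
    · simp at hj
    · have h3 := Prod.mk.inj (Sum.inr.inj hj)
      exact ⟨u p.1, by simp only [htj, Sum.elim_inl, Sum.elim_inr]; rw [h3.2]⟩
    · have h3 := Prod.mk.inj (Sum.inr.inj hj)
      refine ⟨r + (G₂ (g (z k))).1, ?_⟩
      simp only [htj, Sum.elim_inl, Sum.elim_inr]
      rw [hgG _ (hzD k), h3.2]
    · have h3 := Prod.mk.inj (Sum.inr.inj hj)
      refine ⟨r + (G₂ ((n + 1) * m₂ (k₀ + p.1) + n, p.2)).1, ?_⟩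
      simp only [htj, Sum.elim_inr]
      rw [hp₂.2.1, ← h3.2, hp₁.2.1]
  · intro j j' i c i' c' k d k' d' h3 h4 h5 h6
    rcases htj : t j with a₁ | p₁ | k₁ | p₁ <;>
      rcases htj' : t j' with a₂ | p₂ | k₂ | p₂ <;>
      simp only [htj, htj', Sum.elim_inl, Sum.elim_inr, Sum.inr.injEq, Prod.mk.injEq,
        reduceCtorEq] at h3 h4 h5 h6
    · -- front, front
      omega
    · have h7 := (u p₁.1).2
      omega
    · have h7 := (u p₁.1).2
      omega
    · have h7 := (u p₂.1).2
      omega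
    · have h7 := hgG _ (hzD k₁)
      have h8 := hgG _ (hzD k₂)
      rw [h7] at h5
      rw [h8] at h6
      omega
    · have h7 := hgG _ (hzD k₁)
      rw [h7] at h5
      have h8 := hk₀3 k₁
      have h9 := hinf G₁ m₁ hp₁ (k₀ + p₂.1) p₂.2
      have h10 := hinf G₂ m₂ hp₂ (k₀ + p₂.1) p₂.2
      omega
    · have h7 := (u p₂.1).2
      omega
    · have h7 := hgG _ (hzD k₂)
      rw [h7] at h6
      have h8 := hk₀3 k₂
      have h9 := hinf G₁ m₁ hp₁ (k₀ + p₁.1) p₁.2
      have h10 := hinf G₂ m₂ hp₂ (k₀ + p₁.1) p₁.2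
      omega
    · rcases lt_trichotomy p₁.1 p₂.1 with h7 | h7 | h7
      · have h8 := hp₁.2.2.2 (k₀ + p₁.1) (k₀ + p₂.1) p₁.2 p₂.2 (by omega)
        have h9 := hp₂.2.2.2 (k₀ + p₁.1) (k₀ + p₂.1) p₁.2 p₂.2 (by omega)
        omega
      · have h8 := hp₁.2.2.1 (k₀ + p₁.1) p₁.2 p₂.2
        have h9 := hp₂.2.2.1 (k₀ + p₁.1) p₁.2 p₂.2
        rw [← h7] at h4 h6
        rw [← h3.1, ← h4.1, ← h5.1, ← h6.1, Nat.add_lt_add_iff_left, Nat.add_lt_add_iff_left]
        exact h8.trans h9.symm
      · have h8 := hp₁.2.2.2 (k₀ + p₂.1) (k₀ + p₁.1) p₂.2 p₁.2 (by omega)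
        have h9 := hp₂.2.2.2 (k₀ + p₂.1) (k₀ + p₁.1) p₂.2 p₁.2 (by omega)
        omega

end Pool.H17.TA
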