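import Pool.Agent.H17.TA.TlDefs
import Pool.Agent.H22.VN.Seq

/-!
# TL 1 : patterns at infinity exist
-/

set_option autoImplicit false

namespace Pool.H17.TA

open Pool.H22.VC Function Set

variable {r : ℕ} {K ι κ κ' : Type} {N : Col r K ℕ} {A : Set ℕ} {e : ℕ → ι → ℕ}

/-- If `G` is injective on a set containing all full blocks then it has a pattern at infinity.
PROOF. There are finitely many pairs (letters, order pattern) for the maps
`c ↦ G ((n + 1) m + n, c)`, so one of them, `(lt, R)`, occurs for infinitely many `m`. For every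
bound `b` only finitely many `m` have a `c` with `(G ((n + 1) m + n, c)).1 < b`, because `G` is
injective there and `ι` is finite. So `m 0 < m 1 < …` can be chosen one after the other
(`Nat.exists_strictMono_subsequence`-like, or `Filter.extraction_of_frequently_atTop`-like). -/
theorem exists_patAt [Finite ι] (n : ℕ) (G : ℕ × ι → ℕ × ι) (D : Set (ℕ × ι)) (hG : InjOn G D)
    (hD : ∀ k c, ((n + 1) * k + n, c) ∈ D) :
    ∃ (lt : ι → ι) (R : ι → ι → Prop) (m : ℕ → ℕ), PatAt n lt R m G := by
  classical
  let B : ℕ → ι → ℕ × ι := fun k c => G ((n + 1) * k + n, c)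
  have hBinj : ∀ k c k' c', B k c = B k' c' → k = k' ∧ c = c' := by
    intro k c k' c' h
    have h1 := hG (hD k c) (hD k' c') h
    have h2 := Prod.mk.inj h1
    have h3 : (n + 1) * k = (n + 1) * k' := by omega
    exact ⟨Nat.eq_of_mul_eq_mul_left (Nat.succ_pos n) h3, h2.2⟩
  let pt : ℕ → (ι → ι) × (ι → ι → Prop) := fun k =>
    (fun c => (B k c).2, fun c c' => (B k c).1 < (B k c').1)
  obtain ⟨⟨lt, R⟩, hE⟩ := Finite.exists_infinite_fiber pt
  have hS : {k | pt k = (lt, R)}.Infinite := by
    have := Set.infinite_coe_iff.1 hE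
    exact this
  have hbad : ∀ b : ℕ, {k | ∃ c, (B k c).1 < b}.Finite := by
    intro b
    have hfin : ((Iio b : Set ℕ) ×ˢ (univ : Set ι)).Finite :=
      (finite_Iio b).prod (Set.toFinite _)
    have h1 : {k | ∃ c, (B k c).1 < b} ⊆ ⋃ c : ι, {k | (B k c).1 < b} := by
      rintro k ⟨c, hc⟩
      exact mem_iUnion.2 ⟨c, hc⟩
    refine (finite_iUnion (fun c => ?_)).subset h1
    refine Set.Finite.of_finite_image (f := fun k => B k c) (hfin.subset ?_) ?_
    · rintro p ⟨k, hk, rfl⟩
      exact ⟨hk, mem_univ _⟩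
    · intro k _ k' _ hkk
      exact (hBinj k c k' c hkk).1
  obtain ⟨m, hm⟩ := Pool.H22.VN.exists_seq_of_step
    (fun q (m : ℕ → ℕ) => (∀ i < q, pt (m i) = (lt, R)) ∧
      ∀ i j, i < j → j < q → m i < m j ∧ ∀ c c', (B (m i) c).1 < (B (m j) c').1) (by
      rintro q m m' hmm ⟨h1, h2⟩
      refine ⟨fun i hi => ?_, fun i j hij hj => ?_⟩
      · rw [← hmm i hi]
        exact h1 i hi
      · rw [← hmm i (by omega), ← hmm j hj]
        exact h2 i j hij hj) (fun _ => 0) (by
      exact ⟨fun i hi => absurd hi (Nat.not_lt_zero i), fun i j _ hj =>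
        absurd hj (Nat.not_lt_zero j)⟩) (by
      rintro q m ⟨h1, h2⟩
      let X : Set ℕ := ⋃ i ∈ Iio q, (range (fun c => (B (m i) c).1) ∪ {m i})
      have hX : X.Finite := (finite_Iio q).biUnion (fun i _ =>
        (Set.finite_range _).union (finite_singleton _))
      obtain ⟨b, hb⟩ := hX.bddAbove
      have hb1 : ∀ i < q, ∀ c, (B (m i) c).1 ≤ b := fun i hi c =>
        hb (mem_biUnion (show i ∈ Iio q from hi) (Or.inl ⟨c, rfl⟩))
      have hb2 : ∀ i < q, m i ≤ b := fun i hi =>
        hb (mem_biUnion (show i ∈ Iio q from hi) (Or.inr rfl))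
      obtain ⟨x, hx1, hx2⟩ := hS.exists_notMem_finite ((hbad (b + 1)).union (finite_Iic b))
      have hx3 : ∀ c, b < (B x c).1 := by
        intro c
        by_contra hc
        exact hx2 (Or.inl ⟨c, by omega⟩)
      have hx4 : b < x := by
        by_contra hc
        exact hx2 (Or.inr (by
          show x ≤ b
          omega))
      refine ⟨x, fun i hi => ?_, fun i j hij hj => ?_⟩
      · by_cases hiq : i = q
        · rw [hiq, Function.update_self]
          exact hx1
        · rw [Function.update_of_ne hiq]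
          exact h1 i (by omega)
      · by_cases hjq : j = q
        · rw [hjq, Function.update_self, Function.update_of_ne (by omega)]
          refine ⟨lt_of_le_of_lt (hb2 i (by omega)) hx4, fun c c' => ?_⟩
          exact lt_of_le_of_lt (hb1 i (by omega) c) (hx3 c')
        · rw [Function.update_of_ne hjq, Function.update_of_ne (by omega)]
          exact h2 i j hij (by omega))
  refine ⟨lt, R, m, ?_, ?_, ?_, ?_⟩
  · intro i j hij
    exact ((hm (j + 1)).2 i j hij (Nat.lt_succ_self j)).1
  · intro k c
    have h1 := (Prod.mk.inj ((hm (k + 1)).1 k (Nat.lt_succ_self k))).1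
    exact congrFun h1 c
  · intro k c c'
    have h1 := (Prod.mk.inj ((hm (k + 1)).1 k (Nat.lt_succ_self k))).2
    exact iff_of_eq (congrFun (congrFun h1 c) c')
  · intro k k' c c' hkk
    exact ((hm (k' + 1)).2 k k' hkk (Nat.lt_succ_self k')).2 c c'

end Pool.H17.TA
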