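import Pool.Agent.H17.TA.Wdd
import Pool.Agent.H17.TA.TlPat
import Pool.Agent.H17.TA.TlKey
import Pool.Agent.H17.TA.TlIso
import Pool.Agent.H17.TA.TlCl

/-!
# TL : blocks at infinity are harmless
-/

set_option autoImplicit false

namespace Pool.H17.TA

open Pool.H22.VC Function Set

variable {r : ℕ} {K ι κ κ' : Type} {N : Col r K ℕ} {A : Set ℕ} {e : ℕ → ι → ℕ}

/-- TL. If only equal words have a type preserving bijection between their domains, then `N` is
wild. (The family is `Ω s = Om r A e (Dm (BS n l s))`, the finite set is `A` and the first `r`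
blocks; it is infinite because of the full blocks; `wild_of_data` with the countably many patterns
`(lt, R)` (finitely many), the sets `tl_closed`, `exists_patAt` and `tl_key`.) If `ι` is empty the
domains of all words are empty, `h` fails (`tl_key` is not needed). -/
theorem tl (hW : ¬ Wild N univ) (hH : Hom N A e) (hA : A.Finite) [Finite ι] (n : ℕ)
    (l : Bool → List (Set ι))
    (h : ∀ s s' g, Pres N A e g (Dm (BS n l s)) (Dm (BS n l s')) → s = s') : False := by
  classical
  rcases isEmpty_or_nonempty ι with he | hne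
  · have h1 : (fun _ => true : ℕ → Bool) = fun _ => false := by
      refine h _ _ id ⟨?_, fun m z _ _ => Teq.refl hH z⟩
      have : Dm (BS n l (fun _ => true)) = Dm (BS n l (fun _ => false)) := by
        ext p
        exact (he.false p.2).elim
      rw [this]
      exact bijOn_id _
    have h2 := congrFun h1 0
    simp at h2
  · letI : TopologicalSpace ι := ⊥
    haveI : DiscreteTopology ι := ⟨rfl⟩
    have hcount : Countable ι := Finite.to_countable
    have hfull : ∀ s k c, ((n + 1) * k + n, c) ∈ Dm (BS n l s) := by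
      intro s k c
      show c ∈ BS n l s ((n + 1) * k + n)
      rw [BS_full]
      exact mem_univ c
    have hfinA' : (A ∪ {x | ∃ i c, i < r ∧ x = e i c}).Finite := by
      refine hA.union ?_
      have h1 : {x | ∃ i c, i < r ∧ x = e i c} ⊆ (fun p : ℕ × ι => e p.1 p.2) ''
          (Iio r ×ˢ univ) := by
        rintro x ⟨i, c, hi, rfl⟩
        exact ⟨(i, c), ⟨hi, mem_univ c⟩, rfl⟩
      exact (((finite_Iio r).prod (Set.toFinite _)).image _).subset h1
    obtain ⟨A', hA'⟩ : ∃ A' : Finset ℕ, (A' : Set ℕ) = A ∪ {x | ∃ i c, i < r ∧ x = e i c} :=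
      ⟨hfinA'.toFinset, by simp⟩
    have hctype : Countable ((ι → ι) × (ι → ι → Prop)) := Finite.to_countable
    obtain ⟨q, hq⟩ := exists_surjective_nat ((ι → ι) × (ι → ι → Prop))
    have hpol : PolishSpace ((ℕ × ι → ℕ × ι) × (ℕ × ι → ℕ × ι) × (ℕ → ℕ)) := inferInstance
    refine hW (wild_of_data N univ A' (fun s => Om r A e (Dm (BS n l s))) ?_ ?_ ?_ ?_
      (W := (ℕ × ι → ℕ × ι) × (ℕ × ι → ℕ × ι) × (ℕ → ℕ))
      (fun k => {x | NIso N A e (Dm (BS n l x.1)) (Dm (BS n l x.2.1)) x.2.2.1 ∧
        InvOn x.2.2.2.1 x.2.2.1 (Dm (BS n l x.1)) (Dm (BS n l x.2.1)) ∧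
        MapsTo x.2.2.2.1 (Dm (BS n l x.2.1)) (Dm (BS n l x.1)) ∧
        PatAt n (q k).1 (q k).2 x.2.2.2.2 x.2.2.1}) ?_ ?_ ?_)
    · intro s x hx
      have hx' : x ∈ (A' : Set ℕ) := hx
      rw [hA'] at hx'
      exact Or.inl hx'
    · intro s
      exact subset_univ _
    · intro s
      obtain ⟨c⟩ := hne
      refine Set.infinite_of_injective_forall_mem (f := fun k : ℕ => el r e ((n + 1) * k + n, c))
        ?_ ?_
      · intro k k' hkk
        have h1 := (hH.inj _ _ _ _ hkk).1
        simp only at h1
        have h2 : (n + 1) * k = (n + 1) * k' := by omega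
        exact Nat.eq_of_mul_eq_mul_left (Nat.succ_pos n) h2
      · intro k
        exact Or.inr ⟨_, hfull s k c, rfl⟩
    · intro x
      by_cases hx : x ∈ A ∪ {x | ∃ i c, i < r ∧ x = e i c}
      · have : {s : ℕ → Bool | x ∈ Om r A e (Dm (BS n l s))} = univ := by
          ext s
          simp only [mem_setOf_eq, mem_univ, iff_true]
          exact Or.inl hx
        rw [this]
        exact isClopen_univ
      · by_cases hx' : ∃ p, x = el r e p
        · obtain ⟨p, rfl⟩ := hx'
          have : {s : ℕ → Bool | el r e p ∈ Om r A e (Dm (BS n l s))} =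
              {s : ℕ → Bool | p ∈ Dm (BS n l s)} := by
            ext s
            constructor
            · rintro (h1 | ⟨p', hp', h1⟩)
              · exact absurd h1 hx
              · have h2 := hH.inj _ _ _ _ h1
                have h3 : p = p' := Prod.ext (by omega) h2.2
                rw [h3]
                exact hp'
            · intro h1
              exact Or.inr ⟨p, h1, rfl⟩
          rw [this]
          exact dm_clopen n l p
        · have : {s : ℕ → Bool | x ∈ Om r A e (Dm (BS n l s))} = ∅ := by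
            ext s
            simp only [mem_setOf_eq, mem_empty_iff_false, iff_false]
            rintro (h1 | ⟨p', hp', h1⟩)
            · exact hx h1
            · exact hx' ⟨p', h1⟩
          rw [this]
          exact isClopen_empty
    · intro k
      exact tl_closed n l (q k).1 (q k).2
    · intro s s' hiso
      obtain ⟨G, hG⟩ := nIso_of_iso hH _ _ A' hA' hiso
      obtain ⟨lt, R, m, hp⟩ := exists_patAt n G (Dm (BS n l s)) hG.1.injOn (hfull s)
      obtain ⟨k, hk⟩ := hq (lt, R)
      have hinv : InvOn (invFunOn G (Dm (BS n l s))) G (Dm (BS n l s)) (Dm (BS n l s')) :=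
        hG.1.invOn_invFunOn
      refine ⟨k, (G, invFunOn G (Dm (BS n l s)), m), hG, hinv, ?_, ?_⟩
      · exact (hG.1.symm hinv.symm).mapsTo
      · rw [hk]
        exact hp
    · rintro k s₁ s₂ s' ⟨G₁, G₁', m₁⟩ ⟨G₂, G₂', m₂⟩ ⟨h1, -, -, h2⟩ ⟨h3, -, -, h4⟩
      obtain ⟨g, hg⟩ := tl_key hH n (Dm (BS n l s₁)) (Dm (BS n l s₂)) (Dm (BS n l s'))
        (hfull s₁) (hfull s₂) G₁ G₂ h1 h3 (q k).1 (q k).2 m₁ m₂ h2 h4
      exact h s₁ s₂ g hg

end Pool.H17.TA
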