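import Pool.Agent.H17.TA.Ib
import Pool.Agent.H17.TA.Tl

/-!
# Counting tuples of the type of a chain atom
-/

set_option autoImplicit false

namespace Pool.H17.TA

open Pool.H22.VC Function Set

variable {r : ℕ} {K ι κ κ' : Type} {N : Col r K ℕ} {A : Set ℕ} {e : ℕ → ι → ℕ}

/-- letter tuples of type `τ` inside the set `S` with the property `Q` -/
def LX (N : Col r K ℕ) (A : Set ℕ) (e : ℕ → ι → ℕ) (τ : κ → ι) (Q : Set ι → (κ → ι) → Prop)
    (S : Set ι) : Set (κ → ι) :=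
  {σ | Injective σ ∧ (∀ k, σ k ∈ S) ∧ Teq N A e (blk 0 σ) (blk 0 τ) ∧ Q S σ}

/-- their number -/
noncomputable def cQ (N : Col r K ℕ) (A : Set ℕ) (e : ℕ → ι → ℕ) (τ : κ → ι)
    (Q : Set ι → (κ → ι) → Prop) (S : Set ι) : ℕ := (LX N A e τ Q S).ncard

/-- number of all letter tuples of type `τ` in `S` -/
noncomputable def cX (N : Col r K ℕ) (A : Set ℕ) (e : ℕ → ι → ℕ) (τ : κ → ι) (S : Set ι) : ℕ :=
  cQ N A e τ (fun _ _ => True) S

/-- the tuple `z` (of type `τ`) is visibly before the tuple `z'` (of type `τ'`) -/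
def Vis (N : Col r K ℕ) (A : Set ℕ) (e : ℕ → ι → ℕ) (τ : κ → ι) (τ' : κ' → ι)
    (z : κ → ℕ × ι) (z' : κ' → ℕ × ι) : Prop :=
  Teq N A e (Sum.elim z z') (Sum.elim (blk 0 τ) (blk 1 τ'))

/-- `Vis` in different blocks is the order of the blocks. -/
theorem vis_iff (hH : Hom N A e) [Finite κ] [Finite κ'] {τ : κ → ι} {τ' : κ' → ι}
    (hn : ¬ Perp N A e τ τ') {i j : ℕ} (hij : i ≠ j) {σ : κ → ι} {σ' : κ' → ι}
    (hσ : Teq N A e (blk 0 σ) (blk 0 τ)) (hσ' : Teq N A e (blk 0 σ') (blk 0 τ')) :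
    Vis N A e τ τ' (blk i σ) (blk j σ') ↔ i < j := by
  unfold Vis
  constructor
  · intro h
    by_contra hlt
    have hji : j < i := by omega
    apply hn
    have h1 : Teq N A e (Sum.elim (blk i σ) (blk j σ')) (Sum.elim (blk 1 τ) (blk 0 τ')) :=
      cp_front hH ((teq_blk hH i 0 σ).trans (hσ.trans (teq_blk hH 0 1 τ)))
        ((teq_blk hH j 0 σ').trans hσ') (fun _ _ => hji) (fun _ _ => Nat.zero_lt_one)
    exact h.symm.trans h1
  · intro hij'
    exact cp_back hH ((teq_blk hH i 0 σ).trans hσ)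
      ((teq_blk hH j 0 σ').trans (hσ'.trans (teq_blk hH 0 1 τ')))
      (fun _ _ => hij') (fun _ _ => Nat.zero_lt_one)

/-- `Vis` depends on the type of the pair only -/
theorem Vis.congr {κ κ' : Type} [Finite κ] [Finite κ'] {τ : κ → ι} {τ' : κ' → ι}
    {z w : κ → ℕ × ι} {z' w' : κ' → ℕ × ι} (h : Vis N A e τ τ' z z')
    (hw : Teq N A e (Sum.elim z z') (Sum.elim w w')) : Vis N A e τ τ' w w' := by
  exact hw.symm.trans h

/-- no tuple of type `τ`, `¬ Perp τ τ`, is before itself (swap the summands) -/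
theorem not_vis_self (hH : Hom N A e) [Finite κ] {τ : κ → ι} (hn : ¬ Perp N A e τ τ)
    (z : κ → ℕ × ι) : ¬ Vis N A e τ τ z z := by
  intro h
  apply hn
  have h1 := Teq.comp hH h (Sum.swap : κ ⊕ κ → κ ⊕ κ)
  have e1 : (fun k => Sum.elim z z (Sum.swap k)) = Sum.elim z z := by
    funext k
    rcases k with k | k <;> rfl
  have e2 : (fun k => Sum.elim (blk 0 τ) (blk 1 τ) (Sum.swap k)) =
      Sum.elim (blk 1 τ) (blk 0 τ) := by
    funext k
    rcases k with k | k <;> rfl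
  rw [e1, e2] at h1
  exact Teq.trans (Teq.symm h) h1

/-- `Vis` is asymmetric -/
theorem not_vis_symm (hH : Hom N A e) [Finite κ] {τ : κ → ι} (hn : ¬ Perp N A e τ τ)
    (z z' : κ → ℕ × ι) (h : Vis N A e τ τ z z') : ¬ Vis N A e τ τ z' z := by
  intro h'
  apply hn
  have h1 := Teq.comp hH h' (Sum.swap : κ ⊕ κ → κ ⊕ κ)
  have e1 : (fun k => Sum.elim z' z (Sum.swap k)) = Sum.elim z z' := by
    funext k
    rcases k with k | k <;> rfl
  have e2 : (fun k => Sum.elim (blk 0 τ) (blk 1 τ) (Sum.swap k)) =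
      Sum.elim (blk 1 τ) (blk 0 τ) := by
    funext k
    rcases k with k | k <;> rfl
  rw [e1, e2] at h1
  exact Teq.trans (Teq.symm h) h1

/-- the number of tuples of type `τ` before `z'` in the domain `D` -/
noncomputable def hgt (N : Col r K ℕ) (A : Set ℕ) (e : ℕ → ι → ℕ) (τ : κ → ι) (τ' : κ' → ι)
    (D : Set (ℕ × ι)) (z' : κ' → ℕ × ι) : ℕ :=
  {z | z ∈ XT N A e τ D ∧ Vis N A e τ τ' z z'}.ncard

/-- Tuples of a type all of whose tuples lie in one block: `XT` is the disjoint union over the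
blocks `i` of the `blk i σ`, `σ ∈ LX`. -/
theorem mem_XT_iff (hH : Hom N A e) [Finite κ] [Nonempty κ] {τ : κ → ι}
    (hin : ∀ z : κ → ℕ × ι, Teq N A e z (blk 0 τ) → ∀ k k', (z k).1 = (z k').1)
    (B : ℕ → Set ι) (z : κ → ℕ × ι) :
    z ∈ XT N A e τ (Dm B) ↔ ∃ i, ∃ σ ∈ LX N A e τ (fun _ _ => True) (B i), z = blk i σ := by
  constructor
  · rintro ⟨h1, h2, h3⟩
    obtain ⟨k0⟩ := (inferInstance : Nonempty κ)
    have h4 := hin z h3
    have h5 : z = blk (z k0).1 (fun k => (z k).2) := by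
      funext k
      exact Prod.ext (h4 k k0) rfl
    refine ⟨(z k0).1, fun k => (z k).2, ⟨?_, ?_, ?_, trivial⟩, h5⟩
    · intro k k' hk
      exact h1 (Prod.ext (h4 k k') hk)
    · intro k
      have h6 : (z k).2 ∈ B (z k).1 := h2 k
      rw [h4 k k0] at h6
      exact h6
    · rw [h5] at h3
      exact (teq_blk hH 0 (z k0).1 _).trans h3
  · rintro ⟨i, σ, ⟨h1, h2, h3, -⟩, rfl⟩
    refine ⟨?_, ?_, (teq_blk hH i 0 σ).trans h3⟩
    · intro k k' hk
      exact h1 (congrArg Prod.snd hk)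
    · intro k
      exact h2 k

end Pool.H17.TA
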