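import Pool.Agent.H17.TA.Cnt1

/-!
# Counting tuples of the type of a chain atom, continued
-/

set_option autoImplicit false

namespace Pool.H17.TA

open Pool.H22.VC Function Set

variable {r : ℕ} {K ι κ κ' : Type} {N : Col r K ℕ} {A : Set ℕ} {e : ℕ → ι → ℕ}

private theorem blk_inj (i : ℕ) : Injective (fun σ : κ → ι => blk i σ) := by
  intro σ σ' h
  funext k
  exact congrArg Prod.snd (congrFun h k)

private theorem fin_blocks [Finite ι] [Finite κ] {τ : κ → ι}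
    (Q : Set ι → (κ → ι) → Prop) (B : ℕ → Set ι) (a b : ℕ) :
    {z : κ → ℕ × ι | ∃ i, a ≤ i ∧ i < b ∧ ∃ σ ∈ LX N A e τ Q (B i), z = blk i σ}.Finite := by
  have h1 : ((fun p : ℕ × (κ → ι) => (blk p.1 p.2 : κ → ℕ × ι)) ''
      (Iio b ×ˢ (univ : Set (κ → ι)))).Finite :=
    ((finite_Iio b).prod (Set.toFinite _)).image _
  refine h1.subset ?_
  rintro z ⟨i, -, hi, σ, -, rfl⟩
  exact ⟨(i, σ), ⟨hi, mem_univ _⟩, rfl⟩

private theorem ncard_blocks' [Finite ι] [Finite κ] [Nonempty κ] {τ : κ → ι}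
    (Q : Set ι → (κ → ι) → Prop) (B : ℕ → Set ι) (a b : ℕ) :
    {z : κ → ℕ × ι | ∃ i, a ≤ i ∧ i < b ∧ ∃ σ ∈ LX N A e τ Q (B i), z = blk i σ}.ncard =
      ∑ i ∈ Finset.Ico a b, cQ N A e τ Q (B i) := by
  induction b with
  | zero =>
    have h1 : {z : κ → ℕ × ι | ∃ i, a ≤ i ∧ i < 0 ∧ ∃ σ ∈ LX N A e τ Q (B i), z = blk i σ} =
        ∅ := by
      ext z
      constructor
      · rintro ⟨i, -, hi, -⟩
        exact absurd hi (Nat.not_lt_zero i)
      · intro h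
        exact h.elim
    rw [h1, ncard_empty]
    simp
  | succ b ih =>
    rcases Nat.lt_or_ge b a with hba | hba
    · have h1 : {z : κ → ℕ × ι | ∃ i, a ≤ i ∧ i < b + 1 ∧ ∃ σ ∈ LX N A e τ Q (B i),
          z = blk i σ} = ∅ := by
        ext z
        constructor
        · rintro ⟨i, hi, hi', -⟩
          omega
        · intro h
          exact h.elim
      rw [h1, ncard_empty, Finset.Ico_eq_empty (by omega), Finset.sum_empty]
    · have h1 : {z : κ → ℕ × ι | ∃ i, a ≤ i ∧ i < b + 1 ∧ ∃ σ ∈ LX N A e τ Q (B i),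
          z = blk i σ} = {z : κ → ℕ × ι | ∃ i, a ≤ i ∧ i < b ∧ ∃ σ ∈ LX N A e τ Q (B i),
          z = blk i σ} ∪ (fun σ : κ → ι => (blk b σ : κ → ℕ × ι)) '' LX N A e τ Q (B b) := by
        ext z
        constructor
        · rintro ⟨i, hi, hi', σ, hσ, rfl⟩
          rcases Nat.lt_or_ge i b with h2 | h2
          · exact Or.inl ⟨i, hi, h2, σ, hσ, rfl⟩
          · have h3 : i = b := by omega
            subst h3
            exact Or.inr ⟨σ, hσ, rfl⟩
        · rintro (⟨i, hi, hi', σ, hσ, rfl⟩ | ⟨σ, hσ, rfl⟩)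
          · exact ⟨i, hi, by omega, σ, hσ, rfl⟩
          · exact ⟨b, hba, Nat.lt_succ_self b, σ, hσ, rfl⟩
      have h2 : Disjoint {z : κ → ℕ × ι | ∃ i, a ≤ i ∧ i < b ∧ ∃ σ ∈ LX N A e τ Q (B i),
          z = blk i σ} ((fun σ : κ → ι => (blk b σ : κ → ℕ × ι)) '' LX N A e τ Q (B b)) := by
        rw [Set.disjoint_left]
        rintro z ⟨i, hi, hi', σ, hσ, rfl⟩ ⟨σ', hσ', h3⟩
        obtain ⟨k0⟩ := (inferInstance : Nonempty κ)
        have h4 : b = i := congrArg Prod.fst (congrFun h3 k0)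
        omega
      have h3 : ((fun σ : κ → ι => (blk b σ : κ → ℕ × ι)) '' LX N A e τ Q (B b)).Finite :=
        (Set.toFinite _).image _
      rw [h1, ncard_union_eq h2 (fin_blocks Q B a b) h3, ih,
        ncard_image_of_injective _ (blk_inj b), Finset.sum_Ico_succ_top hba]
      rfl

/-- The number of tuples of type `τ` before a tuple of type `τ'` in the block `i` is, up to an error
coming from the block `i` itself (between `0` and `cX (B i)`), the number of tuples in the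
preceding blocks; the set of the tuples before is finite. -/
theorem hgt_bounds (hH : Hom N A e) [Finite ι] [Finite κ] [Nonempty κ] [Finite κ'] {τ : κ → ι}
    {τ' : κ' → ι} (hn : ¬ Perp N A e τ τ')
    (hin : ∀ z : κ → ℕ × ι, Teq N A e z (blk 0 τ) → ∀ k k', (z k).1 = (z k').1)
    (B : ℕ → Set ι) (i : ℕ) (σ' : κ' → ι) (hσ' : Teq N A e (blk 0 σ') (blk 0 τ')) :
    hgt N A e τ τ' (Dm B) (blk i σ') =
      (∑ j ∈ Finset.range i, cX N A e τ (B j)) +
        {σ | σ ∈ LX N A e τ (fun _ _ => True) (B i) ∧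
          Vis N A e τ τ' (blk i σ) (blk i σ')}.ncard := by
  have hB0 := ncard_blocks' (N := N) (A := A) (e := e) (τ := τ) (fun _ _ => True) B 0 i
  have hset : {z | z ∈ XT N A e τ (Dm B) ∧ Vis N A e τ τ' z (blk i σ')} =
      {z : κ → ℕ × ι | ∃ j, 0 ≤ j ∧ j < i ∧ ∃ σ ∈ LX N A e τ (fun _ _ => True) (B j),
        z = blk j σ} ∪ (fun σ : κ → ι => (blk i σ : κ → ℕ × ι)) ''
        {σ | σ ∈ LX N A e τ (fun _ _ => True) (B i) ∧ Vis N A e τ τ' (blk i σ) (blk i σ')} := by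
    ext z
    constructor
    · rintro ⟨hz, hv⟩
      obtain ⟨j, σ, hσ, rfl⟩ := (mem_XT_iff hH hin B z).1 hz
      rcases eq_or_ne j i with hji | hji
      · subst hji
        exact Or.inr ⟨σ, ⟨hσ, hv⟩, rfl⟩
      · exact Or.inl ⟨j, Nat.zero_le j, (vis_iff hH hn hji hσ.2.2.1 hσ').1 hv, σ, hσ, rfl⟩
    · rintro (⟨j, -, hj, σ, hσ, rfl⟩ | ⟨σ, ⟨hσ, hv⟩, rfl⟩)
      · exact ⟨(mem_XT_iff hH hin B _).2 ⟨j, σ, hσ, rfl⟩,
          (vis_iff hH hn hj.ne hσ.2.2.1 hσ').2 hj⟩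
      · exact ⟨(mem_XT_iff hH hin B _).2 ⟨i, σ, hσ, rfl⟩, hv⟩
  have hdis : Disjoint {z : κ → ℕ × ι | ∃ j, 0 ≤ j ∧ j < i ∧
      ∃ σ ∈ LX N A e τ (fun _ _ => True) (B j), z = blk j σ}
      ((fun σ : κ → ι => (blk i σ : κ → ℕ × ι)) ''
        {σ | σ ∈ LX N A e τ (fun _ _ => True) (B i) ∧
          Vis N A e τ τ' (blk i σ) (blk i σ')}) := by
    rw [Set.disjoint_left]
    rintro z ⟨j, -, hj, σ, hσ, rfl⟩ ⟨σ₁, hσ₁, h3⟩
    obtain ⟨k0⟩ := (inferInstance : Nonempty κ)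
    have h4 : i = j := congrArg Prod.fst (congrFun h3 k0)
    omega
  have hfin : ((fun σ : κ → ι => (blk i σ : κ → ℕ × ι)) ''
      {σ | σ ∈ LX N A e τ (fun _ _ => True) (B i) ∧
        Vis N A e τ τ' (blk i σ) (blk i σ')}).Finite := (Set.toFinite _).image _
  unfold hgt
  rw [hset, ncard_union_eq hdis (fin_blocks _ B 0 i) hfin,
    ncard_image_of_injective _ (blk_inj i), hB0, Finset.range_eq_Ico]
  rfl

/-- the number of tuples in finitely many blocks -/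
theorem ncard_blocks [Finite ι] [Finite κ] [Nonempty κ] {τ : κ → ι}
    (Q : Set ι → (κ → ι) → Prop) (B : ℕ → Set ι) (a b : ℕ) :
    {z : κ → ℕ × ι | ∃ i, a ≤ i ∧ i < b ∧ ∃ σ ∈ LX N A e τ Q (B i), z = blk i σ}.ncard =
      ∑ i ∈ Finset.Ico a b, cQ N A e τ Q (B i) := by
  exact ncard_blocks' Q B a b

/-- a type preserving bijection preserves `XT` and `hgt` -/
theorem Pres.xt (hH : Hom N A e) [Finite κ] {g : ℕ × ι → ℕ × ι} {D D' : Set (ℕ × ι)}
    (h : Pres N A e g D D') (τ : κ → ι) {z : κ → ℕ × ι} (hz : z ∈ XT N A e τ D) :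
    (fun k => g (z k)) ∈ XT N A e τ D' := by
  refine ⟨?_, fun k => h.1.mapsTo (hz.2.1 k), ((h.teq hH z hz.2.1).symm).trans hz.2.2⟩
  intro k k' hk
  exact hz.1 (h.1.injOn (hz.2.1 k) (hz.2.1 k') hk)

theorem Pres.hgt (hH : Hom N A e) [Finite κ] [Finite κ'] {g : ℕ × ι → ℕ × ι}
    {D D' : Set (ℕ × ι)} (h : Pres N A e g D D') (τ : κ → ι) (τ' : κ' → ι) {z' : κ' → ℕ × ι}
    (hz' : z' ∈ XT N A e τ' D) :
    hgt N A e τ τ' D' (fun k => g (z' k)) = hgt N A e τ τ' D z' := by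
  obtain ⟨g', hg', h1, h2⟩ := h.symm
  have hvis : ∀ (g : ℕ × ι → ℕ × ι) (D D' : Set (ℕ × ι)), Pres N A e g D D' →
      ∀ (z : κ → ℕ × ι) (z' : κ' → ℕ × ι), (∀ k, z k ∈ D) → (∀ k, z' k ∈ D) →
      Vis N A e τ τ' z z' → Vis N A e τ τ' (fun k => g (z k)) (fun k => g (z' k)) := by
    intro g D D' hg z z' hz hz' hv
    have h3 := hg.teq hH (Sum.elim z z') (by
      rintro (k | k)
      · exact hz k
      · exact hz' k)
    have e1 : (fun k => g (Sum.elim z z' k)) =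
        Sum.elim (fun k => g (z k)) (fun k => g (z' k)) := by
      funext k
      rcases k with k | k <;> rfl
    rw [e1] at h3
    exact hv.congr h3
  have hset : {w | w ∈ XT N A e τ D' ∧ Vis N A e τ τ' w (fun k => g (z' k))} =
      (fun z : κ → ℕ × ι => (fun k => g (z k))) ''
        {z | z ∈ XT N A e τ D ∧ Vis N A e τ τ' z z'} := by
    ext w
    constructor
    · rintro ⟨hw, hv⟩
      refine ⟨fun k => g' (w k), ⟨Pres.xt hH hg' τ hw, ?_⟩, ?_⟩
      · have h4 := hvis g' D' D hg' w (fun k => g (z' k)) hw.2.1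
          (fun k => h.1.mapsTo (hz'.2.1 k)) hv
        have e2 : (fun k => g' (g (z' k))) = z' := funext fun k => h1 _ (hz'.2.1 k)
        rw [e2] at h4
        exact h4
      · funext k
        exact h2 _ (hw.2.1 k)
    · rintro ⟨z, ⟨hz, hv⟩, rfl⟩
      exact ⟨Pres.xt hH h τ hz, hvis g D D' h z z' hz.2.1 hz'.2.1 hv⟩
  show ({w | w ∈ XT N A e τ D' ∧ Vis N A e τ τ' w (fun k => g (z' k))}).ncard =
    ({z | z ∈ XT N A e τ D ∧ Vis N A e τ τ' z z'}).ncard
  rw [hset]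
  apply ncard_image_of_injOn
  intro z hz w hw hzw
  funext k
  exact h.1.injOn (hz.1.2.1 k) (hw.1.2.1 k) (congrFun hzw k)

end Pool.H17.TA
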