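import Pool.Agent.H17.TA.Tq2

/-!
# CP : configurations of the same type can be exchanged in every context outside

If `z` and `z'` have the same type, `u` lies in blocks in front of both and `v` in blocks behind
both, then `(u, z, v)` and `(u, z', v)` have the same type. Proof: a context `t` for `(u, z, v)`
becomes a context for `z`: constants; front blocks and `u` (shifted by `f`) are front blocks;
`v` and the back blocks are back blocks. By `Hom.hom` (relocation) the blocks between are moved so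
that `z`, resp. `z'`, sits at the same shift `F` behind all front blocks; `v` sits behind.
-/

set_option autoImplicit false

namespace Pool.H17.TA

open Pool.H22.VC Function Set

variable {r : ℕ} {K ι κ κ' κ'' : Type} {N : Col r K ℕ} {A : Set ℕ} {e : ℕ → ι → ℕ}

private theorem cp_tight [Finite κ] (g : κ → ℕ) :
    ∃ c, (∀ a, g a < c) ∧ ∀ x, (∀ a, g a < x) → c ≤ x := by
  classical
  have : Fintype κ := Fintype.ofFinite κ
  refine ⟨Finset.univ.sup (fun a => g a + 1), fun a => ?_, fun x hx => ?_⟩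
  · exact Nat.lt_of_succ_le (Finset.le_sup (f := fun a => g a + 1) (Finset.mem_univ a))
  · exact Finset.sup_le (fun a _ => hx a)

/-- the context for the middle configuration -/
private def cxt (f b : ℕ) (u : κ' → ℕ × ι) (v : κ'' → ℕ × ι) :
    ℕ ⊕ ((ℕ × ι) ⊕ ((κ' ⊕ (κ ⊕ κ'')) ⊕ (ℕ × ι))) → ℕ ⊕ ((ℕ × ι) ⊕ (κ ⊕ (ℕ × ι))) :=
  Sum.elim Sum.inl (Sum.elim (fun p => Sum.inr (Sum.inl p))
    (Sum.elim (Sum.elim (fun a => Sum.inr (Sum.inl (f + (u a).1, (u a).2)))
      (Sum.elim (fun k => Sum.inr (Sum.inr (Sum.inl k)))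
        (fun a => Sum.inr (Sum.inr (Sum.inr (v a))))))
      (fun p => Sum.inr (Sum.inr (Sum.inr (b - f + p.1, p.2))))))

private theorem cp_aux (hH : Hom N A e) (u : κ' → ℕ × ι) (z : κ → ℕ × ι) (v : κ'' → ℕ × ι)
    (f b c y d : ℕ) (hfb : f ≤ b) (hu : ∀ a, (u a).1 < c) (hcz : ∀ k, c ≤ (z k).1)
    (hzy : ∀ k, (z k).1 < y) (hcy : c ≤ y) (hyv : ∀ a, y ≤ (v a).1) (hyb : f + y ≤ b)
    (hcd : c ≤ d) (t : Fin r → ℕ ⊕ ((ℕ × ι) ⊕ ((κ' ⊕ (κ ⊕ κ'')) ⊕ (ℕ × ι))))
    (ht : Adm A f t) :
    N (fun j => pl e f b (Sum.elim u (Sum.elim z v)) (t j)) =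
      N (fun j => pl e (f + c) (f + d) z (cxt f b u v (t j))) := by
  classical
  let ψ : ℕ → ℕ := fun n => if n < f + c then n else if n < f + y then n + c else n + d
  have hψ : StrictMono ψ := by
    intro n n' hnn
    simp only [ψ]
    split_ifs <;> omega
  have h1 := hH.hom ψ hψ (fun j => plT f b (Sum.elim u (Sum.elim z v)) (t j)) (by
    intro j a hj
    rcases htj : t j with a' | p | k | p <;>
      simp only [htj, plT, Sum.elim_inl, Sum.elim_inr, Sum.inl.injEq, reduceCtorEq] at hj
    rw [← hj]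
    exact ht.1 j a' htj)
  simp only [pl_eq]
  rw [← h1]
  congr 1
  funext j
  congr 1
  rcases htj : t j with a | p | (a | k | a) | p
  · rfl
  · have h2 := ht.2 j p htj
    have h3 : ψ p.1 = p.1 := if_pos (by omega)
    show Sum.inr (ψ p.1, p.2) = Sum.inr p
    rw [h3]
  · have h3 : ψ (f + (u a).1) = f + (u a).1 := if_pos (by have := hu a; omega)
    show Sum.inr (ψ (f + (u a).1), (u a).2) = Sum.inr (f + (u a).1, (u a).2)
    rw [h3]
  · have h3 : ψ (f + (z k).1) = f + c + (z k).1 := by
      have h4 := hcz k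
      have h5 := hzy k
      have h6 : ¬ (f + (z k).1 < f + c) := by omega
      have h7 : f + (z k).1 < f + y := by omega
      simp only [ψ, if_neg h6, if_pos h7]
      omega
    show Sum.inr (ψ (f + (z k).1), (z k).2) = Sum.inr (f + c + (z k).1, (z k).2)
    rw [h3]
  · have h3 : ψ (f + (v a).1) = f + d + (v a).1 := by
      have h5 := hyv a
      have h6 : ¬ (f + (v a).1 < f + c) := by omega
      have h7 : ¬ (f + (v a).1 < f + y) := by omega
      simp only [ψ, if_neg h6, if_neg h7]
      omega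
    show Sum.inr (ψ (f + (v a).1), (v a).2) = Sum.inr (f + d + (v a).1, (v a).2)
    rw [h3]
  · have h3 : ψ (b + p.1) = f + d + (b - f + p.1) := by
      have h6 : ¬ (b + p.1 < f + c) := by omega
      have h7 : ¬ (b + p.1 < f + y) := by omega
      simp only [ψ, if_neg h6, if_neg h7]
      omega
    show Sum.inr (ψ (b + p.1), p.2) = Sum.inr (f + d + (b - f + p.1), p.2)
    rw [h3]

theorem cp (hH : Hom N A e) [Finite κ] [Finite κ'] [Finite κ''] {z z' : κ → ℕ × ι}
    (h : Teq N A e z z') (u : κ' → ℕ × ι) (v : κ'' → ℕ × ι)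
    (huz : ∀ a k, (u a).1 < (z k).1) (huz' : ∀ a k, (u a).1 < (z' k).1)
    (hzv : ∀ k a, (z k).1 < (v a).1) (hzv' : ∀ k a, (z' k).1 < (v a).1)
    (huv : ∀ a a', (u a).1 < (v a').1) :
    Teq N A e (Sum.elim u (Sum.elim z v)) (Sum.elim u (Sum.elim z' v)) := by
  classical
  intro f b b' hb hb' hz hz' t ht
  obtain ⟨c, hc1, hc2⟩ := cp_tight (fun a => (u a).1)
  obtain ⟨y, hy1, hy2⟩ := cp_tight (fun k => (z k).1)
  obtain ⟨y', hy1', hy2'⟩ := cp_tight (fun k => (z' k).1)
  have hbm : f ≤ max b b' := hb.trans (le_max_left _ _)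
  have hwm : ∀ k, f + (Sum.elim u (Sum.elim z v) k).1 < max b b' := fun k =>
    (hz k).trans_le (le_max_left _ _)
  have hwm' : ∀ k, f + (Sum.elim u (Sum.elim z' v) k).1 < max b b' := fun k =>
    (hz' k).trans_le (le_max_right _ _)
  rw [pl_shift hH (Sum.elim u (Sum.elim z v)) le_rfl hb hbm hz hwm t ht,
    pl_shift hH (Sum.elim u (Sum.elim z' v)) le_rfl hb' hbm hz' hwm' t ht]
  set B := max b b' with hB
  have hcB : c ≤ B - f := hc2 _ (fun a => by
    have := hwm (Sum.inl a)
    simp only [Sum.elim_inl] at this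
    omega)
  have hyB : y ≤ B - f := hy2 _ (fun a => by
    have := hwm (Sum.inr (Sum.inl a))
    simp only [Sum.elim_inl, Sum.elim_inr] at this
    omega)
  have hyB' : y' ≤ B - f := hy2' _ (fun a => by
    have := hwm' (Sum.inr (Sum.inl a))
    simp only [Sum.elim_inl, Sum.elim_inr] at this
    omega)
  have hcz : ∀ k, c ≤ (z k).1 := fun k => hc2 _ (fun a => huz a k)
  have hcz' : ∀ k, c ≤ (z' k).1 := fun k => hc2 _ (fun a => huz' a k)
  have hcv : ∀ a, c ≤ (v a).1 := fun a' => hc2 _ (fun a => huv a a')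
  have hyv : ∀ a, y ≤ (v a).1 := fun a => hy2 _ (fun k => hzv k a)
  have hyv' : ∀ a, y' ≤ (v a).1 := fun a => hy2' _ (fun k => hzv' k a)
  rw [cp_aux hH u z v f B c (max c y) (c + y + y' + 1) hbm hc1 hcz
      (fun k => (hy1 k).trans_le (le_max_right _ _)) (le_max_left _ _)
      (fun a => max_le (hcv a) (hyv a)) (by omega) (by omega) t ht,
    cp_aux hH u z' v f B c (max c y') (c + y + y' + 1) hbm hc1 hcz'
      (fun k => (hy1' k).trans_le (le_max_right _ _)) (le_max_left _ _)
      (fun a => max_le (hcv a) (hyv' a)) (by omega) (by omega) t ht]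
  refine h (f + c) (f + (c + y + y' + 1)) (f + (c + y + y' + 1)) (by omega) (by omega)
    (fun k => ?_) (fun k => ?_) (fun j => cxt f B u v (t j)) ⟨?_, ?_⟩
  · have := hy1 k
    omega
  · have := hy1' k
    omega
  · intro j a hj
    rcases htj : t j with a' | p | (a' | k | a') | p <;>
      simp only [htj, cxt, Sum.elim_inl, Sum.elim_inr, Sum.inl.injEq, reduceCtorEq] at hj
    rw [← hj]
    exact ht.1 j a' htj
  · intro j p hj
    rcases htj : t j with a' | p' | (a' | k | a') | p' <;>
      simp only [htj, cxt, Sum.elim_inl, Sum.elim_inr, Sum.inr.injEq, Sum.inl.injEq,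
        reduceCtorEq] at hj
    · rw [← hj]
      exact (ht.2 j p' htj).trans_le (by omega)
    · rw [← hj]
      have := hc1 a'
      simp only at this ⊢
      omega

/-- CP with nothing in front, and different positions of `v` (relocate, `Teq.relocOn`, to a common
position behind `z` and `z'`) -/
theorem cp_back (hH : Hom N A e) [Finite κ] [Finite κ''] {z z' : κ → ℕ × ι}
    (h : Teq N A e z z') {v v' : κ'' → ℕ × ι} (h' : Teq N A e v v')
    (hzv : ∀ k a, (z k).1 < (v a).1) (hzv' : ∀ k a, (z' k).1 < (v' a).1) :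
    Teq N A e (Sum.elim z v) (Sum.elim z' v') := by
  classical
  obtain ⟨y, hy1, -⟩ := cp_tight (fun k => (z k).1)
  obtain ⟨y', hy1', -⟩ := cp_tight (fun k => (z' k).1)
  let s : ℕ := y + y'
  let v₁ : κ'' → ℕ × ι := fun k => (s + (v k).1, (v k).2)
  let v₁' : κ'' → ℕ × ι := fun k => (s + (v' k).1, (v' k).2)
  have hs : ∀ k, (z k).1 < s := fun k => by
    have := hy1 k
    simp only [s] at this ⊢
    omega
  have hs' : ∀ k, (z' k).1 < s := fun k => by
    have := hy1' k
    simp only [s] at this ⊢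
    omega
  have e1 : Teq N A e (Sum.elim z v) (Sum.elim z v₁) := by
    refine teq_pat hH _ _ ?_ ?_
    · rintro (k | k) <;> rfl
    · rintro (k | k) (k' | k') <;> simp only [Sum.elim_inl, Sum.elim_inr, v₁]
      · have h1 := hzv k k'
        have h2 := hs k
        omega
      · have h1 := hzv k' k
        have h2 := hs k'
        omega
      · omega
  have e4 : Teq N A e (Sum.elim z' v₁') (Sum.elim z' v') := by
    refine (teq_pat hH _ _ ?_ ?_ : Teq N A e (Sum.elim z' v') (Sum.elim z' v₁')).symm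
    · rintro (k | k) <;> rfl
    · rintro (k | k) (k' | k') <;> simp only [Sum.elim_inl, Sum.elim_inr, v₁']
      · have h1 := hzv' k k'
        have h2 := hs' k
        omega
      · have h1 := hzv' k' k
        have h2 := hs' k'
        omega
      · omega
  have hv₁ : Teq N A e v₁ v₁' := by
    have g1 : Teq N A e v v₁ := teq_pat hH _ _ (fun _ => rfl) (fun k k' => by
      simp only [v₁]; omega)
    have g2 : Teq N A e v' v₁' := teq_pat hH _ _ (fun _ => rfl) (fun k k' => by
      simp only [v₁']; omega)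
    exact (g1.symm.trans h').trans g2
  have e2 : Teq N A e (Sum.elim z v₁) (Sum.elim z' v₁) := by
    have g1 := cp hH h (fun k : Empty => k.elim) v₁ (fun a => a.elim) (fun a => a.elim)
      (fun k a => by
        have := hs k
        simp only [v₁]
        omega) (fun k a => by
        have := hs' k
        simp only [v₁]
        omega) (fun a => a.elim)
    have g2 := g1.comp hH (fun k : κ ⊕ κ'' => Sum.inr k)
    exact g2
  have e3 : Teq N A e (Sum.elim z' v₁) (Sum.elim z' v₁') := by
    have g1 := cp hH hv₁ z' (fun k : Empty => k.elim) (fun a k => by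
        have := hs' a
        simp only [v₁]
        omega) (fun a k => by
        have := hs' a
        simp only [v₁']
        omega) (fun _ a => a.elim) (fun _ a => a.elim) (fun _ a => a.elim)
    have g2 := g1.comp hH (fun k : κ ⊕ κ'' => Sum.map id Sum.inl k)
    have h1 : ∀ v : κ'' → ℕ × ι, (fun k : κ ⊕ κ'' => Sum.elim z' (Sum.elim v
        (fun k : Empty => (k.elim : ℕ × ι))) (Sum.map id Sum.inl k)) = Sum.elim z' v := by
      intro v
      funext k
      rcases k with k | k <;> rfl
    rw [h1, h1] at g2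
    exact g2
  exact ((e1.trans e2).trans e3).trans e4

/-- the same with the blocks of the second configuration in front -/
theorem cp_front (hH : Hom N A e) [Finite κ] [Finite κ''] {z z' : κ → ℕ × ι}
    (h : Teq N A e z z') {v v' : κ'' → ℕ × ι} (h' : Teq N A e v v')
    (hzv : ∀ k a, (v a).1 < (z k).1) (hzv' : ∀ k a, (v' a).1 < (z' k).1) :
    Teq N A e (Sum.elim z v) (Sum.elim z' v') := by
  have h1 := (cp_back hH h' h (fun a k => hzv k a) (fun a k => hzv' k a)).comp hH
    (Sum.swap : κ ⊕ κ'' → κ'' ⊕ κ)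
  have h2 : ∀ (z : κ → ℕ × ι) (v : κ'' → ℕ × ι),
      (fun k : κ ⊕ κ'' => Sum.elim v z (Sum.swap k)) = Sum.elim z v := by
    intro z v
    funext k
    rcases k with k | k <;> rfl
  rw [h2, h2] at h1
  exact h1

end Pool.H17.TA
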