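import Pool.Agent.H22.VC.Defs

/-!
# Strong Vaught for hereditary classes in all arities : homogeneous block sequences

`N : Col r K ℕ` is a structure on `ℕ` (colouring of `r`-tuples, entries may repeat), `A ⊆ ℕ` a set
of constants, `e : ℕ → ι → ℕ` a sequence of blocks with letters `ι`. A *configuration* is a map
`z : κ → ℕ × ι` (`(i, c)` is the letter `c` of the block `i`), `κ` finite.
-/

set_option autoImplicit false

namespace Pool.H17.TA

open Pool.H22.VC Function Set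

variable {r : ℕ} {K ι κ κ' : Type}

/-- evaluation of a constant or of a letter of a block -/
def ev (e : ℕ → ι → ℕ) : ℕ ⊕ (ℕ × ι) → ℕ := Sum.elim id (fun p => e p.1 p.2)

/-- relocation of the blocks -/
def sh (φ : ℕ → ℕ) : ℕ ⊕ (ℕ × ι) → ℕ ⊕ (ℕ × ι) := Sum.map id (fun p => (φ p.1, p.2))

/-- `e` is a homogeneous block sequence over `A`: injective, disjoint from `A`, and the colour of a
tuple of elements of `A` and of letters does not change under strictly monotone relocation of the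
blocks. -/
structure Hom (N : Col r K ℕ) (A : Set ℕ) (e : ℕ → ι → ℕ) : Prop where
  inj : ∀ i j c d, e i c = e j d → i = j ∧ c = d
  notA : ∀ i c, e i c ∉ A
  hom : ∀ φ : ℕ → ℕ, StrictMono φ → ∀ t : Fin r → ℕ ⊕ (ℕ × ι),
    (∀ j a, t j = Sum.inl a → a ∈ A) →
      N (fun j => ev e (sh φ (t j))) = N (fun j => ev e (t j))

/-- Evaluation in a context: constants, blocks in front (as they are), the configuration `z`
shifted by `f`, blocks behind (shifted by `b`). -/
def pl (e : ℕ → ι → ℕ) (f b : ℕ) (z : κ → ℕ × ι) : ℕ ⊕ ((ℕ × ι) ⊕ (κ ⊕ (ℕ × ι))) → ℕ :=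
  Sum.elim id (Sum.elim (fun p => e p.1 p.2)
    (Sum.elim (fun k => e (f + (z k).1) (z k).2) (fun p => e (b + p.1) p.2)))

/-- Admissible contexts: constants in `A`, blocks in front have numbers below `f`. -/
def Adm (A : Set ℕ) (f : ℕ) (t : Fin r → ℕ ⊕ ((ℕ × ι) ⊕ (κ ⊕ (ℕ × ι)))) : Prop :=
  (∀ j a, t j = Sum.inl a → a ∈ A) ∧ ∀ j p, t j = Sum.inr (Sum.inl p) → p.1 < f

/-- The configurations `z` and `z'` have the same type over `A`, over the blocks in front of them
and over the blocks behind them (points at infinity). -/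
def Teq (N : Col r K ℕ) (A : Set ℕ) (e : ℕ → ι → ℕ) (z z' : κ → ℕ × ι) : Prop :=
  ∀ f b b' : ℕ, f ≤ b → f ≤ b' → (∀ k, f + (z k).1 < b) → (∀ k, f + (z' k).1 < b') →
    ∀ t : Fin r → ℕ ⊕ ((ℕ × ι) ⊕ (κ ⊕ (ℕ × ι))), Adm A f t →
      N (fun j => pl e f b z (t j)) = N (fun j => pl e f b' z' (t j))

/-- the tuple of letters `τ` in the block `i` -/
def blk (i : ℕ) (τ : κ → ι) : κ → ℕ × ι := fun k => (i, τ k)

/-- restriction of a map to a subset of the labels -/
def res {β : Type} (s : Set κ) (z : κ → β) : s → β := fun k => z k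

/-- The letter tuples `τ`, `τ'` commute: their order is invisible. -/
def Perp (N : Col r K ℕ) (A : Set ℕ) (e : ℕ → ι → ℕ) (τ : κ → ι) (τ' : κ' → ι) : Prop :=
  Teq N A e (Sum.elim (blk 0 τ) (blk 1 τ')) (Sum.elim (blk 1 τ) (blk 0 τ'))

/-- Chain atom: an injective letter tuple which does not commute with itself, all proper pairs of
subtuples commute. -/
structure CA (N : Col r K ℕ) (A : Set ℕ) (e : ℕ → ι → ℕ) (τ : κ → ι) : Prop where
  inj : Injective τ
  nperp : ¬ Perp N A e τ τ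
  min : ∀ s s' : Set κ, (s ≠ univ ∨ s' ≠ univ) → Perp N A e (res s τ) (res s' τ)

/-- `τ` is before `τ'` inside a block. -/
def Prec (N : Col r K ℕ) (A : Set ℕ) (e : ℕ → ι → ℕ) (τ : κ → ι) (τ' : κ' → ι) : Prop :=
  Teq N A e (Sum.elim (blk 0 τ) (blk 0 τ')) (Sum.elim (blk 0 τ) (blk 1 τ'))

/-- `L` is (the set of labels of) a full chain atom of the configuration `z`. -/
def IsAt (N : Col r K ℕ) (A : Set ℕ) (e : ℕ → ι → ℕ) (z : κ → ℕ × ι) (L : Set κ) : Prop :=
  ∃ τ : L → ι, CA N A e τ ∧ Teq N A e (res L z) (blk 0 τ)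

/-- the tuples of type `τ` inside the domain `D` -/
def XT (N : Col r K ℕ) (A : Set ℕ) (e : ℕ → ι → ℕ) (τ : κ → ι) (D : Set (ℕ × ι)) :
    Set (κ → ℕ × ι) :=
  {z | Injective z ∧ (∀ k, z k ∈ D) ∧ Teq N A e z (blk 0 τ)}

/-- `g` is a bijection of `D` onto `D'` which preserves all types. -/
def Pres (N : Col r K ℕ) (A : Set ℕ) (e : ℕ → ι → ℕ) (g : ℕ × ι → ℕ × ι)
    (D D' : Set (ℕ × ι)) : Prop :=
  BijOn g D D' ∧ ∀ (n : ℕ) (z : Fin n → ℕ × ι), Injective z → (∀ k, z k ∈ D) →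
    Teq N A e z (fun k => g (z k))

end Pool.H17.TA
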