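import Pool.Agent.H17.TA.C6

/-!
# Atoms of a configuration
-/

set_option autoImplicit false

namespace Pool.H17.TA

open Pool.H22.VC Function Set

variable {r : ℕ} {K ι κ κ' κ'' : Type} {N : Col r K ℕ} {A : Set ℕ} {e : ℕ → ι → ℕ}

/-- the letters of the configuration `z` at the labels `L` -/
def lt' (z : κ → ℕ × ι) (L : Set κ) : L → ι := fun k => (z k).2

private theorem res_eq_blk {z : κ → ℕ × ι} {L : Set κ} {i : ℕ} (h : ∀ k ∈ L, (z k).1 = i) :
    res L z = blk i (lt' z L) := by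
  funext k
  exact Prod.ext (h k k.2) rfl

private theorem disj_of_ne {z : κ → ℕ × ι} (hz : Injective z) {L L' : Set κ} {i : ℕ}
    (h : ∀ k ∈ L, (z k).1 = i) (h' : ∀ k ∈ L', (z k).1 = i) (hd : Disjoint L L') :
    Disjoint (range (lt' z L)) (range (lt' z L')) := by
  rw [Set.disjoint_left]
  rintro x ⟨k, rfl⟩ ⟨k', hk'⟩
  have h1 : z k' = z k := Prod.ext ((h' k' k'.2).trans (h k k.2).symm) hk'
  have h2 := hz h1
  exact Set.disjoint_left.1 hd k.2 (h2 ▸ k'.2)

/-- atoms of a configuration are equal or disjoint (`c3` in the same block) -/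
theorem IsAt.eq_or_disjoint (hW : ¬ Wild N univ) (hH : Hom N A e) (hA : A.Finite) [Finite ι]
    [Finite κ] {z : κ → ℕ × ι} (hz : Injective z) {L L' : Set κ} (h : IsAt N A e z L)
    (h' : IsAt N A e z L') : L = L' ∨ Disjoint L L' := by
  classical
  by_cases hd : Disjoint L L'
  · exact Or.inr hd
  left
  rw [Set.not_disjoint_iff] at hd
  obtain ⟨k0, hk0, hk0'⟩ := hd
  obtain ⟨i, hi, hca, -⟩ := h.ca hH hz
  obtain ⟨j, hj, hca', -⟩ := h'.ca hH hz
  have hij : i = j := (hi k0 hk0).symm.trans (hj k0 hk0')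
  subst hij
  have hr : range (lt' z L) = range (lt' z L') :=
    c3 hW hH hA hca hca' ⟨(z k0).2, ⟨⟨k0, hk0⟩, rfl⟩, ⟨⟨k0, hk0'⟩, rfl⟩⟩
  have hsub : ∀ M M' : Set κ, (∀ k ∈ M, (z k).1 = i) → (∀ k ∈ M', (z k).1 = i) →
      range (lt' z M) ⊆ range (lt' z M') → M ⊆ M' := by
    intro M M' hM hM' hs k hk
    obtain ⟨k', hk'⟩ := hs ⟨⟨k, hk⟩, rfl⟩
    have h1 : z k' = z k := Prod.ext ((hM' k' k'.2).trans (hM k hk).symm) hk'
    exact hz h1 ▸ k'.2
  exact Subset.antisymm (hsub L L' hi hj hr.le) (hsub L' L hj hi hr.ge)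

/-- similar atoms of a configuration are comparable (`bef_of_lt`, `c5`) -/
theorem IsAt.total (hW : ¬ Wild N univ) (hH : Hom N A e) (hA : A.Finite) [Finite ι]
    [Finite κ] {z : κ → ℕ × ι} (hz : Injective z) {L L' : Set κ} (h : IsAt N A e z L)
    (h' : IsAt N A e z L') (hs : Sim N A e (lt' z L) (lt' z L')) (hne : L ≠ L') :
    Bef N A e (res L z) (res L' z) ∨ Bef N A e (res L' z) (res L z) := by
  classical
  have hd : Disjoint L L' := (IsAt.eq_or_disjoint hW hH hA hz h h').resolve_left hne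
  obtain ⟨i, hi, hca, -⟩ := h.ca hH hz
  obtain ⟨j, hj, hca', -⟩ := h'.ca hH hz
  rcases lt_trichotomy i j with hij | hij | hij
  · left
    refine bef_of_lt hH fun k k' => ?_
    show (z k).1 < (z k').1
    rw [hi k k.2, hj k' k'.2]
    exact hij
  · subst hij
    rw [res_eq_blk hi, res_eq_blk hj, bef_blk_iff hH, bef_blk_iff hH]
    exact c5 hW hH hA hca hca' hs (disj_of_ne hz hi hj hd)
  · right
    refine bef_of_lt hH fun k k' => ?_
    show (z k).1 < (z k').1
    rw [hj k k.2, hi k' k'.2]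
    exact hij

/-- not both (`Bef.asymm`) -/
theorem IsAt.asymm (hH : Hom N A e) [Finite κ] {z : κ → ℕ × ι} (hz : Injective z)
    {L L' : Set κ} (h : IsAt N A e z L)
    (h' : IsAt N A e z L') (hs : Sim N A e (lt' z L) (lt' z L'))
    (hb : Bef N A e (res L z) (res L' z)) : ¬ Bef N A e (res L' z) (res L z) := by
  obtain ⟨i, hi, hca, -⟩ := h.ca hH hz
  obtain ⟨j, hj, hca', -⟩ := h'.ca hH hz
  refine Bef.asymm hH (τ := lt' z L) (τ' := lt' z L') (CA.not_perp hH hca hs) ?_ ?_ hb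
  · rw [res_eq_blk hi]
    exact teq_blk hH i 0 _
  · rw [res_eq_blk hj]
    exact teq_blk hH j 0 _

/-- transitivity (`bef_iff_lt` and `c6` in the same block) -/
theorem IsAt.trans (hW : ¬ Wild N univ) (hH : Hom N A e) (hA : A.Finite) [Finite ι]
    [Finite κ] {z : κ → ℕ × ι} (hz : Injective z) {L L' L'' : Set κ} (h : IsAt N A e z L)
    (h' : IsAt N A e z L') (h'' : IsAt N A e z L'') (hs : Sim N A e (lt' z L) (lt' z L'))
    (hs' : Sim N A e (lt' z L') (lt' z L'')) (hb : Bef N A e (res L z) (res L' z))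
    (hb' : Bef N A e (res L' z) (res L'' z)) : Bef N A e (res L z) (res L'' z) := by
  classical
  have hself : ∀ M : Set κ, IsAt N A e z M → ¬ Bef N A e (res M z) (res M z) :=
    fun M hM hb => IsAt.asymm hH hz hM hM (Sim.refl hH _) hb hb
  have hne1 : L ≠ L' := by
    rintro rfl
    exact hself L h hb
  have hne2 : L' ≠ L'' := by
    rintro rfl
    exact hself L' h' hb'
  have hne3 : L ≠ L'' := by
    rintro rfl
    exact IsAt.asymm hH hz h h' hs hb hb'
  have d12 := (IsAt.eq_or_disjoint hW hH hA hz h h').resolve_left hne1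
  have d23 := (IsAt.eq_or_disjoint hW hH hA hz h' h'').resolve_left hne2
  have d13 := (IsAt.eq_or_disjoint hW hH hA hz h h'').resolve_left hne3
  obtain ⟨i, hi, hca, -⟩ := h.ca hH hz
  obtain ⟨j, hj, hca', -⟩ := h'.ca hH hz
  obtain ⟨l, hl, hca'', -⟩ := h''.ca hH hz
  rw [res_eq_blk hi, res_eq_blk hj] at hb
  rw [res_eq_blk hj, res_eq_blk hl] at hb'
  have hij : i ≤ j := by
    rcases eq_or_ne i j with h1 | h1
    · exact h1.le
    · exact ((bef_iff_lt hH (CA.not_perp hH hca hs) h1).1 hb).le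
  have hjl : j ≤ l := by
    rcases eq_or_ne j l with h1 | h1
    · exact h1.le
    · exact ((bef_iff_lt hH (CA.not_perp hH hca' hs') h1).1 hb').le
  rcases (hij.trans hjl).lt_or_eq with hil | hil
  · refine bef_of_lt hH fun k k' => ?_
    show (z k).1 < (z k').1
    rw [hi k k.2, hl k' k'.2]
    exact hil
  · have e1 : j = i := le_antisymm (hil ▸ hjl) hij
    subst e1
    subst hil
    rw [bef_blk_iff hH] at hb hb'
    rw [res_eq_blk hi, res_eq_blk hl, bef_blk_iff hH]
    exact c6 hW hH hA hca hca' hca'' hs (Sim.trans hH hs hs') (disj_of_ne hz hi hj d12)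
      (disj_of_ne hz hi hl d13) (disj_of_ne hz hj hl d23) hb hb'

/-- similarity of atoms depends on the types only -/
theorem sim_of_teq (hH : Hom N A e) [Finite κ] [Finite κ'] {z w : κ → ℕ × ι} (hz : Injective z)
    (hw : Injective w) {L L' : Set κ} (h : IsAt N A e z L) (h' : IsAt N A e z L')
    (hL : Teq N A e (res L z) (res L w)) (hL' : Teq N A e (res L' z) (res L' w)) :
    Sim N A e (lt' z L) (lt' z L') ↔ Sim N A e (lt' w L) (lt' w L') := by
  have key : ∀ M : Set κ, IsAt N A e z M → Teq N A e (res M z) (res M w) →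
      Teq N A e (blk 0 (lt' z M)) (blk 0 (lt' w M)) := by
    intro M hM hT
    have hMw : IsAt N A e w M := by
      obtain ⟨τ, hτ, hτ'⟩ := hM
      exact ⟨τ, hτ, hT.symm.trans hτ'⟩
    obtain ⟨i, hi, -, -⟩ := hM.ca hH hz
    obtain ⟨j, hj, -, -⟩ := hMw.ca hH hw
    rw [res_eq_blk hi, res_eq_blk hj] at hT
    exact (teq_blk hH 0 i _).trans (hT.trans (teq_blk hH j 0 _))
  have ha := key L h hL
  have hb := key L' h' hL'
  constructor
  · rintro ⟨σ, hσ⟩
    exact ⟨σ, ha.symm.trans (hσ.trans (Teq.comp hH hb σ))⟩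
  · rintro ⟨σ, hσ⟩
    exact ⟨σ, ha.trans (hσ.trans (Teq.comp hH hb.symm σ))⟩

end Pool.H17.TA
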