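import Pool.Agent.H17.TA.Split1

/-!
# SPLIT
-/

set_option autoImplicit false

namespace Pool.H17.TA

open Pool.H22.VC Function Set

variable {r : ℕ} {K ι κ κ' κ'' : Type} {N : Col r K ℕ} {A : Set ℕ} {e : ℕ → ι → ℕ}

/-- `Sim` after renaming the labels -/
theorem Sim.equiv_left (hH : Hom N A e) [Finite κ] [Finite κ'] [Finite κ''] {τ : κ → ι}
    {ρ : κ' → ι} (h : Sim N A e ρ τ) (E : κ'' ≃ κ') : Sim N A e (fun k => ρ (E k)) τ := by
  obtain ⟨E2, hE2⟩ := h
  exact ⟨E.trans E2, hE2.comp hH E⟩

/-- `Prec` after renaming the labels -/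
theorem prec_of_equiv (hH : Hom N A e) [Finite κ] [Finite κ'] [Finite κ''] {τ : κ → ι}
    {ρ : κ' → ι} (E : κ'' ≃ κ') (h : Prec N A e (fun k => ρ (E k)) τ) : Prec N A e ρ τ := by
  have g1 := Teq.comp hH h (Sum.map E.symm (id : κ → κ))
  have e1 : (fun k : κ' ⊕ κ => (Sum.elim (blk 0 (fun k => ρ (E k))) (blk 0 τ))
      (Sum.map E.symm (id : κ → κ) k)) = Sum.elim (blk 0 ρ) (blk 0 τ) := by
    funext k
    rcases k with k | k
    · show (0, ρ (E (E.symm k))) = _
      rw [E.apply_symm_apply]
      rfl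
    · rfl
  have e2 : (fun k : κ' ⊕ κ => (Sum.elim (blk 0 (fun k => ρ (E k))) (blk 1 τ))
      (Sum.map E.symm (id : κ → κ) k)) = Sum.elim (blk 0 ρ) (blk 1 τ) := by
    funext k
    rcases k with k | k
    · show (0, ρ (E (E.symm k))) = _
      rw [E.apply_symm_apply]
      rfl
    · rfl
  rw [e1, e2] at g1
  exact g1

/-- a set of labels of a set of labels is a set of labels -/
theorem image_equiv (S : Set κ') (s : Set S) : ∃ E : ((fun k : S => (k : κ')) '' s : Set κ') ≃ s,
    ∀ k, ((E k : S) : κ') = k := by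
  have hmem : ∀ k : ((fun k : S => (k : κ')) '' s : Set κ'), ∃ hk : (k : κ') ∈ S,
      (⟨k, hk⟩ : S) ∈ s := by
    rintro ⟨k, hk⟩
    obtain ⟨a, ha, hak⟩ := hk
    subst hak
    exact ⟨a.2, ha⟩
  refine ⟨Equiv.ofBijective (fun k => (⟨⟨k, (hmem k).1⟩, (hmem k).2⟩ : s)) ⟨?_, ?_⟩, fun k => rfl⟩
  · intro k k' hkk
    apply Subtype.ext
    exact congrArg (fun a : s => ((a : S) : κ')) hkk
  · rintro ⟨a, ha⟩
    exact ⟨⟨(a : κ'), ⟨a, ha, rfl⟩⟩, rfl⟩

private theorem split_hyp (hH : Hom N A e) [Finite κ] [Finite κ'] {τ : κ → ι} {σ : κ' → ι}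
    (h : ∀ s : Set κ', CA N A e (res s σ) → Sim N A e (res s σ) τ → Prec N A e (res s σ) τ)
    (S : Set κ') (s : Set S) (h1 : CA N A e (res s (res S σ)))
    (h2 : Sim N A e (res s (res S σ)) τ) : Prec N A e (res s (res S σ)) τ := by
  obtain ⟨E, hE⟩ := image_equiv S s
  have eE : (fun k => res s (res S σ) (E k)) = res ((fun k : S => (k : κ')) '' s) σ := by
    funext k
    show σ ((E k : S) : κ') = _
    rw [hE]
    rfl
  have g1 := h1.equiv hH E
  have g2 := h2.equiv_left hH E
  rw [eE] at g1 g2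
  have g3 := h _ g1 g2
  rw [← eE] at g3
  exact prec_of_equiv hH E g3

private theorem split_elim (i : ℕ) (η : κ' → ι) (ζ : κ → ι) :
    Sum.elim (blk i η) (blk i ζ) = blk i (Sum.elim η ζ) := by
  funext k
  rcases k with k | k <;> rfl

private theorem split_main (hW : ¬ Wild N univ) (hH : Hom N A e) (hA : A.Finite) [Finite ι]
    [Finite κ] [Finite κ'] {τ : κ → ι} (hτ : CA N A e τ) {σ : κ' → ι} (hσ : Injective σ)
    (hd : Disjoint (range σ) (range τ))
    (h : ∀ s : Set κ', CA N A e (res s σ) → Sim N A e (res s σ) τ → Prec N A e (res s σ) τ)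
    (hmin : ∀ s : Set κ', s ≠ univ → Prec N A e (res s σ) τ) (hne : Nonempty κ') :
    Prec N A e σ τ := by
  classical
  by_contra hnot
  have hκ := hτ.nonempty hH
  have hcσ : (range σ).ncard = Nat.card κ' := by
    rw [← Set.image_univ, Set.ncard_image_of_injective _ hσ, Set.ncard_univ]
  have hcτ : (range τ).ncard = Nat.card κ := by
    rw [← Set.image_univ, Set.ncard_image_of_injective _ hτ.inj, Set.ncard_univ]
  obtain ⟨P, hPd⟩ : ∃ P : Set (ℕ × ι) → (κ → ℕ × ι) → Prop, P = fun D z =>
      ∃ y : κ' → ℕ × ι, Injective (Sum.elim y z) ∧ (∀ k, y k ∈ D) ∧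
        Teq N A e (Sum.elim y z) (Sum.elim (blk 0 σ) (blk 0 τ)) := ⟨_, rfl⟩
  obtain ⟨Q, hQd⟩ : ∃ Q : Set ι → (κ → ι) → Prop, Q = fun S ζ =>
      ∃ η : κ' → ι, Injective (Sum.elim η ζ) ∧ (∀ k, η k ∈ S) ∧
        Teq N A e (Sum.elim (blk 0 η) (blk 0 ζ)) (Sum.elim (blk 0 σ) (blk 0 τ)) := ⟨_, rfl⟩
  have hsmall : ∀ S : Set ι, S.ncard < Nat.card κ' + Nat.card κ → cQ N A e τ Q S = 0 := by
    intro S hS
    unfold cQ
    rw [Set.ncard_eq_zero (Set.toFinite _)]
    rw [Set.eq_empty_iff_forall_notMem]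
    rintro ζ ⟨hζ1, hζ2, hζ3, hζ4⟩
    rw [hQd] at hζ4
    obtain ⟨η, hη1, hη2, hη3⟩ := hζ4
    have h1 : (range (Sum.elim η ζ)).ncard = Nat.card (κ' ⊕ κ) := by
      rw [← Set.image_univ, Set.ncard_image_of_injective _ hη1, Set.ncard_univ]
    have h2 : range (Sum.elim η ζ) ⊆ S := by
      rintro _ ⟨k | k, rfl⟩
      · exact hη2 k
      · exact hζ2 k
    have h3 := Set.ncard_le_ncard h2 (Set.toFinite _)
    rw [h1, Nat.card_sum] at h3
    omega
  have hc1 : 0 < Nat.card κ := Nat.card_pos
  have hc2 : 0 < Nat.card κ' := Nat.card_pos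
  refine mark hW hH hA hτ P Q ?_ ?_ 2
    (fun b => if b then [range σ ∪ range τ, ∅] else [range σ, range τ]) ?_ ?_ ?_
  · intro g D D' z hg hz hPz
    rw [hPd] at hPz ⊢
    obtain ⟨y, hy1, hy2, hy3⟩ := hPz
    have hD : ∀ k, Sum.elim y z k ∈ D := by
      rintro (k | k)
      · exact hy2 k
      · exact hz.2.1 k
    have eg : (Sum.elim (fun k => g (y k)) (fun k => g (z k))) = fun k => g (Sum.elim y z k) := by
      funext k
      rcases k with k | k <;> rfl
    refine ⟨fun k => g (y k), ?_, fun k => hg.1.mapsTo (hy2 k), ?_⟩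
    · rw [eg]
      intro k k' hkk
      exact hy1 (hg.1.injOn (hD k) (hD k') hkk)
    · rw [eg]
      exact (hg.teq hH _ hD).symm.trans hy3
  · intro B i ζ hζ
    rw [hPd, hQd]
    constructor
    · rintro ⟨y, hy1, hy2, hy3⟩
      have hyi : Injective y := fun k k' hkk => Sum.inl_injective (hy1 hkk)
      have hall : ∀ k, (y k).1 = i := by
        intro k
        by_contra hk
        exact hnot (split_step hW hH hA hτ hσ h hmin y hyi i ζ hy3 ⟨k, hk⟩)
      have ey : y = blk i (fun k => (y k).2) := by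
        funext k
        exact Prod.ext (hall k) rfl
      refine ⟨fun k => (y k).2, ?_, ?_, ?_⟩
      · rw [ey, split_elim] at hy1
        intro k k' hkk
        exact hy1 (Prod.ext rfl hkk)
      · intro k
        have := hy2 k
        rw [ey] at this
        exact this
      · rw [ey, split_elim] at hy3
        rw [split_elim]
        exact (teq_blk hH 0 i _).trans hy3
    · rintro ⟨η, hη1, hη2, hη3⟩
      refine ⟨blk i η, ?_, fun k => hη2 k, ?_⟩
      · rw [split_elim]
        intro k k' hkk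
        exact hη1 (congrArg Prod.snd hkk)
      · rw [split_elim] at hη3 ⊢
        exact (teq_blk hH i 0 _).trans hη3
  · intro b
    cases b <;> rfl
  · show cX N A e τ (range σ) + (cX N A e τ (range τ) + 0) =
      cX N A e τ (range σ ∪ range τ) + (cX N A e τ ∅ + 0)
    rw [cX_split hW hH hA hτ hτ (range σ) hd, cX_empty hH hτ]
    omega
  · show cQ N A e τ Q (range σ) + (cQ N A e τ Q (range τ) + 0) ≠
      cQ N A e τ Q (range σ ∪ range τ) + (cQ N A e τ Q ∅ + 0)
    rw [hsmall (range σ) (by omega), hsmall (range τ) (by omega)]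
    have hpos : 0 < cQ N A e τ Q (range σ ∪ range τ) := by
      unfold cQ
      rw [Set.ncard_pos (Set.toFinite _)]
      refine ⟨τ, hτ.inj, fun k => Or.inr (mem_range_self k), Teq.refl hH _, ?_⟩
      rw [hQd]
      refine ⟨σ, ?_, fun k => Or.inl (mem_range_self k), Teq.refl hH _⟩
      rintro (k | k) (k' | k') hkk
      · exact congrArg Sum.inl (hσ hkk)
      · exact absurd (mem_range_self k) (fun hk => Set.disjoint_left.1 hd hk
          (by rw [show σ k = τ k' from hkk]; exact mem_range_self k'))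
      · exact absurd (mem_range_self k') (fun hk => Set.disjoint_left.1 hd hk
          (by rw [show σ k' = τ k from hkk.symm]; exact mem_range_self k))
      · exact congrArg Sum.inr (hτ.inj hkk)
    omega

/-- SPLIT. PROOF. Strong induction on the number of letters of `σ`: so `Prec (res s σ) τ` for all
proper `s` (the hypothesis `h` passes to subtuples). `σ` is not empty (otherwise the claim is
relocation). Suppose `¬ Prec σ τ`. `mark` for `τ` with `n = 2`, `l true = [J ∪ L, ∅]`,
`l false = [J, L]`, `J = range σ`, `L = range τ` (`cX_split`, `cX_empty`). The property `P` of `z`: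
there is an injective configuration `y` in the domain such that `(y, z)` is injective and has the
type of `((0, σ), (0, τ))`. It is block-local by `split_step`. In `J ∪ L`: `τ` itself, with
`y = σ`. In `J` and in `L` there are fewer letters than needed. -/
theorem split (hW : ¬ Wild N univ) (hH : Hom N A e) (hA : A.Finite) [Finite ι] [Finite κ]
    [Finite κ'] {τ : κ → ι} (hτ : CA N A e τ) {σ : κ' → ι} (hσ : Injective σ)
    (hd : Disjoint (range σ) (range τ))
    (h : ∀ s : Set κ', CA N A e (res s σ) → Sim N A e (res s σ) τ → Prec N A e (res s σ) τ) :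
    Prec N A e σ τ := by
  have key : ∀ n : ℕ, ∀ (κ'' : Type) (_ : Finite κ'') (σ : κ'' → ι), Nat.card κ'' = n →
      Injective σ → Disjoint (range σ) (range τ) →
      (∀ s : Set κ'', CA N A e (res s σ) → Sim N A e (res s σ) τ → Prec N A e (res s σ) τ) →
      Prec N A e σ τ := by
    intro n
    induction n using Nat.strong_induction_on with
    | _ n ih =>
      intro κ'' hf σ hn hσ hd h
      have hmin : ∀ s : Set κ'', s ≠ univ → Prec N A e (res s σ) τ := by
        intro s hs
        have hlt : Nat.card s < n := by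
          rw [← hn, Nat.card_coe_set_eq, ← Set.ncard_univ]
          exact Set.ncard_lt_ncard (Set.ssubset_univ_iff.2 hs) (Set.toFinite _)
        refine ih _ hlt s inferInstance (res s σ) rfl
          (fun k k' hkk => Subtype.ext (hσ hkk)) ?_ (split_hyp hH h s)
        refine hd.mono_left ?_
        rintro _ ⟨k, rfl⟩
        exact mem_range_self _
      rcases isEmpty_or_nonempty κ'' with he | hne
      · refine teq_pat hH _ _ ?_ ?_
        · rintro (k | k)
          · exact he.elim k
          · rfl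
        · rintro (k | k) (k' | k')
          · exact he.elim k
          · exact he.elim k
          · exact he.elim k'
          · show (0 : ℕ) < 0 ↔ (1 : ℕ) < 1
            omega
      · exact split_main hW hH hA hτ hσ hd h hmin hne
  exact key _ κ' inferInstance σ rfl hσ hd h

end Pool.H17.TA
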