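import Pool.Agent.H17.TA.Fl1
import Pool.Agent.H17.TA.Split

/-!
# EXT : the last atom of its kind can be moved behind the rest
-/

set_option autoImplicit false

namespace Pool.H17.TA

open Pool.H22.VC Function Set

variable {r : ℕ} {K ι κ κ' κ'' : Type} {N : Col r K ℕ} {A : Set ℕ} {e : ℕ → ι → ℕ}

/-- Chain atoms among the letters of a block part of `z` are atoms of `z`. -/
private theorem fl2_atom (hH : Hom N A e) [Finite κ] [Finite κ'] [Finite κ''] {z : κ → ℕ × ι}
    (f : κ' → κ) (hf : Injective f) (j : ℕ) (hj : ∀ k, (z (f k)).1 = j) (s : Set κ')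
    (h : CA N A e (res s (fun k => (z (f k)).2))) (ζ : κ'' → ι) :
    IsAt N A e z (f '' s) ∧ CA N A e (lt' z (f '' s)) ∧ res (f '' s) z = blk j (lt' z (f '' s)) ∧
      (Sim N A e (res s (fun k => (z (f k)).2)) ζ → Sim N A e (lt' z (f '' s)) ζ) ∧
      (Prec N A e (lt' z (f '' s)) ζ → Prec N A e (res s (fun k => (z (f k)).2)) ζ) := by
  have hblk : ∀ k ∈ f '' s, (z k).1 = j := by
    rintro _ ⟨k, _, rfl⟩
    exact hj k
  obtain ⟨E, hE⟩ : ∃ E : (f '' s : Set κ) ≃ s, ∀ k, f (E k) = k :=
    ⟨(Equiv.Set.image f s hf).symm, fun k =>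
      congrArg Subtype.val ((Equiv.Set.image f s hf).apply_symm_apply k)⟩
  have eE : (fun k => res s (fun k => (z (f k)).2) (E k)) = lt' z (f '' s) := by
    funext k
    show (z (f (E k))).2 = _
    rw [hE]
    rfl
  have hca : CA N A e (lt' z (f '' s)) := by
    have g1 := h.equiv hH E
    rw [eE] at g1
    exact g1
  refine ⟨isAt_of_ca hH hblk hca, hca, ?_, ?_, ?_⟩
  · funext k
    exact Prod.ext (hblk k k.2) rfl
  · intro g
    have g1 := g.equiv_left hH E
    rw [eE] at g1
    exact g1
  · intro g
    rw [← eE] at g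
    exact prec_of_equiv hH E g

/-- Version for a subset of the labels. -/
theorem ext_last_on (hW : ¬ Wild N univ) (hH : Hom N A e) (hA : A.Finite) [Finite ι]
    [Finite κ] {z : κ → ℕ × ι} (hz : Injective z) {L S : Set κ} (h : IsAt N A e z L)
    (hd : Disjoint L S)
    (hl : ∀ L', IsAt N A e z L' → L' ⊆ S → Sim N A e (lt' z L') (lt' z L) →
      Bef N A e (res L' z) (res L z)) : Bef N A e (res S z) (res L z) := by
  obtain ⟨i, hi, hca, hLne⟩ := h.ca hH hz
  have hca' : CA N A e (lt' z L) := hca
  have eL : res L z = blk i (lt' z L) := by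
    funext k
    exact Prod.ext (hi k k.2) rfl
  rw [eL]
  have hinj : ∀ j, Injective (fun k : {k : S | (res S z k).1 = j} => (res S z k).2) := by
    intro j k k' hkk
    apply Subtype.ext
    apply Subtype.ext
    apply hz
    exact Prod.ext ((show (z k).1 = j from k.2).trans (show (z k').1 = j from k'.2).symm) hkk
  have hf : ∀ j, Injective (fun k : {k : S | (res S z k).1 = j} => ((k : S) : κ)) := by
    intro j k k' hkk
    exact Subtype.ext (Subtype.ext hkk)
  refine bef_of_parts hH (res S z) i (lt' z L) ?_ ?_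
  · have e1 : (fun k : {k : S | (res S z k).1 = i} => res S z k) =
        blk i (fun k : {k : S | (res S z k).1 = i} => (res S z k).2) := by
      funext k
      exact Prod.ext k.2 rfl
    rw [e1, bef_blk_iff hH]
    refine split hW hH hA hca' (hinj i) ?_ ?_
    · rw [Set.disjoint_left]
      rintro _ ⟨k, rfl⟩ ⟨k', hk'⟩
      have h1 : z k' = z k := by
        refine Prod.ext ?_ hk'
        rw [hi k' k'.2]
        exact (show (z k).1 = i from k.2).symm
      have h2 := hz h1
      exact Set.disjoint_left.1 hd k'.2 (by rw [h2]; exact k.1.2)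
    · intro s hs hsim
      obtain ⟨g1, g2, g3, g4, g5⟩ := fl2_atom hH (z := z)
        (fun k : {k : S | (res S z k).1 = i} => ((k : S) : κ)) (hf i) i (fun k => k.2) s hs
        (lt' z L)
      have g6 := hl _ g1 (by rintro _ ⟨k, _, rfl⟩; exact k.1.2) (g4 hsim)
      rw [g3, eL, bef_blk_iff hH] at g6
      exact g5 g6
  · intro j hj
    refine perp_of_no_atom hW hH hA hca' (hinj j) fun s hs hsim => ?_
    obtain ⟨g1, g2, g3, g4, g5⟩ := fl2_atom hH (z := z)
      (fun k : {k : S | (res S z k).1 = j} => ((k : S) : κ)) (hf j) j (fun k => k.2) s hs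
      (lt' z L)
    have g6 := hl _ g1 (by rintro _ ⟨k, _, rfl⟩; exact k.1.2) (g4 hsim)
    rw [g3, eL, bef_iff_lt hH (g2.not_perp hH (g4 hsim)) (by omega)] at g6
    omega

/-- EXT. Let the atom `L` of `z` be behind all other similar atoms of `z`. Then it can be moved
behind the rest of `z`. PROOF. Let `L` be in the block `i₀`. The part of `z` outside `L` in the block
`i₀` contains only similar atoms which are before `L`: `split`. So `L` can be moved to a new block
just behind `i₀` (`cp`). The parts of `z` in blocks `> i₀` contain no similar atoms (they would be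
behind `L`, `Bef.asymm`), so they commute with the letters of `L` (`perp_of_no_atom`): `move_to`. -/
theorem ext_last (hW : ¬ Wild N univ) (hH : Hom N A e) (hA : A.Finite) [Finite ι]
    [Finite κ] {z : κ → ℕ × ι} (hz : Injective z) {L : Set κ} (h : IsAt N A e z L)
    (hl : ∀ L', IsAt N A e z L' → L' ≠ L → Sim N A e (lt' z L') (lt' z L) →
      Bef N A e (res L' z) (res L z)) : Bef N A e (res Lᶜ z) (res L z) := by
  obtain ⟨i, hi, hca, k, hk⟩ := h.ca hH hz
  refine ext_last_on hW hH hA hz h disjoint_compl_right fun L' h' hsub hs => hl L' h' ?_ hs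
  intro hLL
  rw [hLL] at hsub
  exact hsub hk hk

end Pool.H17.TA
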