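import Pool.Agent.H17.TA.Fl2

/-!
# FLAT : the type of a configuration is determined by its atoms, their order and the rest
-/

set_option autoImplicit false

namespace Pool.H17.TA

open Pool.H22.VC Function Set

variable {r : ℕ} {K ι κ κ' κ'' : Type} {N : Col r K ℕ} {A : Set ℕ} {e : ℕ → ι → ℕ}

private theorem flat_last {α : Type} (R : α → α → Prop) (F : Finset α) (hF : F.Nonempty)
    (htot : ∀ x ∈ F, ∀ y ∈ F, x ≠ y → R x y ∨ R y x)
    (htr : ∀ x ∈ F, ∀ y ∈ F, ∀ z ∈ F, R x y → R y z → R x z) :
    ∃ m ∈ F, ∀ x ∈ F, x ≠ m → R x m := by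
  classical
  induction F using Finset.induction_on with
  | empty => exact absurd hF Finset.not_nonempty_empty
  | insert a F ha ih =>
    rcases F.eq_empty_or_nonempty with h0 | h0
    · subst h0
      refine ⟨a, Finset.mem_insert_self _ _, fun x hx hne => ?_⟩
      rw [Finset.mem_insert] at hx
      rcases hx with hx | hx
      · exact absurd hx hne
      · exact absurd hx (Finset.notMem_empty _)
    · have hs : ∀ x ∈ F, x ∈ insert a F := fun x hx => Finset.mem_insert_of_mem hx
      have haa : a ∈ insert a F := Finset.mem_insert_self _ _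
      obtain ⟨m, hm, hmax⟩ := ih h0 (fun x hx y hy => htot x (hs x hx) y (hs y hy))
        (fun x hx y hy z hz => htr x (hs x hx) y (hs y hy) z (hs z hz))
      have ham : a ≠ m := fun h => ha (by rw [h]; exact hm)
      rcases htot a haa m (hs m hm) ham with h1 | h1
      · refine ⟨m, hs m hm, fun x hx hne => ?_⟩
        rw [Finset.mem_insert] at hx
        rcases hx with hx | hx
        · rw [hx]
          exact h1
        · exact hmax x hx hne
      · refine ⟨a, haa, fun x hx hne => ?_⟩
        rw [Finset.mem_insert] at hx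
        rcases hx with hx | hx
        · exact absurd hx hne
        · by_cases hxm : x = m
          · rw [hxm]
            exact h1
          · exact htr x (hs x hx) m (hs m hm) a haa (hmax x hx hxm) h1

/-- glueing two parts, the second behind the first -/
private theorem flat_glue (hH : Hom N A e) [Finite κ] {z w : κ → ℕ × ι} {S L T : Set κ}
    (hT : ∀ k ∈ T, k ∈ S ∨ k ∈ L) (hS : Teq N A e (res S z) (res S w))
    (hL : Teq N A e (res L z) (res L w)) (hz : Bef N A e (res S z) (res L z))
    (hw : Bef N A e (res S w) (res L w)) : Teq N A e (res T z) (res T w) := by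
  classical
  obtain ⟨m, hm, hm'⟩ : ∃ m : ℕ, (∀ k, (res S z k).1 < m) ∧ ∀ k, (res S w k).1 < m := by
    obtain ⟨M, hM⟩ := (Set.finite_range (fun k => (z k).1)).bddAbove
    obtain ⟨M', hM'⟩ := (Set.finite_range (fun k => (w k).1)).bddAbove
    refine ⟨M + M' + 1, fun k => ?_, fun k => ?_⟩
    · have : (z k).1 ≤ M := hM (mem_range_self (k : κ))
      show (z k).1 < _
      omega
    · have : (w k).1 ≤ M' := hM' (mem_range_self (k : κ))
      show (w k).1 < _
      omega
  have g1 := hz m hm
  have g2 := hw m hm'
  have sh1 : Teq N A e (fun k => (m + (res L z k).1, (res L z k).2))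
      (fun k => (m + (res L w k).1, (res L w k).2)) := by
    have a1 := Teq.reloc hH (res L z) (fun n => m + n) (fun a b h => by
      show m + a < m + b
      omega)
    have a2 := Teq.reloc hH (res L w) (fun n => m + n) (fun a b h => by
      show m + a < m + b
      omega)
    exact a1.symm.trans (hL.trans a2)
  have g3 := cp_back hH hS sh1
    (by
      intro k a
      have := hm k
      show (res S z k).1 < m + (res L z a).1
      omega)
    (by
      intro k a
      have := hm' k
      show (res S w k).1 < m + (res L w a).1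
      omega)
  have g4 : Teq N A e (Sum.elim (res S z) (res L z)) (Sum.elim (res S w) (res L w)) :=
    g1.trans (g3.trans g2.symm)
  have hT' : ∀ k ∈ T, k ∉ S → k ∈ L := fun k hk hn => (hT k hk).resolve_left hn
  have g5 := g4.comp hH (fun k : T => if h : (k : κ) ∈ S then (Sum.inl ⟨k, h⟩ : S ⊕ L)
    else Sum.inr ⟨k, hT' k k.2 h⟩)
  have e1 : ∀ z : κ → ℕ × ι, (fun k : T => Sum.elim (res S z) (res L z)
      (if h : (k : κ) ∈ S then (Sum.inl ⟨k, h⟩ : S ⊕ L) else Sum.inr ⟨k, hT' k k.2 h⟩)) =
      res T z := by
    intro z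
    funext k
    split_ifs with h
    · rfl
    · rfl
  rw [e1, e1] at g5
  exact g5

/-- FLAT. PROOF. Let `R` be the set of labels outside all atoms. For every finite set `F` of atoms
of `z` the restrictions of `z` and `w` to `R ∪ ⋃ F` have the same type, by induction on the number
of elements of `F`: choose a kind (class of `Sim`) occuring in `F` and the last atom `L` of this
kind in `F` (finite, total, transitive); it is also the last one for `w`; by `ext_last_on` it can be
moved behind the rest `S = R ∪ ⋃ (F \ {L})`, in `z` and in `w`; then `cp_back`. (Atoms of `z` are equal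
or disjoint, and they are the atoms of `w`.) -/
theorem flat (hW : ¬ Wild N univ) (hH : Hom N A e) (hA : A.Finite) [Finite ι]
    [Finite κ] {z w : κ → ℕ × ι} (hz : Injective z) (hw : Injective w)
    (h1 : ∀ L, IsAt N A e z L ↔ IsAt N A e w L)
    (h2 : ∀ L, IsAt N A e z L → Teq N A e (res L z) (res L w))
    (h3 : ∀ L L', IsAt N A e z L → IsAt N A e z L' → L ≠ L' →
      Sim N A e (lt' z L) (lt' z L') → Bef N A e (res L z) (res L' z) →
        Bef N A e (res L w) (res L' w))
    (h4 : Teq N A e (res {k | ∀ L, IsAt N A e z L → k ∉ L} z)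
      (res {k | ∀ L, IsAt N A e z L → k ∉ L} w)) : Teq N A e z w := by
  classical
  have key : ∀ n : ℕ, ∀ F : Finset (Set κ), F.card = n → (∀ L ∈ F, IsAt N A e z L) →
      ∀ T : Set κ, (∀ k, k ∈ T ↔ ((∀ L, IsAt N A e z L → k ∉ L) ∨ ∃ L ∈ F, k ∈ L)) →
      Teq N A e (res T z) (res T w) := by
    intro n
    induction n with
    | zero =>
      intro F hF hat T hT
      rw [Finset.card_eq_zero] at hF
      subst hF
      have hTR : T = {k | ∀ L, IsAt N A e z L → k ∉ L} := by
        ext k
        rw [hT k]
        constructor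
        · rintro (h | ⟨L, hL, _⟩)
          · exact h
          · exact absurd hL (Finset.notMem_empty _)
        · exact fun h => Or.inl h
      rw [hTR]
      exact h4
    | succ n ih =>
      intro F hF hat T hT
      have hne : F.Nonempty := by
        rw [← Finset.card_pos]
        omega
      obtain ⟨L₀, hL₀⟩ := hne
      obtain ⟨F₀, hF₀⟩ : ∃ F₀ : Finset (Set κ), F₀ = F.filter fun L =>
        Sim N A e (lt' z L) (lt' z L₀) := ⟨_, rfl⟩
      have hmem : ∀ L, L ∈ F₀ ↔ L ∈ F ∧ Sim N A e (lt' z L) (lt' z L₀) := by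
        intro L
        rw [hF₀, Finset.mem_filter]
      have hsim : ∀ L ∈ F₀, ∀ L' ∈ F₀, Sim N A e (lt' z L) (lt' z L') := by
        intro L hL L' hL'
        exact ((hmem L).1 hL).2.trans hH (((hmem L').1 hL').2.symm hH)
      obtain ⟨L, hL, hlast⟩ := flat_last (fun L L' => Bef N A e (res L z) (res L' z)) F₀
        ⟨L₀, (hmem L₀).2 ⟨hL₀, Sim.refl hH _⟩⟩
        (fun x hx y hy hxy => (hat x ((hmem x).1 hx).1).total hW hH hA hz
          (hat y ((hmem y).1 hy).1) (hsim x hx y hy) hxy)
        (fun x hx y hy v hv hxy hyv => (hat x ((hmem x).1 hx).1).trans hW hH hA hz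
          (hat y ((hmem y).1 hy).1) (hat v ((hmem v).1 hv).1) (hsim x hx y hy)
          (hsim y hy v hv) hxy hyv)
      have hLF : L ∈ F := ((hmem L).1 hL).1
      have hLat := hat L hLF
      obtain ⟨S, hS⟩ : ∃ S : Set κ, S = {k | (∀ L, IsAt N A e z L → k ∉ L) ∨
        ∃ L' ∈ F.erase L, k ∈ L'} := ⟨_, rfl⟩
      have hSm : ∀ k, k ∈ S ↔ ((∀ L, IsAt N A e z L → k ∉ L) ∨ ∃ L' ∈ F.erase L, k ∈ L') := by
        intro k
        rw [hS]
        exact Iff.rfl
      have hSt : Teq N A e (res S z) (res S w) := by
        refine ih (F.erase L) ?_ (fun L' hL' => hat L' (Finset.mem_of_mem_erase hL')) S hSm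
        rw [Finset.card_erase_of_mem hLF, hF]
        rfl
      have hdis : Disjoint L S := by
        rw [Set.disjoint_left]
        intro k hk hkS
        rcases (hSm k).1 hkS with g | ⟨L', hL', hk'⟩
        · exact g L hLat hk
        · rcases hLat.eq_or_disjoint hW hH hA hz (hat L' (Finset.mem_of_mem_erase hL')) with g | g
          · exact Finset.ne_of_mem_erase hL' g.symm
          · exact Set.disjoint_left.1 g hk hk'
      have hsub : ∀ L', IsAt N A e z L' → L' ⊆ S → L' ∈ F ∧ L' ≠ L := by
        intro L' hL' hs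
        obtain ⟨k, hk⟩ : L'.Nonempty := by
          obtain ⟨_, _, _, hne⟩ := hL'.ca hH hz
          exact hne
        rcases (hSm k).1 (hs hk) with g | ⟨L'', hL'', hk''⟩
        · exact absurd hk (g L' hL')
        · rcases hL'.eq_or_disjoint hW hH hA hz (hat L'' (Finset.mem_of_mem_erase hL''))
            with g | g
          · rw [g]
            exact ⟨Finset.mem_of_mem_erase hL'', Finset.ne_of_mem_erase hL''⟩
          · exact absurd hk'' (Set.disjoint_left.1 g hk)
      have hbz : ∀ L', IsAt N A e z L' → L' ⊆ S → Sim N A e (lt' z L') (lt' z L) →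
          Bef N A e (res L' z) (res L z) := by
        intro L' hL' hs hsm
        obtain ⟨g1, g2⟩ := hsub L' hL' hs
        exact hlast L' ((hmem L').2 ⟨g1, hsm.trans hH ((hmem L).1 hL).2⟩) g2
      have hBz := ext_last_on hW hH hA hz hLat hdis hbz
      have hBw := ext_last_on hW hH hA hw ((h1 L).1 hLat) hdis (by
        intro L' hL' hs hsm
        have hL'z := (h1 L').2 hL'
        obtain ⟨g1, g2⟩ := hsub L' hL'z hs
        have hsm' := (sim_of_teq (κ' := κ) hH hz hw hL'z hLat (h2 L' hL'z) (h2 L hLat)).2 hsm
        exact h3 L' L hL'z hLat g2 hsm' (hbz L' hL'z hs hsm'))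
      refine flat_glue (κ := κ) (z := z) (w := w) (S := S) (L := L) hH ?_ hSt (h2 L hLat) hBz hBw
      intro k hk
      rcases (hT k).1 hk with g | ⟨L', hL', hk'⟩
      · exact Or.inl ((hSm k).2 (Or.inl g))
      · by_cases hLL : L' = L
        · right
          rw [← hLL]
          exact hk'
        · exact Or.inl ((hSm k).2 (Or.inr ⟨L', Finset.mem_erase.2 ⟨hLL, hL'⟩, hk'⟩))
  have hfin : {L : Set κ | IsAt N A e z L}.Finite := Set.toFinite {L : Set κ | IsAt N A e z L}
  have hall : Teq N A e (res univ z) (res univ w) :=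
    key _ hfin.toFinset rfl (fun L hL => hfin.mem_toFinset.1 hL) univ (by
    intro k
    refine ⟨fun _ => ?_, fun _ => mem_univ k⟩
    by_cases hk : ∃ L, IsAt N A e z L ∧ k ∈ L
    · obtain ⟨L, hL, hkL⟩ := hk
      exact Or.inr ⟨L, hfin.mem_toFinset.2 hL, hkL⟩
    · left
      intro L hL hkL
      exact hk ⟨L, hL, hkL⟩)
  have g := Teq.comp hH hall (fun k : κ => (⟨k, mem_univ k⟩ : (univ : Set κ)))
  exact g

end Pool.H17.TA
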