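import Pool.Agent.H17.TA.Mv

/-!
# Tuples of a minimal non-commuting type lie in one block
-/

set_option autoImplicit false

namespace Pool.H17.TA

open Pool.H22.VC Function Set

variable {r : ℕ} {K ι κ κ' : Type} {N : Col r K ℕ} {A : Set ℕ} {e : ℕ → ι → ℕ}

/-- Suppose that `τ` and `τ'` do not commute, but all proper subtuples of `τ` commute with `τ'`.
Then every configuration `z` of the type of `τ` lies in one block. PROOF. Otherwise each block part
of `z` is a proper subtuple, of the type of a proper subtuple of `τ` (`Teq.comp`), so it commutes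
with `τ'` (`Perp.congr`); shift `z` (`Teq.relocOn`) so that all numbers are positive and apply
`move`: `(z, (B, τ'))` and `(z, (0, τ'))` have the same type. By `cp_back`, `cp_front` they have the
types of `((0, τ), (1, τ'))` and `((1, τ), (0, τ'))`: contradiction to `hn`. -/
theorem inblk (hH : Hom N A e) [Finite κ] [Finite κ'] {τ : κ → ι} {τ' : κ' → ι}
    (hmin : ∀ s : Set κ, s ≠ univ → Perp N A e (res s τ) τ') (hn : ¬ Perp N A e τ τ')
    (z : κ → ℕ × ι) (hz : Teq N A e z (blk 0 τ)) : ∀ k k', (z k).1 = (z k').1 := by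
  classical
  by_contra hcon
  push Not at hcon
  obtain ⟨k₁, k₂, hne⟩ := hcon
  apply hn
  let z₁ : κ → ℕ × ι := fun k => ((z k).1 + 1, (z k).2)
  have h1 : Teq N A e z z₁ := teq_pat hH z z₁ (fun _ => rfl) (fun k k' => by
    simp only [z₁]; omega)
  have h2 : Teq N A e z₁ (blk 0 τ) := h1.symm.trans hz
  have hpart : ∀ i, Perp N A e (fun k : {k | (z₁ k).1 = i} => (z₁ k).2) τ' := by
    intro i
    have hs : {k | (z₁ k).1 = i} ≠ univ := by
      intro h
      have g1 : k₁ ∈ {k | (z₁ k).1 = i} := by rw [h]; exact mem_univ _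
      have g2 : k₂ ∈ {k | (z₁ k).1 = i} := by rw [h]; exact mem_univ _
      have g1' : (z k₁).1 + 1 = i := g1
      have g2' : (z k₂).1 + 1 = i := g2
      omega
    have h3 := h2.comp hH (fun k : {k | (z₁ k).1 = i} => (k : κ))
    have h4 : (fun k : {k | (z₁ k).1 = i} => z₁ k) =
        blk i (fun k : {k | (z₁ k).1 = i} => (z₁ k).2) := by
      funext k
      exact Prod.ext k.2 rfl
    have h5 : Teq N A e (blk i (fun k : {k | (z₁ k).1 = i} => (z₁ k).2))
        (blk 0 (res {k | (z₁ k).1 = i} τ)) := by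
      rw [← h4]
      exact h3
    exact (hmin _ hs).congr hH (h5.symm.trans (teq_blk hH i 0 _)) (Teq.refl hH _)
  obtain ⟨B, hB⟩ := (Set.finite_range (fun k => (z₁ k).1)).bddAbove
  have hB' : ∀ k, (z₁ k).1 < B + 1 := fun k => Nat.lt_succ_of_le (hB ⟨k, rfl⟩)
  have h3 := move hH z₁ τ' hpart (B + 1) (fun k => ⟨Nat.succ_pos _, hB' k⟩)
  have e1 : Teq N A e (Sum.elim (blk 0 τ) (blk 1 τ')) (Sum.elim z₁ (blk (B + 1) τ')) :=
    cp_back hH h2.symm (teq_blk hH 1 (B + 1) τ') (fun _ _ => Nat.zero_lt_one) (fun k _ => hB' k)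
  have e2 : Teq N A e (Sum.elim z₁ (blk 0 τ')) (Sum.elim (blk 1 τ) (blk 0 τ')) :=
    cp_front hH (h2.trans (teq_blk hH 0 1 τ)) (Teq.refl hH _) (fun k _ => Nat.succ_pos _)
      (fun _ _ => Nat.zero_lt_one)
  exact (e1.trans h3).trans e2

/-- (C2) configurations of the type of a chain atom lie in one block -/
theorem CA.inblk (hH : Hom N A e) [Finite κ] {τ : κ → ι} (hτ : CA N A e τ)
    (z : κ → ℕ × ι) (hz : Teq N A e z (blk 0 τ)) : ∀ k k', (z k).1 = (z k').1 := by
  refine TA.inblk hH (τ := τ) (τ' := τ) (fun s hs => ?_) hτ.nperp z hz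
  exact (hτ.min s univ (Or.inl hs)).comp hH id (fun k => ⟨k, mem_univ k⟩)

/-- a chain atom is nonempty (the empty tuple commutes with everything: relocation) -/
theorem CA.nonempty (hH : Hom N A e) [Finite κ] {τ : κ → ι} (hτ : CA N A e τ) : Nonempty κ := by
  by_contra hc
  rw [not_nonempty_iff] at hc
  apply hτ.nperp
  refine teq_pat hH _ _ ?_ ?_
  · rintro (k | k) <;> exact (hc.false k).elim
  · rintro (k | k) <;> exact (hc.false k).elim

/-- being a chain atom depends on the type only -/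
theorem CA.congr (hH : Hom N A e) [Finite κ] {τ τ' : κ → ι} (hτ : CA N A e τ)
    (hi : Injective τ') (h : Teq N A e (blk 0 τ) (blk 0 τ')) : CA N A e τ' := by
  refine ⟨hi, fun hp => hτ.nperp (hp.congr hH h.symm h.symm), fun s s' hs => ?_⟩
  exact (hτ.min s s' hs).congr hH (h.comp hH (fun k : s => (k : κ)))
    (h.comp hH (fun k : s' => (k : κ)))

/-- renaming the labels -/
theorem CA.equiv (hH : Hom N A e) [Finite κ] [Finite κ'] {τ : κ → ι} (hτ : CA N A e τ)
    (σ : κ' ≃ κ) : CA N A e (fun k => τ (σ k)) := by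
  refine ⟨hτ.inj.comp σ.injective, fun hp => hτ.nperp ?_, fun s s' hs => ?_⟩
  · have h1 := hp.comp hH σ.symm σ.symm
    simp only [Equiv.apply_symm_apply] at h1
    exact h1
  · have hne : ∀ s : Set κ', s ≠ univ → σ '' s ≠ univ := by
      intro s hs h
      apply hs
      rw [eq_univ_iff_forall]
      intro k
      have h1 : σ k ∈ σ '' s := by rw [h]; exact mem_univ _
      obtain ⟨k', hk', h2⟩ := h1
      rw [← σ.injective h2]
      exact hk'
    have h1 := hτ.min (σ '' s) (σ '' s') (hs.imp (hne s) (hne s'))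
    exact h1.comp hH (fun k : s => ⟨σ k, mem_image_of_mem _ k.2⟩)
      (fun k : s' => ⟨σ k, mem_image_of_mem _ k.2⟩)

/-- The letters of an atom of a configuration form a chain atom, in one block. -/
theorem IsAt.ca (hH : Hom N A e) [Finite κ] {z : κ → ℕ × ι} (hz : Injective z) {L : Set κ}
    (h : IsAt N A e z L) : ∃ i, (∀ k ∈ L, (z k).1 = i) ∧
      CA N A e (fun k : L => (z k).2) ∧ L.Nonempty := by
  obtain ⟨τ, hτ, ht⟩ := h
  have hb := hτ.inblk hH (res L z) ht
  obtain ⟨k₀⟩ := hτ.nonempty hH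
  have hi : ∀ k ∈ L, (z k).1 = (z k₀).1 := fun k hk => hb ⟨k, hk⟩ k₀
  have h1 : res L z = blk (z k₀).1 (fun k : L => (z k).2) := by
    funext k
    exact Prod.ext (hi k k.2) rfl
  refine ⟨(z k₀).1, hi, hτ.congr hH ?_ ?_, ⟨k₀, k₀.2⟩⟩
  · intro k k' hkk
    have h2 : z k = z k' := Prod.ext ((hi k k.2).trans (hi k' k'.2).symm) hkk
    exact Subtype.ext (hz h2)
  · rw [h1] at ht
    exact ht.symm.trans (teq_blk hH _ 0 _)

/-- conversely -/
theorem isAt_of_ca (hH : Hom N A e) [Finite κ] {z : κ → ℕ × ι} {L : Set κ} {i : ℕ}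
    (hi : ∀ k ∈ L, (z k).1 = i) (h : CA N A e (fun k : L => (z k).2)) : IsAt N A e z L := by
  refine ⟨_, h, ?_⟩
  have h1 : res L z = blk i (fun k : L => (z k).2) := by
    funext k
    exact Prod.ext (hi k k.2) rfl
  rw [h1]
  exact teq_blk hH _ 0 _

/-- A chain atom has no proper non-commuting pair of subtuples; in particular a subtuple which is a
chain atom is everything. -/
theorem CA.sub_eq (hH : Hom N A e) [Finite κ] {τ : κ → ι} (hτ : CA N A e τ) (s : Set κ)
    (hs : CA N A e (res s τ)) : s = univ := by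
  by_contra hne
  exact hs.nperp (hτ.min s s (Or.inl hne))

end Pool.H17.TA
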