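import Pool.Agent.H17.TA.Cnt2

/-!
# Mark lemma
-/

set_option autoImplicit false

namespace Pool.H17.TA

open Pool.H22.VC Function Set

variable {r : ℕ} {K ι κ κ' : Type} {N : Col r K ℕ} {A : Set ℕ} {e : ℕ → ι → ℕ}

/-- Height of a tuple of chain atom type: `hgt_bounds` with `τ' = τ`; the tuple itself is not before
itself, so the height is smaller than the number of tuples in the blocks `≤ i`. -/
theorem hgt_lt (hH : Hom N A e) [Finite ι] [Finite κ] {τ : κ → ι} (hτ : CA N A e τ)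
    (B : ℕ → Set ι) (i : ℕ) (σ : κ → ι) (hσ : σ ∈ LX N A e τ (fun _ _ => True) (B i)) :
    (∑ j ∈ Finset.range i, cX N A e τ (B j)) ≤ hgt N A e τ τ (Dm B) (blk i σ) ∧
      hgt N A e τ τ (Dm B) (blk i σ) < ∑ j ∈ Finset.range (i + 1), cX N A e τ (B j) := by
  have hne := hτ.nonempty hH
  have h := hgt_bounds hH hτ.nperp (hτ.inblk hH) B i σ hσ.2.2.1
  rw [h]
  refine ⟨Nat.le_add_right _ _, ?_⟩
  rw [Finset.sum_range_succ]
  refine Nat.add_lt_add_left ?_ _
  show _ < (LX N A e τ (fun _ _ => True) (B i)).ncard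
  refine Set.ncard_lt_ncard ?_ (Set.toFinite _)
  rw [Set.ssubset_iff_of_subset (fun σ h => h.1)]
  exact ⟨σ, hσ, fun h1 => not_vis_self hH hτ.nperp _ h1.2⟩

/-- Consequently the tuples with height in `[∑_{j < a} cX, ∑_{j < b} cX)` are those in the blocks
`a, …, b - 1`. -/
theorem hgt_mem_iff (hH : Hom N A e) [Finite ι] [Finite κ] {τ : κ → ι} (hτ : CA N A e τ)
    (B : ℕ → Set ι) (a b : ℕ) (z : κ → ℕ × ι) (hz : z ∈ XT N A e τ (Dm B)) :
    ((∑ j ∈ Finset.range a, cX N A e τ (B j)) ≤ hgt N A e τ τ (Dm B) z ∧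
      hgt N A e τ τ (Dm B) z < ∑ j ∈ Finset.range b, cX N A e τ (B j)) ↔
    ∃ i, a ≤ i ∧ i < b ∧ ∃ σ ∈ LX N A e τ (fun _ _ => True) (B i), z = blk i σ := by
  have hne := hτ.nonempty hH
  have hmono : ∀ p q : ℕ, p ≤ q → (∑ j ∈ Finset.range p, cX N A e τ (B j)) ≤
      ∑ j ∈ Finset.range q, cX N A e τ (B j) := fun p q hpq =>
    Finset.sum_le_sum_of_subset (Finset.range_subset_range.2 hpq)
  constructor
  · rintro ⟨h1, h2⟩
    obtain ⟨i, σ, hσ, rfl⟩ := (mem_XT_iff hH (hτ.inblk hH) B z).1 hz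
    obtain ⟨h3, h4⟩ := hgt_lt hH hτ B i σ hσ
    refine ⟨i, ?_, ?_, σ, hσ, rfl⟩
    · by_contra hlt
      have := hmono (i + 1) a (by omega)
      omega
    · by_contra hlt
      have := hmono b i (by omega)
      omega
  · rintro ⟨i, hai, hib, σ, hσ, rfl⟩
    obtain ⟨h3, h4⟩ := hgt_lt hH hτ B i σ hσ
    exact ⟨(hmono a i hai).trans h3, h4.trans_le (hmono (i + 1) b (by omega))⟩

private theorem mark_list (F : Set ι → ℕ) : ∀ L : List (Set ι),
    ∑ j ∈ Finset.range L.length, F (L.getD j ∅) = (L.map F).sum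
  | [] => rfl
  | x :: L => by
    rw [List.length_cons, Finset.sum_range_succ', List.map_cons, List.sum_cons,
      ← mark_list F L, add_comm]
    rfl

private theorem mark_group (F : Set ι → ℕ) (n : ℕ) (l : Bool → List (Set ι))
    (hl : ∀ b, (l b).length = n) (s : ℕ → Bool) (k : ℕ) :
    ∑ i ∈ Finset.Ico ((n + 1) * k) ((n + 1) * (k + 1)), F (BS n l s i) =
      ((l (s k)).map F).sum + F univ := by
  rw [Finset.sum_Ico_eq_sum_range]
  have h1 : (n + 1) * (k + 1) - (n + 1) * k = n + 1 := by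
    rw [Nat.mul_succ]
    omega
  rw [h1, Finset.sum_range_succ, BS_full, ← mark_list F (l (s k)), hl]
  congr 1
  refine Finset.sum_congr rfl fun j hj => ?_
  rw [BS_list n l s k j (Finset.mem_range.1 hj)]

private theorem mark_pre (F : Set ι → ℕ) (n : ℕ) (l : Bool → List (Set ι))
    (hl : ∀ b, (l b).length = n)
    (hX : ((l false).map F).sum = ((l true).map F).sum) (s s' : ℕ → Bool) (k : ℕ) :
    ∑ j ∈ Finset.range ((n + 1) * k), F (BS n l s j) =
      ∑ j ∈ Finset.range ((n + 1) * k), F (BS n l s' j) := by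
  induction k with
  | zero => rfl
  | succ k ih =>
    have hle : (n + 1) * k ≤ (n + 1) * (k + 1) := Nat.mul_le_mul_left _ (Nat.le_succ k)
    rw [← Finset.sum_range_add_sum_Ico _ hle, ← Finset.sum_range_add_sum_Ico _ hle, ih,
      mark_group F n l hl, mark_group F n l hl]
    have h1 : ∀ b b' : Bool, ((l b).map F).sum = ((l b').map F).sum := by
      intro b b'
      cases b <;> cases b'
      · rfl
      · exact hX
      · exact hX.symm
      · rfl
    rw [h1 (s k) (s' k)]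

private theorem mark_le (hH : Hom N A e) [Finite ι] [Finite κ]
    {τ : κ → ι} (hτ : CA N A e τ) (P : Set (ℕ × ι) → (κ → ℕ × ι) → Prop)
    (Q : Set ι → (κ → ι) → Prop)
    (hP : ∀ (g : ℕ × ι → ℕ × ι) (D D' : Set (ℕ × ι)) (z : κ → ℕ × ι), Pres N A e g D D' →
      z ∈ XT N A e τ D → P D z → P D' (fun k => g (z k)))
    (hQ : ∀ (B : ℕ → Set ι) (i : ℕ) (σ : κ → ι), σ ∈ LX N A e τ (fun _ _ => True) (B i) →
      (P (Dm B) (blk i σ) ↔ Q (B i) σ))
    (n : ℕ) (l : Bool → List (Set ι)) (hl : ∀ b, (l b).length = n)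
    (hX : ((l false).map (cX N A e τ)).sum = ((l true).map (cX N A e τ)).sum)
    (s s' : ℕ → Bool) (g : ℕ × ι → ℕ × ι)
    (hg : Pres N A e g (Dm (BS n l s)) (Dm (BS n l s'))) (k : ℕ) :
    ((l (s k)).map (cQ N A e τ Q)).sum ≤ ((l (s' k)).map (cQ N A e τ Q)).sum := by
  have hne := hτ.nonempty hH
  have h1 := mark_group (cQ N A e τ Q) n l hl s k
  have h2 := mark_group (cQ N A e τ Q) n l hl s' k
  rw [← ncard_blocks (N := N) (A := A) (e := e) Q (BS n l s)] at h1
  rw [← ncard_blocks (N := N) (A := A) (e := e) Q (BS n l s')] at h2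
  have h3 : {z : κ → ℕ × ι | ∃ i, (n + 1) * k ≤ i ∧ i < (n + 1) * (k + 1) ∧
      ∃ σ ∈ LX N A e τ Q (BS n l s i), z = blk i σ}.ncard ≤
      {z : κ → ℕ × ι | ∃ i, (n + 1) * k ≤ i ∧ i < (n + 1) * (k + 1) ∧
      ∃ σ ∈ LX N A e τ Q (BS n l s' i), z = blk i σ}.ncard := by
    refine Set.ncard_le_ncard_of_injOn (fun z k => g (z k)) ?_ ?_ ?_
    · rintro z ⟨i, hai, hib, σ, hσ, rfl⟩
      have hσ1 : σ ∈ LX N A e τ (fun _ _ => True) (BS n l s i) :=
        ⟨hσ.1, hσ.2.1, hσ.2.2.1, trivial⟩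
      have hz : blk i σ ∈ XT N A e τ (Dm (BS n l s)) :=
        (mem_XT_iff hH (hτ.inblk hH) (BS n l s) _).2 ⟨i, σ, hσ1, rfl⟩
      have hr := (hgt_mem_iff hH hτ (BS n l s) ((n + 1) * k) ((n + 1) * (k + 1)) _ hz).2
        ⟨i, hai, hib, σ, hσ1, rfl⟩
      rw [mark_pre _ n l hl hX s s' k, mark_pre _ n l hl hX s s' (k + 1),
        ← hg.hgt hH τ τ hz] at hr
      have hz' := hg.xt hH τ hz
      obtain ⟨i', hai', hib', σ', hσ', heq⟩ := (hgt_mem_iff hH hτ (BS n l s') ((n + 1) * k)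
        ((n + 1) * (k + 1)) _ hz').1 hr
      refine ⟨i', hai', hib', σ', ⟨hσ'.1, hσ'.2.1, hσ'.2.2.1, ?_⟩, heq⟩
      rw [← hQ (BS n l s') i' σ' hσ', ← heq]
      exact hP g _ _ _ hg hz ((hQ (BS n l s) i σ hσ1).2 hσ.2.2.2)
    · rintro z ⟨i, _, _, σ, hσ, rfl⟩ w ⟨j, _, _, ρ, hρ, rfl⟩ heq
      funext k'
      refine hg.1.injOn ?_ ?_ (congrFun heq k')
      · exact hσ.2.1 k'
      · exact hρ.2.1 k'
    · refine ((Set.finite_Ico ((n + 1) * k) ((n + 1) * (k + 1))).image2
        (fun i (σ : κ → ι) => blk i σ) (Set.finite_univ (α := κ → ι))).subset ?_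
      rintro z ⟨i, hai, hib, σ, _, rfl⟩
      exact ⟨i, ⟨hai, hib⟩, σ, mem_univ σ, rfl⟩
  omega

/-- MARK LEMMA. `τ` is a chain atom, `P` is a property of tuples of type `τ` in a domain, invariant
under type preserving bijections and block-local (`Q`). If the two lists `l false`, `l true` of
length `n` have the same number of tuples of type `τ` and different numbers of tuples with `Q`,
then `N` is wild. PROOF. `tl`: let `g` preserve the types between the domains of `s` and `s'`. Each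
group of `n + 1` blocks has the same number `T` of tuples of type `τ`. The tuples of type `τ` in
the group `k` are those of height in `[T k, T (k + 1))` (`hgt_mem_iff` with `a = (n + 1) k`,
`b = (n + 1) (k + 1)`); `g` maps these sets onto each other and respects `P`; counting
(`ncard_blocks`) gives `s k = s' k`. -/
theorem mark (hW : ¬ Wild N univ) (hH : Hom N A e) (hA : A.Finite) [Finite ι] [Finite κ]
    {τ : κ → ι} (hτ : CA N A e τ) (P : Set (ℕ × ι) → (κ → ℕ × ι) → Prop)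
    (Q : Set ι → (κ → ι) → Prop)
    (hP : ∀ (g : ℕ × ι → ℕ × ι) (D D' : Set (ℕ × ι)) (z : κ → ℕ × ι), Pres N A e g D D' →
      z ∈ XT N A e τ D → P D z → P D' (fun k => g (z k)))
    (hQ : ∀ (B : ℕ → Set ι) (i : ℕ) (σ : κ → ι), σ ∈ LX N A e τ (fun _ _ => True) (B i) →
      (P (Dm B) (blk i σ) ↔ Q (B i) σ))
    (n : ℕ) (l : Bool → List (Set ι)) (hl : ∀ b, (l b).length = n)
    (hX : ((l false).map (cX N A e τ)).sum = ((l true).map (cX N A e τ)).sum)
    (hQ' : ((l false).map (cQ N A e τ Q)).sum ≠ ((l true).map (cQ N A e τ Q)).sum) : False := by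
  refine tl hW hH hA n l fun s s' g hg => ?_
  obtain ⟨g', hg', _, _⟩ := hg.symm
  funext k
  have h1 := mark_le hH hτ P Q hP hQ n l hl hX s s' g hg k
  have h2 := mark_le hH hτ P Q hP hQ n l hl hX s' s g' hg' k
  have h3 := le_antisymm h1 h2
  cases hs : s k <;> cases hs' : s' k
  · rfl
  · rw [hs, hs'] at h3
    exact absurd h3 hQ'
  · rw [hs, hs'] at h3
    exact absurd h3.symm hQ'
  · rfl

end Pool.H17.TA
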