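import Pool.Agent.H17.TA.Pp

/-!
# Moving a letter tuple from the back to the front of a configuration
-/

set_option autoImplicit false

namespace Pool.H17.TA

open Pool.H22.VC Function Set

variable {r : ℕ} {K ι κ κ' : Type} {N : Col r K ℕ} {A : Set ℕ} {e : ℕ → ι → ℕ}

/-- ONE STEP. Let `w n k = (if n ≤ (z k).1 then (z k).1 + 1 else (z k).1, (z k).2)` (so no letter of
`w n` is in the block `n`). If the part of `z` in the block `n` commutes with `τ'`, then `τ'` can
be moved from the block `n + 1` of `w (n + 1)` to the block `n` of `w n`: `Perp.ctx` with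
`τ` = the part of `z` in the block `n` (labels `{k | (z k).1 = n}`), `u` = the part of `z` in the
blocks `< n`, `v` = the part of `z` in the blocks `> n` (shifted by one), `i = n`, `j = n + 1`;
then `Teq.comp` with the obvious map of labels. -/
theorem move_step (hH : Hom N A e) [Finite κ] [Finite κ'] (z : κ → ℕ × ι) (τ' : κ' → ι) (n : ℕ)
    (h : Perp N A e (fun k : {k | (z k).1 = n} => (z k).2) τ') :
    Teq N A e (Sum.elim (fun k => (if n + 1 ≤ (z k).1 then (z k).1 + 1 else (z k).1, (z k).2))
        (blk (n + 1) τ'))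
      (Sum.elim (fun k => (if n ≤ (z k).1 then (z k).1 + 1 else (z k).1, (z k).2))
        (blk n τ')) := by
  classical
  have h1 := h.ctx hH (κ₁ := {k | (z k).1 < n}) (κ₂ := {k | n < (z k).1}) (fun k => z k)
    (fun k => ((z k).1 + 1, (z k).2)) (i := n) (j := n + 1) (Nat.lt_succ_self n)
    (fun a => a.2) (fun a => Nat.succ_lt_succ a.2)
  let ρ : κ ⊕ κ' → {k | (z k).1 < n} ⊕ (({k | (z k).1 = n} ⊕ κ') ⊕ {k | n < (z k).1}) :=
    Sum.elim (fun k => if h1 : (z k).1 < n then Sum.inl ⟨k, h1⟩ else
      if h2 : (z k).1 = n then Sum.inr (Sum.inl (Sum.inl ⟨k, h2⟩)) else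
        Sum.inr (Sum.inr ⟨k, lt_of_le_of_ne (not_lt.1 h1) (Ne.symm h2)⟩))
      (fun k => Sum.inr (Sum.inl (Sum.inr k)))
  have h2 := h1.comp hH ρ
  convert h2 using 1
  · funext k
    rcases k with k | k
    · rcases lt_trichotomy (z k).1 n with h3 | h3 | h3
      · have h4 : ¬ (n + 1 ≤ (z k).1) := by omega
        simp only [Sum.elim_inl, ρ, dif_pos h3, if_neg h4]
      · have h4 : ¬ (n + 1 ≤ (z k).1) := by omega
        have h5 : ¬ ((z k).1 < n) := by omega
        simp only [Sum.elim_inl, Sum.elim_inr, ρ, dif_neg h5, dif_pos h3, if_neg h4, blk]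
        rw [h3]
      · have h4 : n + 1 ≤ (z k).1 := by omega
        have h5 : ¬ ((z k).1 < n) := by omega
        have h6 : ¬ ((z k).1 = n) := by omega
        simp only [Sum.elim_inl, Sum.elim_inr, ρ, dif_neg h5, dif_neg h6, if_pos h4]
    · rfl
  · funext k
    rcases k with k | k
    · rcases lt_trichotomy (z k).1 n with h3 | h3 | h3
      · have h4 : ¬ (n ≤ (z k).1) := by omega
        simp only [Sum.elim_inl, ρ, dif_pos h3, if_neg h4]
      · have h4 : n ≤ (z k).1 := by omega
        have h5 : ¬ ((z k).1 < n) := by omega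
        simp only [Sum.elim_inl, Sum.elim_inr, ρ, dif_neg h5, dif_pos h3, if_pos h4, blk]
        rw [h3]
      · have h4 : n ≤ (z k).1 := by omega
        have h5 : ¬ ((z k).1 < n) := by omega
        have h6 : ¬ ((z k).1 = n) := by omega
        simp only [Sum.elim_inl, Sum.elim_inr, ρ, dif_neg h5, dif_neg h6, if_pos h4]
    · rfl

private theorem move_aux (hH : Hom N A e) [Finite κ] [Finite κ'] (z : κ → ℕ × ι) (τ' : κ' → ι)
    (i₀ : ℕ) (h : ∀ i, i₀ < i → Perp N A e (fun k : {k | (z k).1 = i} => (z k).2) τ') (B : ℕ)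
    (hi : ∀ k, (z k).1 ≠ i₀) (hz : ∀ k, (z k).1 < B) (hB : i₀ < B) :
    Teq N A e (Sum.elim z (blk B τ')) (Sum.elim z (blk i₀ τ')) := by
  classical
  let w : ℕ → κ → ℕ × ι := fun n k => (if n ≤ (z k).1 then (z k).1 + 1 else (z k).1, (z k).2)
  have key : ∀ n, i₀ + 1 ≤ n →
      Teq N A e (Sum.elim (w n) (blk n τ')) (Sum.elim (w (i₀ + 1)) (blk (i₀ + 1) τ')) := by
    intro n hn
    induction n, hn using Nat.le_induction with
    | base => exact Teq.refl hH _
    | succ n hn ih => exact (move_step hH z τ' n (h n (by omega))).trans ih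
  have h1 : w B = z := by
    funext k
    have := hz k
    have h2 : ¬ (B ≤ (z k).1) := by omega
    simp only [w, if_neg h2]
  have h2 := key B hB
  rw [h1] at h2
  refine h2.trans (teq_pat hH _ _ ?_ ?_)
  · rintro (k | k) <;> rfl
  · have h3 : ∀ k, (i₀ + 1 ≤ (z k).1 ∧ (w (i₀ + 1) k).1 = (z k).1 + 1) ∨
        ((z k).1 < i₀ ∧ (w (i₀ + 1) k).1 = (z k).1) := by
      intro k
      have := hi k
      by_cases h4 : i₀ + 1 ≤ (z k).1
      · left
        exact ⟨h4, by simp only [w, if_pos h4]⟩
      · right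
        exact ⟨by omega, by simp only [w, if_neg h4]⟩
    rintro (k | k) (k' | k') <;> simp only [Sum.elim_inl, Sum.elim_inr, blk]
    · have h4 := h3 k
      have h5 := h3 k'
      omega
    · have h4 := h3 k
      omega
    · have h5 := h3 k'
      omega
    · simp

/-- If every block part of `z` commutes with `τ'` then `τ'` can be moved from the block `B` behind
`z` to the block `0` in front of `z`. Proof: `move_step` for `n = B - 1, …, 0` (induction: for all
`n ≤ B`, `(z, (B, τ'))` has the type of `(w n, (n, τ'))`), then relocation (`teq_pat`). -/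
theorem move (hH : Hom N A e) [Finite κ] [Finite κ'] (z : κ → ℕ × ι) (τ' : κ' → ι)
    (h : ∀ i, Perp N A e (fun k : {k | (z k).1 = i} => (z k).2) τ') (B : ℕ)
    (hz : ∀ k, 0 < (z k).1 ∧ (z k).1 < B) :
    Teq N A e (Sum.elim z (blk B τ')) (Sum.elim z (blk 0 τ')) := by
  rcases isEmpty_or_nonempty κ with he | ⟨⟨k₀⟩⟩
  · refine teq_pat hH _ _ ?_ ?_
    · rintro (k | k) <;> rfl
    · rintro (k | k) (k' | k')
      · exact (he.false k).elim
      · exact (he.false k).elim
      · exact (he.false k').elim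
      · simp [blk]
  · exact move_aux hH z τ' 0 (fun i _ => h i) B (fun k => (hz k).1.ne') (fun k => (hz k).2)
      (lt_trans (hz k₀).1 (hz k₀).2)

/-- Partial version: `τ'` is moved from the block `B` behind `z` to the free block `i₀`, if it
commutes with all block parts of `z` in blocks `> i₀` and no letter of `z` is in the block `i₀`.
The same induction, stopped at `i₀`; then relocation (`teq_pat`). -/
theorem move_to (hH : Hom N A e) [Finite κ] [Finite κ'] (z : κ → ℕ × ι) (τ' : κ' → ι)
    (i₀ : ℕ) (h : ∀ i, i₀ < i → Perp N A e (fun k : {k | (z k).1 = i} => (z k).2) τ') (B : ℕ)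
    (hi : ∀ k, (z k).1 ≠ i₀) (hz : ∀ k, (z k).1 < B) (hB : i₀ < B) :
    Teq N A e (Sum.elim z (blk B τ')) (Sum.elim z (blk i₀ τ')) :=
  move_aux hH z τ' i₀ h B hi hz hB

end Pool.H17.TA
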