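import Mathlib
import Pool.Agent.H22.VC.GenPerm

/-!
# Infinite Ramsey theorem for increasing `n`-tuples
-/

set_option autoImplicit false

namespace Pool.H17.TA

open Pool.H22.VC Filter

private theorem ram_seq {E : Type} (P : ℕ → (ℕ → E) → Prop)
    (hcongr : ∀ q e e', (∀ p < q, e p = e' p) → P q e → P q e') (e₀ : ℕ → E) (h0 : P 0 e₀)
    (hs : ∀ q e, P q e → ∃ x, P (q + 1) (Function.update e q x)) : ∃ e, ∀ q, P q e := by
  classical
  let st : (k : ℕ) → {e : ℕ → E // P k e} := fun k =>
    Nat.rec ⟨e₀, h0⟩ (fun k e => ⟨Function.update e.1 k (hs k e.1 e.2).choose,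
      (hs k e.1 e.2).choose_spec⟩) k
  have hst : ∀ k, (st (k + 1)).1 = Function.update (st k).1 k
      (hs k (st k).1 (st k).2).choose := fun k => rfl
  let e : ℕ → E := fun p => (st (p + 1)).1 p
  have he : ∀ k p, p < k → (st k).1 p = e p := by
    intro k
    induction k with
    | zero => intro p hp; exact absurd hp (Nat.not_lt_zero p)
    | succ k ih =>
      intro p hp
      by_cases hpk : p = k
      · subst hpk
        rfl
      · rw [hst k, Function.update_of_ne hpk]
        exact ih p (by omega)
  exact ⟨e, fun q => hcongr q _ e (he q) (st q).2⟩

/-- iterated limit of `f` over the last `m` entries -/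
private noncomputable def ramL {C : Type} {n : ℕ} (f : (Fin n → ℕ) → C) : ℕ → List ℕ → C
  | 0, l => f (fun i => l.getD i 0)
  | (m + 1), l => ulim (hyperfilter ℕ) (fun x => ramL f m (l ++ [x]))

/-- Infinite Ramsey theorem. PROOF. Induction on `n`. Step: colours `f` of `(n + 1)`-tuples. Choose
`a 0 < a 1 < …` and strictly monotone `ψ i : ℕ → ℕ` (subsequences, each a subsequence of the
preceding one, with first element `a i`) such that `f (a i, ψ (i + 1) ∘ t)` does not depend on the
increasing `n`-tuple `t` (induction hypothesis for `t ↦ f (Fin.cons (a i) (ψ ∘ t))`); one colour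
`c` occurs for infinitely many `i`. (Or with a nonprincipal ultrafilter.) -/
theorem ramseyN {C : Type} [Finite C] (n : ℕ) (f : (Fin n → ℕ) → C) :
    ∃ φ : ℕ → ℕ, StrictMono φ ∧ ∀ t t' : Fin n → ℕ, StrictMono t → StrictMono t' →
      f (fun i => φ (t i)) = f (fun i => φ (t' i)) := by
  classical
  have hgt : ∀ m : ℕ, ∀ᶠ k in (hyperfilter ℕ : Filter ℕ), m < k := by
    intro m
    have : ({l | m < l} : Set ℕ) ∈ hyperfilter ℕ := by
      have h1 : ({l | m < l} : Set ℕ) = (Set.Iic m)ᶜ := by
        ext l
        simp
      rw [h1]
      exact (Set.finite_Iic m).compl_mem_hyperfilter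
    exact this
  obtain ⟨φ, hφ⟩ := ram_seq (fun q (φ : ℕ → ℕ) => (∀ i j, i < j → j < q → φ i < φ j) ∧
      ∀ S : Finset ℕ, (∀ x ∈ S, x < q) → S.card ≤ n →
        ramL f (n - S.card) ((S.sort (· ≤ ·)).map φ) = ramL f n []) (by
      intro q e e' hee h
      refine ⟨fun i j hij hj => ?_, fun S hS hcard => ?_⟩
      · rw [← hee i (by omega), ← hee j hj]
        exact h.1 i j hij hj
      · rw [← h.2 S hS hcard]
        congr 1
        refine List.map_congr_left (fun x hx => ?_)
        rw [Finset.mem_sort] at hx
        exact (hee x (hS x hx)).symm) (fun _ => 0) (by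
      refine ⟨fun i j hij hj => absurd hj (Nat.not_lt_zero j), fun S hS hcard => ?_⟩
      have : S = ∅ := Finset.eq_empty_of_forall_notMem (fun x hx => absurd (hS x hx) (Nat.not_lt_zero x))
      subst this
      simp) (by
      rintro q φ ⟨h1, h2⟩
      have h3 : ∀ᶠ x in (hyperfilter ℕ : Filter ℕ), ∀ S ∈ (Finset.range q).powerset,
          S.card < n → ramL f (n - S.card - 1) ((S.sort (· ≤ ·)).map φ ++ [x]) = ramL f n [] := by
        rw [Filter.eventually_all_finset]
        intro S hS
        by_cases hc : S.card < n
        · have h4 := h2 S (fun x hx => Finset.mem_range.1 (Finset.mem_powerset.1 hS hx)) hc.le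
          have h5 : n - S.card = (n - S.card - 1) + 1 := by omega
          rw [h5] at h4
          have h6 := ulim_spec (U := hyperfilter ℕ) (R := (Set.univ : Set C)) Set.finite_univ
            (g := fun x => ramL f (n - S.card - 1) ((S.sort (· ≤ ·)).map φ ++ [x]))
            (fun _ => Set.mem_univ _)
          refine h6.mono (fun x hx _ => ?_)
          rw [hx]
          exact h4
        · exact Filter.Eventually.of_forall (fun x h => absurd h hc)
      have h4 : ∀ᶠ x in (hyperfilter ℕ : Filter ℕ), ∀ i ∈ Finset.range q, φ i < x := by
        rw [Filter.eventually_all_finset]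
        intro i _
        exact hgt _
      obtain ⟨x, hx3, hx4⟩ := (h3.and h4).exists
      refine ⟨x, fun i j hij hj => ?_, fun S hS hcard => ?_⟩
      · by_cases hjq : j = q
        · subst hjq
          rw [Function.update_self, Function.update_of_ne hij.ne]
          exact hx4 i (Finset.mem_range.2 hij)
        · rw [Function.update_of_ne hjq, Function.update_of_ne (by omega)]
          exact h1 i j hij (by omega)
      · by_cases hq : q ∈ S
        · have hS' : ∀ y ∈ S.erase q, y < q := by
            intro y hy
            obtain ⟨hy1, hy2⟩ := Finset.mem_erase.1 hy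
            have := hS y hy2
            omega
          have hsort : S.sort (· ≤ ·) = (S.erase q).sort (· ≤ ·) ++ [q] := by
            refine sorted_ext (sort_pairwise_lt _) ?_ (fun y => ?_)
            · rw [List.pairwise_append]
              refine ⟨sort_pairwise_lt _, List.pairwise_singleton _ _, ?_⟩
              intro y hy z hz
              rw [Finset.mem_sort] at hy
              rw [List.mem_singleton] at hz
              rw [hz]
              exact hS' y hy
            · rw [Finset.mem_sort, List.mem_append, Finset.mem_sort, Finset.mem_erase,
                List.mem_singleton]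
              constructor
              · intro h
                by_cases hyq : y = q
                · exact Or.inr hyq
                · exact Or.inl ⟨hyq, h⟩
              · rintro (h | h)
                · exact h.2
                · rw [h]
                  exact hq
          have hcard' : (S.erase q).card = S.card - 1 := Finset.card_erase_of_mem hq
          have hpos : 0 < S.card := Finset.card_pos.2 ⟨q, hq⟩
          have h5 := hx3 (S.erase q) (Finset.mem_powerset.2 (fun y hy =>
            Finset.mem_range.2 (hS' y hy))) (by omega)
          have h6 : n - (S.erase q).card - 1 = n - S.card := by omega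
          rw [h6] at h5
          rw [hsort, List.map_append, ← h5]
          congr 1
          congr 1
          · refine List.map_congr_left (fun y hy => ?_)
            rw [Finset.mem_sort] at hy
            rw [Function.update_of_ne (hS' y hy).ne]
          · simp
        · have hS' : ∀ y ∈ S, y < q := by
            intro y hy
            have := hS y hy
            have hyq : y ≠ q := fun h => hq (h ▸ hy)
            omega
          rw [← h2 S hS' hcard]
          congr 1
          refine List.map_congr_left (fun y hy => ?_)
          rw [Finset.mem_sort] at hy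
          rw [Function.update_of_ne (hS' y hy).ne])
  refine ⟨φ, ?_, ?_⟩
  · intro i j hij
    exact (hφ (j + 1)).1 i j hij (Nat.lt_succ_self j)
  · have key : ∀ t : Fin n → ℕ, StrictMono t → f (fun i => φ (t i)) = ramL f n [] := by
      intro t ht
      have hcard : (Finset.univ.image t).card = n := by
        rw [Finset.card_image_of_injective _ ht.injective]
        simp
      obtain ⟨q, hq⟩ : ∃ q, ∀ x ∈ Finset.univ.image t, x < q :=
        ⟨(Finset.univ.image t).sup id + 1, fun x hx => Nat.lt_succ_of_le
          (Finset.le_sup (f := id) hx)⟩
      have h1 := (hφ q).2 (Finset.univ.image t) hq hcard.le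
      rw [hcard, Nat.sub_self] at h1
      have hsort : (Finset.univ.image t).sort (· ≤ ·) = List.ofFn t := by
        refine sorted_ext (sort_pairwise_lt _) ?_ (fun y => ?_)
        · rw [List.pairwise_ofFn]
          intro i j hij
          exact ht hij
        · rw [Finset.mem_sort, Finset.mem_image, List.mem_ofFn]
          simp
      rw [hsort] at h1
      rw [← h1]
      show f _ = f _
      congr 1
      funext i
      simp [List.getD]
    intro t t' ht ht'
    rw [key t ht, key t' ht']

end Pool.H17.TA
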