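import Mathlib

/-!
# Subsequences of sequences of tuples of natural numbers
-/

set_option autoImplicit false

namespace Pool.H17.TA

open Function Set

/-- a sequence of natural numbers has a constant or a strictly increasing subsequence -/
theorem sub_one (u : ℕ → ℕ) : ∃ φ : ℕ → ℕ, StrictMono φ ∧
    ((∃ a, ∀ i, u (φ i) = a) ∨ StrictMono (fun i => u (φ i))) := by
  classical
  by_cases h : ∃ a, {i | u i = a}.Infinite
  · obtain ⟨a, ha⟩ := h
    obtain ⟨φ, hφ, hφ'⟩ := Filter.extraction_of_frequently_atTop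
      (Nat.frequently_atTop_iff_infinite.2 ha)
    exact ⟨φ, hφ, Or.inl ⟨a, hφ'⟩⟩
  · push Not at h
    have ht : Filter.Tendsto u Filter.atTop Filter.atTop := by
      rw [Filter.tendsto_atTop]
      intro b
      have hfin : {i | u i < b}.Finite := by
        have : {i | u i < b} = ⋃ a ∈ Iio b, {i | u i = a} := by
          ext i
          simp
        rw [this]
        exact (finite_Iio b).biUnion (fun a _ => h a)
      have := hfin.compl_mem_cofinite
      rw [Nat.cofinite_eq_atTop] at this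
      filter_upwards [this] with i hi
      exact not_lt.1 hi
    obtain ⟨φ, h1, h2⟩ := Filter.strictMono_subseq_of_tendsto_atTop ht
    exact ⟨φ, h1, Or.inr h2⟩

/-- The same for a finite number of sequences. (Subsequences of constant / strictly increasing
sequences have the same property.) -/
theorem sub_many {n : ℕ} (u : ℕ → Fin n → ℕ) : ∃ φ : ℕ → ℕ, StrictMono φ ∧
    ∀ c, (∃ a, ∀ i, u (φ i) c = a) ∨ StrictMono (fun i => u (φ i) c) := by
  classical
  have key : ∀ S : Finset (Fin n), ∃ φ : ℕ → ℕ, StrictMono φ ∧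
      ∀ c ∈ S, (∃ a, ∀ i, u (φ i) c = a) ∨ StrictMono (fun i => u (φ i) c) := by
    intro S
    induction S using Finset.induction_on with
    | empty => exact ⟨id, strictMono_id, fun c hc => absurd hc (Finset.notMem_empty c)⟩
    | insert c₀ S hc₀ ih =>
      obtain ⟨φ, h1, h2⟩ := ih
      obtain ⟨ψ, h3, h4⟩ := sub_one (fun i => u (φ i) c₀)
      refine ⟨fun i => φ (ψ i), h1.comp h3, fun c hc => ?_⟩
      rcases Finset.mem_insert.1 hc with rfl | hc
      · exact h4
      · rcases h2 c hc with ⟨a, ha⟩ | h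
        · exact Or.inl ⟨a, fun i => ha _⟩
        · exact Or.inr (h.comp h3)
  obtain ⟨φ, h1, h2⟩ := key Finset.univ
  exact ⟨φ, h1, fun c => h2 c (Finset.mem_univ c)⟩

/-- Moreover the entries which are not constant are outside a given finite set, the entries with
different indices are separated, and the equality pattern inside a tuple is constant (pigeonhole). -/
theorem sub_sep {n : ℕ} (u : ℕ → Fin n → ℕ) (A : Set ℕ) (hA : A.Finite) :
    ∃ (φ : ℕ → ℕ) (I : Set (Fin n)) (a : Fin n → ℕ) (E : Fin n → Fin n → Prop), StrictMono φ ∧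
      (∀ c ∉ I, ∀ i, u (φ i) c = a c) ∧
      (∀ c ∈ I, ∀ i, u (φ i) c ∉ A ∧ ∀ d ∉ I, u (φ i) c ≠ a d) ∧
      (∀ c ∈ I, ∀ d ∈ I, ∀ i j, i < j → u (φ i) c < u (φ j) d) ∧
      ∀ c d i, u (φ i) c = u (φ i) d ↔ E c d := by
  classical
  obtain ⟨φ, hφ, h1⟩ := sub_many u
  let I : Set (Fin n) := {c | ¬ ∃ a, ∀ i, u (φ i) c = a}
  have hI : ∀ c ∈ I, StrictMono (fun i => u (φ i) c) := fun c hc => (h1 c).resolve_left hc
  have hnI : ∀ c ∉ I, ∃ a, ∀ i, u (φ i) c = a := fun c hc => not_not.1 hc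
  let a : Fin n → ℕ := fun c => u (φ 0) c
  have ha : ∀ c ∉ I, ∀ i, u (φ i) c = a c := by
    intro c hc i
    obtain ⟨b, hb⟩ := hnI c hc
    rw [hb i]
    exact (hb 0).symm
  -- bound
  obtain ⟨B, hB⟩ : ∃ B, (∀ x ∈ A, x ≤ B) ∧ ∀ c, a c ≤ B := by
    obtain ⟨B₁, hB₁⟩ := hA.bddAbove
    refine ⟨max B₁ (Finset.univ.sup a), fun x hx => (hB₁ hx).trans (le_max_left _ _), fun c =>
      (Finset.le_sup (f := a) (Finset.mem_univ c)).trans (le_max_right _ _)⟩
  let Mx : ℕ → ℕ := fun i => Finset.univ.sup (fun c => u (φ i) c)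
  have hMx : ∀ i c, u (φ i) c ≤ Mx i := fun i c =>
    Finset.le_sup (f := fun c => u (φ i) c) (Finset.mem_univ c)
  let ψ : ℕ → ℕ := fun j => Nat.rec (B + 1) (fun _ p => max (Mx p) p + 1) j
  have hψ0 : ψ 0 = B + 1 := rfl
  have hψs : ∀ j, ψ (j + 1) = max (Mx (ψ j)) (ψ j) + 1 := fun j => rfl
  have hψ : StrictMono ψ := strictMono_nat_of_lt_succ (fun j => by
    rw [hψs]
    exact Nat.lt_succ_of_le (le_max_right _ _))
  have hψB : ∀ j, B < ψ j := fun j => by
    have := hψ.monotone (Nat.zero_le j)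
    omega
  have hψM : ∀ i j, i < j → Mx (ψ i) < ψ j := by
    intro i j hij
    have h2 : Mx (ψ i) < ψ (i + 1) := by
      rw [hψs]
      exact Nat.lt_succ_of_le (le_max_left _ _)
    exact h2.trans_le (hψ.monotone hij)
  have hval : ∀ c ∈ I, ∀ j, ψ j ≤ u (φ (ψ j)) c := fun c hc j => (hI c hc).le_apply
  -- pattern
  let pat : ℕ → (Fin n → Fin n → Prop) := fun i c d => u (φ (ψ i)) c = u (φ (ψ i)) d
  obtain ⟨E, hE⟩ := Finite.exists_infinite_fiber pat
  have hE' : {i | pat i = E}.Infinite := by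
    have := Set.infinite_coe_iff.1 hE
    exact this
  obtain ⟨χ, hχ, hχE⟩ := Filter.extraction_of_frequently_atTop
    (Nat.frequently_atTop_iff_infinite.2 hE')
  refine ⟨fun i => φ (ψ (χ i)), I, a, E, hφ.comp (hψ.comp hχ), ?_, ?_, ?_, ?_⟩
  · intro c hc i
    exact ha c hc _
  · intro c hc i
    have h3 := hval c hc (χ i)
    have h4 := hψB (χ i)
    have h5 : B < u (φ (ψ (χ i))) c := lt_of_lt_of_le h4 h3
    refine ⟨fun h => ?_, fun d _ h => ?_⟩
    · exact absurd (hB.1 _ h) (not_le.2 h5)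
    · have h6 : u (φ (ψ (χ i))) c = a d := h
      rw [h6] at h5
      exact absurd (hB.2 d) (not_le.2 h5)
  · intro c _ d hd i j hij
    have h3 := hψM (χ i) (χ j) (hχ hij)
    exact ((hMx _ c).trans_lt h3).trans_le (hval d hd _)
  · intro c d i
    have h3 := congrFun (congrFun (hχE i) c) d
    show pat (χ i) c d ↔ E c d
    rw [h3]

end Pool.H17.TA
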