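import Pool.Agent.H17.TA.Tq0
import Pool.Agent.H17.TA.Ram
import Pool.Agent.H17.TA.Sub

/-!
# Normal form of sequences
-/

set_option autoImplicit false

namespace Pool.H17.TA

open Pool.H22.VC Function Set

variable {r : ℕ} {K ι κ κ' : Type} {N : Col r K ℕ} {A : Set ℕ} {e : ℕ → ι → ℕ}

/-- A block sequence has a homogeneous subsequence. PROOF. Colour an increasing `r`-tuple `s` of
block numbers by the function which maps `t : Fin r → A ⊕ (Fin r × ι)` to the colour of the tuple
`t` with the block `s i` for `i : Fin r`; finitely many colours. For a tuple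
`t : Fin r → ℕ ⊕ (ℕ × ι)` at most `r` block numbers are used; choose an increasing `r`-tuple
containing them. -/
theorem hom_sub [Finite ι] (hN : (range N).Finite) (hA : A.Finite)
    (inj : ∀ i j c d, e i c = e j d → i = j ∧ c = d) (notA : ∀ i c, e i c ∉ A) :
    ∃ φ : ℕ → ℕ, StrictMono φ ∧ Hom N A (fun i => e (φ i)) := by
  classical
  have hfA : Finite A := hA.to_subtype
  have hfN : Finite (range N) := hN.to_subtype
  let F : (Fin r → ℕ) → ((Fin r → A ⊕ (Fin r × ι)) → range N) := fun s τ =>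
    ⟨N (fun j => Sum.elim Subtype.val (fun p => e (s p.1) p.2) (τ j)), ⟨_, rfl⟩⟩
  obtain ⟨φ, hφ, hF⟩ := ramseyN r F
  refine ⟨φ, hφ, ⟨?_, fun i c => notA _ c, ?_⟩⟩
  · intro i j c d h
    obtain ⟨h1, h2⟩ := inj _ _ c d h
    exact ⟨hφ.injective h1, h2⟩
  · intro φ' hφ' t ht
    -- the block numbers
    let P : Finset ℕ := Finset.univ.biUnion (fun j => Sum.elim (fun _ => (∅ : Finset ℕ))
      (fun p => {p.1}) (t j))
    have hP : ∀ j i c, t j = Sum.inr (i, c) → i ∈ P := by
      intro j i c hj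
      simp only [P, Finset.mem_biUnion, Finset.mem_univ, true_and]
      exact ⟨j, by rw [hj]; simp⟩
    have hcard : P.card ≤ r := by
      refine Finset.card_biUnion_le.trans ?_
      calc _ ≤ ∑ _j : Fin r, 1 := by
            refine Finset.sum_le_sum (fun j _ => ?_)
            rcases t j with a | p <;> simp
        _ = r := by simp
    obtain ⟨Q, hPQ, hQ⟩ := Infinite.exists_superset_card_eq P r hcard
    let s : Fin r → ℕ := Q.orderEmbOfFin hQ
    have hs : StrictMono s := (Q.orderEmbOfFin hQ).strictMono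
    have hsQ : ∀ i ∈ Q, ∃ k, s k = i := by
      intro i hi
      have : i ∈ Set.range (Q.orderEmbOfFin hQ) := by
        rw [Finset.range_orderEmbOfFin]
        exact hi
      exact this
    have hex : ∀ j, ∃ τ : A ⊕ (Fin r × ι), t j = Sum.map Subtype.val (fun p => (s p.1, p.2)) τ := by
      intro j
      rcases htj : t j with a | ⟨i, c⟩
      · exact ⟨Sum.inl ⟨a, ht j a htj⟩, rfl⟩
      · obtain ⟨k, hk⟩ := hsQ i (hPQ (hP j i c htj))
        exact ⟨Sum.inr (k, c), by simp [hk]⟩
    choose τ hτ using hex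
    have h1 := congrArg Subtype.val (congrFun (hF (fun k => φ' (s k)) s (hφ'.comp hs) hs) τ)
    have h2 : (fun j => ev (fun i => e (φ i)) (sh φ' (t j))) =
        (fun j => Sum.elim Subtype.val (fun p => e (φ (φ' (s p.1))) p.2) (τ j)) := by
      funext j
      rw [hτ j]
      rcases τ j with a | ⟨k, c⟩ <;> rfl
    have h3 : (fun j => ev (fun i => e (φ i)) (t j)) =
        (fun j => Sum.elim Subtype.val (fun p => e (φ (s p.1)) p.2) (τ j)) := by
      funext j
      rw [hτ j]
      rcases τ j with a | ⟨k, c⟩ <;> rfl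
    rw [h2, h3]
    exact h1

/-- NORM. Every sequence of `n`-tuples has a subsequence which consists of constants and of letters
of a homogeneous block sequence over a finite set `A' ⊇ A`, every letter being used. (`sub_sep`, the
letters are the classes of `E` in `I`; then `hom_sub`.) -/
theorem norm (hN : (range N).Finite) (hA : A.Finite) {n : ℕ} (u : ℕ → Fin n → ℕ) :
    ∃ (A' : Set ℕ) (φ : ℕ → ℕ) (m : ℕ) (e' : ℕ → Fin m → ℕ) (χ : Fin n → ℕ ⊕ Fin m),
      A'.Finite ∧ A ⊆ A' ∧ StrictMono φ ∧ Hom N A' e' ∧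
      (∀ c a, χ c = Sum.inl a → a ∈ A') ∧ (∀ d, ∃ c, χ c = Sum.inr d) ∧
      ∀ i c, u (φ i) c = Sum.elim id (e' i) (χ c) := by
  classical
  obtain ⟨φ, I, a, E, hφ, h1, h2, h3, h4⟩ := sub_sep u A hA
  let A' : Set ℕ := A ∪ a '' Iᶜ
  have hA' : A'.Finite := hA.union ((Set.toFinite _).image _)
  let F : Finset ℕ := (Finset.univ.filter (fun c => c ∈ I)).image (fun c => u (φ 0) c)
  have hF : ∀ c ∈ I, u (φ 0) c ∈ F := fun c hc =>
    Finset.mem_image.2 ⟨c, Finset.mem_filter.2 ⟨Finset.mem_univ c, hc⟩, rfl⟩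
  let en : Fin F.card → ℕ := fun d => (F.equivFin.symm d : ℕ)
  have hen : ∀ d, ∃ c ∈ I, u (φ 0) c = en d := by
    intro d
    obtain ⟨c, hc, hc'⟩ := Finset.mem_image.1 (F.equivFin.symm d).2
    exact ⟨c, (Finset.mem_filter.1 hc).2, hc'⟩
  choose rep hrepI hrep using hen
  let e' : ℕ → Fin F.card → ℕ := fun i d => u (φ i) (rep d)
  let χ : Fin n → ℕ ⊕ Fin F.card := fun c =>
    if h : c ∈ I then Sum.inr (F.equivFin ⟨u (φ 0) c, hF c h⟩) else Sum.inl (a c)
  have hχI : ∀ c (h : c ∈ I), χ c = Sum.inr (F.equivFin ⟨u (φ 0) c, hF c h⟩) :=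
    fun c h => dif_pos h
  have hχn : ∀ c, c ∉ I → χ c = Sum.inl (a c) := fun c h => dif_neg h
  have hval : ∀ i c, u (φ i) c = Sum.elim id (e' i) (χ c) := by
    intro i c
    by_cases h : c ∈ I
    · rw [hχI c h]
      show u (φ i) c = u (φ i) (rep _)
      rw [h4, ← h4 _ _ 0, hrep]
      simp [en]
    · rw [hχn c h]
      exact h1 c h i
  have hinj : ∀ i j c d, e' i c = e' j d → i = j ∧ c = d := by
    intro i j c d h
    have hij : i = j := by
      rcases lt_trichotomy i j with hlt | heq | hgt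
      · exact absurd h (h3 _ (hrepI c) _ (hrepI d) i j hlt).ne
      · exact heq
      · exact absurd h.symm (h3 _ (hrepI d) _ (hrepI c) j i hgt).ne
    subst hij
    refine ⟨rfl, ?_⟩
    have h5 : E (rep c) (rep d) := (h4 _ _ i).1 h
    have h6 := (h4 _ _ 0).2 h5
    rw [hrep, hrep] at h6
    have h7 : F.equivFin.symm c = F.equivFin.symm d := Subtype.ext h6
    exact F.equivFin.symm.injective h7
  have hnotA : ∀ i c, e' i c ∉ A' := by
    intro i c hc
    rcases hc with hc | ⟨d, hd, hc⟩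
    · exact (h2 _ (hrepI c) i).1 hc
    · exact (h2 _ (hrepI c) i).2 d hd hc.symm
  obtain ⟨ψ, hψ, hH⟩ := hom_sub (N := N) (A := A') (e := e') hN hA' hinj hnotA
  refine ⟨A', fun i => φ (ψ i), F.card, fun i => e' (ψ i), χ, hA', subset_union_left,
    hφ.comp hψ, hH, ?_, ?_, fun i c => hval (ψ i) c⟩
  · intro c b hc
    by_cases h : c ∈ I
    · rw [hχI c h] at hc
      simp at hc
    · rw [hχn c h] at hc
      rw [← Sum.inl.inj hc]
      exact Or.inr ⟨c, h, rfl⟩
  · intro d
    refine ⟨rep d, ?_⟩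
    rw [hχI _ (hrepI d)]
    congr 1
    have : (⟨u (φ 0) (rep d), hF _ (hrepI d)⟩ : F) = F.equivFin.symm d := Subtype.ext (hrep d)
    rw [this]
    simp

end Pool.H17.TA
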