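import Pool.Agent.H17.TA.Cnt2

/-!
# Pair lemma
-/

set_option autoImplicit false

namespace Pool.H17.TA

open Pool.H22.VC Function Set

variable {r : ℕ} {K ι κ κ' : Type} {N : Col r K ℕ} {A : Set ℕ} {e : ℕ → ι → ℕ}

/-- the number of `X`-tuples before the end of the `k`-th group of the words `[∅][univ]`,
`[T][univ]` (`n = 1`) -/
theorem pair_word (s : ℕ → Bool) (T : Set ι) (i : ℕ) :
    BS 1 (fun b => if b then [T] else [∅]) s i =
      if i % 2 = 1 then univ else if s (i / 2) then T else ∅ := by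
  unfold BS
  by_cases h : i % 2 = 1
  · rw [if_pos h, if_pos h]
  · have h0 : i % (1 + 1) = 0 := by omega
    rw [if_neg h, if_neg h, h0]
    cases s (i / (1 + 1)) <;> simp

/-- the number of `τ`-tuples in the blocks `≤ 2 j` -/
noncomputable def pairH (N : Col r K ℕ) (A : Set ℕ) (e : ℕ → ι → ℕ) (τ : κ → ι)
    (B : ℕ → Set ι) (j : ℕ) : ℕ := ∑ i ∈ Finset.range (2 * j + 1), cX N A e τ (B i)

theorem cX_empty' [Nonempty κ] (τ : κ → ι) : cX N A e τ ∅ = 0 := by
  unfold cX cQ
  have h : LX N A e τ (fun _ _ => True) ∅ = ∅ := by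
    ext σ
    simp only [LX, mem_setOf_eq, mem_empty_iff_false, iff_false]
    rintro ⟨-, h, -⟩
    exact h (Classical.arbitrary κ)
  rw [h, ncard_empty]

theorem cX_range (hH : Hom N A e) [Finite ι] [Finite κ] {τ : κ → ι} (hi : Injective τ)
    {S : Set ι} (hS : range τ ⊆ S) : 1 ≤ cX N A e τ S := by
  unfold cX cQ
  rw [Nat.one_le_iff_ne_zero, ← Nat.pos_iff_ne_zero, ncard_pos (Set.toFinite _)]
  exact ⟨τ, hi, fun k => hS (mem_range_self k), Teq.refl hH _, trivial⟩

theorem pairH_succ (τ : κ → ι) (B : ℕ → Set ι) (j : ℕ) :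
    pairH N A e τ B (j + 1) = pairH N A e τ B j + cX N A e τ (B (2 * j + 1)) +
      cX N A e τ (B (2 * j + 2)) := by
  unfold pairH
  have e1 : 2 * (j + 1) + 1 = (2 * j + 1) + 1 + 1 := by ring
  rw [e1, Finset.sum_range_succ, Finset.sum_range_succ]

theorem pairH_mono (hH : Hom N A e) [Finite ι] [Finite κ] {τ : κ → ι} (hi : Injective τ)
    (B : ℕ → Set ι) (hB : ∀ j, B (2 * j + 1) = univ) {i j : ℕ} (hij : i < j) :
    pairH N A e τ B i < pairH N A e τ B j := by
  have h1 : StrictMono (pairH N A e τ B) := by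
    refine strictMono_nat_of_lt_succ fun n => ?_
    rw [pairH_succ, hB]
    have := cX_range (N := N) (A := A) (e := e) hH hi (subset_univ (range τ))
    omega
  exact h1 hij

theorem pair_aux (hH : Hom N A e) [Finite ι] [Finite κ]
    [Finite κ'] [Nonempty κ] [Nonempty κ'] {τ : κ → ι} {τ' : κ' → ι} (hi : Injective τ)
    (hi' : Injective τ') (hn : ¬ Perp N A e τ τ')
    (hin : ∀ z : κ → ℕ × ι, Teq N A e z (blk 0 τ) → ∀ k k', (z k).1 = (z k').1)
    (hin' : ∀ z : κ' → ℕ × ι, Teq N A e z (blk 0 τ') → ∀ k k', (z k).1 = (z k').1)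
    (hno : ∀ ρ : κ' → κ, Injective ρ → ¬ Teq N A e (blk 0 (fun k => τ (ρ k))) (blk 0 τ'))
    (s s' : ℕ → Bool) (k : ℕ) (hlt : ∀ j < k, s j = s' j) (hs : s k = false)
    (hs' : s' k = true) (g : ℕ × ι → ℕ × ι)
    (hg : Pres N A e g (Dm (BS 1 (fun b => if b then [range τ] else [∅]) s))
      (Dm (BS 1 (fun b => if b then [range τ] else [∅]) s'))) : False := by
  classical
  set l : Bool → List (Set ι) := fun b => if b then [range τ] else [∅] with hl
  have hodd : ∀ (s : ℕ → Bool) (j : ℕ), BS 1 l s (2 * j + 1) = univ := fun s j => BS_full 1 l s j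
  -- the tuples of type `τ'`
  have hX : ∀ (s : ℕ → Bool) (z : κ' → ℕ × ι), z ∈ XT N A e τ' (Dm (BS 1 l s)) ↔
      ∃ j, ∃ σ' ∈ LX N A e τ' (fun _ _ => True) univ, z = blk (2 * j + 1) σ' := by
    intro s z
    rw [mem_XT_iff hH hin']
    constructor
    · rintro ⟨i, σ', hσ', rfl⟩
      have hw := pair_word s (range τ) i
      by_cases hi2 : i % 2 = 1
      · have e1 : i = 2 * (i / 2) + 1 := by omega
        refine ⟨i / 2, σ', ?_, by rw [← e1]⟩
        rw [e1, hodd] at hσ'
        exact hσ'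
      · exfalso
        rw [if_neg hi2] at hw
        obtain ⟨a1, a2, a3, -⟩ := hσ'
        by_cases hsi : s (i / 2) = true
        · rw [if_pos hsi] at hw
          have a4 : ∀ k, ∃ k', τ k' = σ' k := by
            intro k
            have := a2 k
            rw [hw] at this
            exact this
          choose ρ hρ using a4
          refine hno ρ (fun x y hxy => a1 ?_) ?_
          · rw [← hρ x, ← hρ y, hxy]
          · have e2 : (fun k => τ (ρ k)) = σ' := funext hρ
            rw [e2]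
            exact a3
        · rw [if_neg hsi] at hw
          have := a2 (Classical.arbitrary κ')
          rw [hw] at this
          exact this
    · rintro ⟨j, σ', hσ', rfl⟩
      exact ⟨2 * j + 1, σ', by rw [hodd]; exact hσ', rfl⟩
  -- heights
  obtain ⟨v, hv⟩ : ∃ v : (κ' → ι) → ℕ, ∀ σ', v σ' =
      {σ | σ ∈ LX N A e τ (fun _ _ => True) univ ∧
          Vis N A e τ τ' (blk 0 σ) (blk 0 σ')}.ncard := ⟨_, fun _ => rfl⟩
  have hht : ∀ (s : ℕ → Bool) (j : ℕ), ∀ σ' ∈ LX N A e τ' (fun _ _ => True) univ,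
      hgt N A e τ τ' (Dm (BS 1 l s)) (blk (2 * j + 1) σ') =
        pairH N A e τ (BS 1 l s) j + v σ' := by
    intro s j σ' hσ'
    rw [hgt_bounds hH hn hin (BS 1 l s) (2 * j + 1) σ' hσ'.2.2.1, hv, hodd]
    congr 2
    ext σ
    refine and_congr_right fun _ => ?_
    have e1 : ∀ i j, Teq N A e (Sum.elim (blk i σ) (blk i σ')) (Sum.elim (blk j σ) (blk j σ')) := by
      intro i j
      have e2 : ∀ i, (Sum.elim (blk i σ) (blk i σ') : κ ⊕ κ' → ℕ × ι) =
          blk i (Sum.elim σ σ') := by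
        intro i
        funext x
        cases x <;> rfl
      rw [e2, e2]
      exact teq_blk hH i j _
    exact ⟨fun h => h.congr (e1 _ _), fun h => h.congr (e1 _ _)⟩
  -- the minimum
  have hτL : τ' ∈ LX N A e τ' (fun _ _ => True) univ :=
    ⟨hi', fun _ => mem_univ _, Teq.refl hH _, trivial⟩
  obtain ⟨σ₀, hσ₀, hmin⟩ : ∃ σ₀ ∈ LX N A e τ' (fun _ _ => True) univ,
      ∀ σ' ∈ LX N A e τ' (fun _ _ => True) univ, v σ₀ ≤ v σ' :=
    Set.exists_min_image _ v (Set.toFinite _) ⟨τ', hτL⟩
  -- comparison of `H` and `H'`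
  have hHlt : ∀ j < k, pairH N A e τ (BS 1 l s) j = pairH N A e τ (BS 1 l s') j := by
    intro j hj
    unfold pairH
    refine Finset.sum_congr rfl fun i hi => ?_
    rw [BS_congr 1 l s s' i]
    apply hlt
    have := Finset.mem_range.1 hi
    omega
  have hHk : pairH N A e τ (BS 1 l s) k < pairH N A e τ (BS 1 l s') k := by
    unfold pairH
    rw [Finset.sum_range_succ, Finset.sum_range_succ]
    have e1 : ∑ i ∈ Finset.range (2 * k), cX N A e τ (BS 1 l s i) =
        ∑ i ∈ Finset.range (2 * k), cX N A e τ (BS 1 l s' i) := by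
      refine Finset.sum_congr rfl fun i hi => ?_
      rw [BS_congr 1 l s s' i]
      apply hlt
      have := Finset.mem_range.1 hi
      omega
    have e2 : BS 1 l s (2 * k) = ∅ := by
      rw [hl, pair_word, if_neg (by omega), show 2 * k / 2 = k by omega, hs]
      rfl
    have e3 : BS 1 l s' (2 * k) = range τ := by
      rw [hl, pair_word, if_neg (by omega), show 2 * k / 2 = k by omega, hs']
      rfl
    rw [e1, e2, e3, cX_empty']
    have := cX_range (N := N) (A := A) (e := e) hH hi (subset_refl (range τ))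
    omega
  have hmono := fun (s : ℕ → Bool) => fun {i j : ℕ} (hij : i < j) =>
    pairH_mono (N := N) (A := A) (e := e) hH hi (BS 1 l s) (hodd s) hij
  set m : ℕ := pairH N A e τ (BS 1 l s) k + v σ₀ with hm
  -- the two sets
  set E : Set (κ' → ℕ × ι) := {z | z ∈ XT N A e τ' (Dm (BS 1 l s)) ∧
    hgt N A e τ τ' (Dm (BS 1 l s)) z ≤ m} with hE
  set E' : Set (κ' → ℕ × ι) := {z | z ∈ XT N A e τ' (Dm (BS 1 l s')) ∧
    hgt N A e τ τ' (Dm (BS 1 l s')) z ≤ m} with hE'
  have hEfin : E.Finite := by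
    have hsub : E ⊆ (fun p : ℕ × (κ' → ι) => (blk (2 * p.1 + 1) p.2 : κ' → ℕ × ι)) ''
        (Iic k ×ˢ univ) := by
      rintro z ⟨hz, hzm⟩
      obtain ⟨j, σ', hσ', rfl⟩ := (hX s z).1 hz
      refine ⟨(j, σ'), ⟨?_, mem_univ _⟩, rfl⟩
      show j ≤ k
      by_contra hjk
      rw [hht s j σ' hσ'] at hzm
      have h1 := hmono s (show k < j by omega)
      have h2 := hmin σ' hσ'
      omega
    exact (((finite_Iic k).prod (Set.toFinite _)).image _).subset hsub
  have hEE : E' ⊆ E ∧ blk (2 * k + 1) σ₀ ∈ E ∧ blk (2 * k + 1) σ₀ ∉ E' := by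
    refine ⟨?_, ⟨(hX s _).2 ⟨k, σ₀, hσ₀, rfl⟩, ?_⟩, ?_⟩
    · rintro z ⟨hz, hzm⟩
      obtain ⟨j, σ', hσ', rfl⟩ := (hX s' z).1 hz
      rw [hht s' j σ' hσ'] at hzm
      have h2 := hmin σ' hσ'
      have hjk : j < k := by
        by_contra hjk
        have h1 : pairH N A e τ (BS 1 l s') k ≤ pairH N A e τ (BS 1 l s') j := by
          rcases eq_or_lt_of_le (not_lt.1 hjk) with h3 | h3
          · rw [h3]
          · exact (hmono s' h3).le
        omega
      refine ⟨(hX s _).2 ⟨j, σ', hσ', rfl⟩, ?_⟩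
      rw [hht s j σ' hσ', hHlt j hjk]
      exact hzm
    · rw [hht s k σ₀ hσ₀]
    · rintro ⟨-, hzm⟩
      rw [hht s' k σ₀ hσ₀] at hzm
      omega
  have hcard : E'.ncard < E.ncard := by
    refine Set.ncard_lt_ncard ⟨hEE.1, fun h => hEE.2.2 (h hEE.2.1)⟩ hEfin
  obtain ⟨g', hg', hgg, hgg'⟩ := hg.symm
  have hcard' : E.ncard = E'.ncard := by
    refine Set.ncard_congr (fun z _ => fun k => g (z k)) ?_ ?_ ?_
    · rintro z ⟨hz, hzm⟩
      refine ⟨hg.xt hH τ' hz, ?_⟩
      rw [hg.hgt hH τ τ' hz]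
      exact hzm
    · rintro z w ⟨hz, -⟩ ⟨hw, -⟩ hzw
      funext k
      exact hg.1.injOn (hz.2.1 k) (hw.2.1 k) (congrFun hzw k)
    · rintro w ⟨hw, hwm⟩
      refine ⟨fun k => g' (w k), ⟨hg'.xt hH τ' hw, ?_⟩, ?_⟩
      · rw [hg'.hgt hH τ τ' hw]
        exact hwm
      · funext k
        exact hgg' _ (hw.2.1 k)
  omega

/-- PAIR LEMMA. Let `τ` and `τ'` be injective letter tuples which do not commute, such that the
tuples of both types lie in one block. Then some tuple of type `τ'` is contained in the range of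
`τ`. PROOF. Suppose not. `tl` with `n = 1` and the words `[∅]`, `[T]`, `T = range τ` (followed by a
full block). Let `g` preserve the types between the domains `D` of `s` and `D'` of `s'`,
`s ≠ s'`; by symmetry (`Pres.symm`) `s k = false`, `s' k = true` for the first difference `k`. The
tuples of type `τ'` lie in the full blocks `2 j + 1`; `blk (2 j + 1) σ'` has height
`H j + v σ'` in `D` and `H' j + v σ'` in `D'` (`hgt_bounds`), where `H j`, `H' j` is the number of
the `τ`-tuples in the blocks `≤ 2 j`, `v σ' ≤ cX univ`, `H (j + 1) ≥ H j + cX univ`. We have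
`H j = H' j` for `j < k` and `H' k = H k + cX T > H k` (`cX T ≥ 1` because of `τ`). Let `v₀` be the
minimum of `v` and `m = H k + v₀`. The configurations of type `τ'` in `D'` of height `≤ m` all lie
in the blocks `2 j + 1`, `j < k`; they are configurations of type `τ'` in `D` of height `≤ m`
too. There is one more of those: `blk (2 k + 1) σ'` with `v σ' = v₀`. But `g` is a bijection
between the two finite sets. -/
theorem pair (hW : ¬ Wild N univ) (hH : Hom N A e) (hA : A.Finite) [Finite ι] [Finite κ]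
    [Finite κ'] [Nonempty κ] [Nonempty κ'] {τ : κ → ι} {τ' : κ' → ι} (hi : Injective τ)
    (hi' : Injective τ') (hn : ¬ Perp N A e τ τ')
    (hin : ∀ z : κ → ℕ × ι, Teq N A e z (blk 0 τ) → ∀ k k', (z k).1 = (z k').1)
    (hin' : ∀ z : κ' → ℕ × ι, Teq N A e z (blk 0 τ') → ∀ k k', (z k).1 = (z k').1) :
    ∃ ρ : κ' → κ, Injective ρ ∧ Teq N A e (blk 0 (fun k => τ (ρ k))) (blk 0 τ') := by
  classical
  by_contra hno
  push Not at hno
  refine tl hW hH hA 1 (fun b => if b then [range τ] else [∅]) fun s s' g hg => ?_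
  by_contra hne
  have hex : ∃ k, s k ≠ s' k := by
    by_contra hcon
    push Not at hcon
    exact hne (funext hcon)
  have hk := Nat.find_spec hex
  have hlt : ∀ j < Nat.find hex, s j = s' j := fun j hj => not_not.1 (Nat.find_min hex hj)
  cases hs : s (Nat.find hex) with
  | false =>
    have hs' : s' (Nat.find hex) = true := by
      cases hs' : s' (Nat.find hex) with
      | false => exact absurd (hs.trans hs'.symm) hk
      | true => rfl
    exact pair_aux hH hi hi' hn hin hin' hno s s' _ hlt hs hs' g hg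
  | true =>
    have hs' : s' (Nat.find hex) = false := by
      cases hs' : s' (Nat.find hex) with
      | true => exact absurd (hs.trans hs'.symm) hk
      | false => rfl
    obtain ⟨g', hg', -, -⟩ := hg.symm
    exact pair_aux hH hi hi' hn hin hin' hno s' s _ (fun j hj => (hlt j hj).symm) hs' hs g' hg'

end Pool.H17.TA
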