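import Pool.Agent.H17.TA.Cp

/-!
# Commuting letter tuples
-/

set_option autoImplicit false

namespace Pool.H17.TA

open Pool.H22.VC Function Set

variable {r : ℕ} {K ι κ κ' κ₁ κ₂ : Type} {N : Col r K ℕ} {A : Set ℕ} {e : ℕ → ι → ℕ}

/-- swap the two summands (`Teq.comp` with `Sum.swap`) -/
theorem Perp.symm (hH : Hom N A e) [Finite κ] [Finite κ'] {τ : κ → ι} {τ' : κ' → ι}
    (h : Perp N A e τ τ') : Perp N A e τ' τ := by
  have h1 := (Teq.symm h).comp hH (Sum.swap : κ' ⊕ κ → κ ⊕ κ')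
  have h2 : ∀ (i j : ℕ), (fun k : κ' ⊕ κ => Sum.elim (blk i τ) (blk j τ') (Sum.swap k)) =
      Sum.elim (blk j τ') (blk i τ) := by
    intro i j
    funext k
    rcases k with k | k <;> rfl
  rw [h2, h2] at h1
  exact h1

/-- subtuples (`Teq.comp`) -/
theorem Perp.comp (hH : Hom N A e) [Finite κ] [Finite κ'] {τ : κ → ι} {τ' : κ' → ι}
    (h : Perp N A e τ τ') (ρ : κ₁ → κ) (ρ' : κ₂ → κ') :
    Perp N A e (fun k => τ (ρ k)) (fun k => τ' (ρ' k)) := by
  have h1 := Teq.comp hH h (Sum.map ρ ρ')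
  have h2 : ∀ (i j : ℕ), (fun k : κ₁ ⊕ κ₂ => Sum.elim (blk i τ) (blk j τ') (Sum.map ρ ρ' k)) =
      Sum.elim (blk i (fun k => τ (ρ k))) (blk j (fun k => τ' (ρ' k))) := by
    intro i j
    funext k
    rcases k with k | k <;> rfl
  rw [h2, h2] at h1
  exact h1

/-- commutation depends on the types only (`cp_back`, `cp_front`) -/
theorem Perp.congr (hH : Hom N A e) [Finite κ] [Finite κ'] {τ τ₁ : κ → ι} {τ' τ₁' : κ' → ι}
    (h : Perp N A e τ τ') (h1 : Teq N A e (blk 0 τ) (blk 0 τ₁))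
    (h2 : Teq N A e (blk 0 τ') (blk 0 τ₁')) : Perp N A e τ₁ τ₁' := by
  have h1' : Teq N A e (blk 1 τ) (blk 1 τ₁) :=
    ((teq_blk hH 1 0 τ).trans h1).trans (teq_blk hH 0 1 τ₁)
  have h2' : Teq N A e (blk 1 τ') (blk 1 τ₁') :=
    ((teq_blk hH 1 0 τ').trans h2).trans (teq_blk hH 0 1 τ₁')
  have e1 : Teq N A e (Sum.elim (blk 0 τ) (blk 1 τ')) (Sum.elim (blk 0 τ₁) (blk 1 τ₁')) :=
    cp_back hH h1 h2' (fun _ _ => Nat.zero_lt_one) (fun _ _ => Nat.zero_lt_one)
  have e2 : Teq N A e (Sum.elim (blk 1 τ) (blk 0 τ')) (Sum.elim (blk 1 τ₁) (blk 0 τ₁')) :=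
    cp_front hH h1' h2 (fun _ _ => Nat.zero_lt_one) (fun _ _ => Nat.zero_lt_one)
  exact (e1.symm.trans h).trans e2

/-- two letter tuples in different blocks, general position -/
theorem teq_two (hH : Hom N A e) (τ : κ → ι) (τ' : κ' → ι) {i j i' j' : ℕ}
    (h1 : i < j ↔ i' < j') (h2 : j < i ↔ j' < i') :
    Teq N A e (Sum.elim (blk i τ) (blk j τ')) (Sum.elim (blk i' τ) (blk j' τ')) := by
  refine teq_pat hH _ _ ?_ ?_
  · rintro (k | k) <;> rfl
  · rintro (k | k) (k' | k') <;> simp only [Sum.elim_inl, Sum.elim_inr, blk]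
    · simp
    · exact h1
    · exact h2
    · simp

/-- commutation in a context: `u` in front, `v` behind -/
theorem Perp.ctx (hH : Hom N A e) [Finite κ] [Finite κ'] [Finite κ₁] [Finite κ₂] {τ : κ → ι}
    {τ' : κ' → ι} (h : Perp N A e τ τ') (u : κ₁ → ℕ × ι) (v : κ₂ → ℕ × ι) {i j : ℕ} (hij : i < j)
    (hu : ∀ a, (u a).1 < i) (hv : ∀ a, j < (v a).1) :
    Teq N A e (Sum.elim u (Sum.elim (Sum.elim (blk i τ) (blk j τ')) v))
      (Sum.elim u (Sum.elim (Sum.elim (blk j τ) (blk i τ')) v)) := by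
  have e1 : Teq N A e (Sum.elim (blk i τ) (blk j τ')) (Sum.elim (blk 0 τ) (blk 1 τ')) :=
    teq_two hH τ τ' (by omega) (by omega)
  have e2 : Teq N A e (Sum.elim (blk 1 τ) (blk 0 τ')) (Sum.elim (blk j τ) (blk i τ')) :=
    teq_two hH τ τ' (by omega) (by omega)
  refine cp hH ((e1.trans h).trans e2) u v ?_ ?_ ?_ ?_ ?_
  · rintro a (k | k)
    · exact hu a
    · exact (hu a).trans hij
  · rintro a (k | k)
    · exact (hu a).trans hij
    · exact hu a
  · rintro (k | k) a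
    · exact hij.trans (hv a)
    · exact hv a
  · rintro (k | k) a
    · exact hv a
    · exact hij.trans (hv a)
  · intro a a'
    exact ((hu a).trans hij).trans (hv a')

/-- order of two letter tuples which do not commute is visible for all positions: if the
configuration `((i, τ), (j, τ'))`, `i < j`, has the same type as `((i', τ), (j', τ'))` and
`i' ≠ j'` then `i' < j'`. -/
theorem lt_of_not_perp (hH : Hom N A e) [Finite κ] [Finite κ'] {τ : κ → ι} {τ' : κ' → ι}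
    (h : ¬ Perp N A e τ τ') {i j i' j' : ℕ} (hij : i < j) (hne : i' ≠ j')
    (ht : Teq N A e (Sum.elim (blk i τ) (blk j τ')) (Sum.elim (blk i' τ) (blk j' τ'))) :
    i' < j' := by
  by_contra hc
  have hji : j' < i' := by omega
  apply h
  have e1 : Teq N A e (Sum.elim (blk 0 τ) (blk 1 τ')) (Sum.elim (blk i τ) (blk j τ')) :=
    teq_two hH τ τ' (by omega) (by omega)
  have e2 : Teq N A e (Sum.elim (blk i' τ) (blk j' τ')) (Sum.elim (blk 1 τ) (blk 0 τ')) :=
    teq_two hH τ τ' (by omega) (by omega)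
  exact (e1.trans ht).trans e2

end Pool.H17.TA
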