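import Pool.Agent.H17.TA.C3
import Pool.Agent.H17.TA.Bef

/-!
# SPLIT : a chain atom behind all similar atoms of a tuple can be moved behind the tuple
-/

set_option autoImplicit false

namespace Pool.H17.TA

open Pool.H22.VC Function Set

variable {r : ℕ} {K ι κ κ' κ'' : Type} {N : Col r K ℕ} {A : Set ℕ} {e : ℕ → ι → ℕ}

/-- Let `ζ` be in the block `i`, behind the part of `z` in this block, and let the parts of `z` in the
blocks `> i` commute with `ζ`. Then `ζ` is behind `z`. PROOF. By `cp`, `ζ` can be moved from the
block `i` to a new block just behind it, and by `move_to` to a block behind everything. -/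
theorem bef_of_parts (hH : Hom N A e) [Finite κ] [Finite κ'] (z : κ' → ℕ × ι) (i : ℕ) (ζ : κ → ι)
    (h0 : Bef N A e (fun k : {k | (z k).1 = i} => z k) (blk i ζ))
    (h1 : ∀ j, i < j → Perp N A e (fun k : {k | (z k).1 = j} => (z k).2) ζ) :
    Bef N A e z (blk i ζ) := by
  classical
  obtain ⟨w, hw⟩ : ∃ w : κ' → ℕ × ι,
      w = fun k => (if i < (z k).1 then (z k).1 + 1 else (z k).1, (z k).2) := ⟨_, rfl⟩
  have hw1 : ∀ k, (w k).1 = if i < (z k).1 then (z k).1 + 1 else (z k).1 := by
    intro k
    rw [hw]
  have hw2 : ∀ k, (w k).2 = (z k).2 := by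
    intro k
    rw [hw]
  have hwp : ∀ k k', (z k).1 < (z k').1 ↔ (w k).1 < (w k').1 := by
    intro k k'
    rw [hw1, hw1]
    split_ifs <;> omega
  -- step A
  have hA1 : Teq N A e (Sum.elim z (blk i ζ)) (Sum.elim w (blk i ζ)) := by
    apply teq_pat hH
    · rintro (k | k)
      · exact (hw2 k).symm
      · rfl
    · rintro (k | k) (k' | k')
      · exact hwp k k'
      · show (z k).1 < i ↔ (w k).1 < i
        rw [hw1]
        split_ifs <;> omega
      · show i < (z k').1 ↔ i < (w k').1
        rw [hw1]
        split_ifs <;> omega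
      · rfl
  have hz1 : Teq N A e (Sum.elim (fun k : {k | (z k).1 = i} => z k) (blk i ζ))
      (Sum.elim (fun k : {k | (z k).1 = i} => z k) (blk (i + 1) ζ)) := by
    have g1 := h0 (i + 1) (fun k => by
      have := k.2
      simp only [mem_setOf_eq] at this
      show (z k).1 < i + 1
      omega)
    refine g1.trans (teq_pat hH _ _ ?_ ?_)
    · rintro (k | k) <;> rfl
    · rintro (k | k) (k' | k')
      · rfl
      · show (z k).1 < i + 1 + i ↔ (z k).1 < i + 1
        have := k.2
        simp only [mem_setOf_eq] at this
        omega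
      · show i + 1 + i < (z k').1 ↔ i + 1 < (z k').1
        have := k'.2
        simp only [mem_setOf_eq] at this
        omega
      · show i + 1 + i < i + 1 + i ↔ i + 1 < i + 1
        omega
  have hA2 := cp hH hz1 (fun k : {k | (z k).1 < i} => z k) (fun k : {k | i < (z k).1} => w k)
    (by
      rintro ⟨a, ha⟩ (⟨k, hk⟩ | k)
      · show (z a).1 < (z k).1
        simp only [mem_setOf_eq] at ha hk
        omega
      · exact ha)
    (by
      rintro ⟨a, ha⟩ (⟨k, hk⟩ | k)
      · show (z a).1 < (z k).1
        simp only [mem_setOf_eq] at ha hk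
        omega
      · show (z a).1 < i + 1
        simp only [mem_setOf_eq] at ha
        omega)
    (by
      rintro (⟨k, hk⟩ | k) ⟨a, ha⟩
      · show (z k).1 < (w a).1
        simp only [mem_setOf_eq] at ha hk
        rw [hw1, if_pos ha]
        omega
      · show i < (w a).1
        simp only [mem_setOf_eq] at ha
        rw [hw1, if_pos ha]
        omega)
    (by
      rintro (⟨k, hk⟩ | k) ⟨a, ha⟩
      · show (z k).1 < (w a).1
        simp only [mem_setOf_eq] at ha hk
        rw [hw1, if_pos ha]
        omega
      · show i + 1 < (w a).1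
        simp only [mem_setOf_eq] at ha
        rw [hw1, if_pos ha]
        omega)
    (by
      rintro ⟨a, ha⟩ ⟨a', ha'⟩
      show (z a).1 < (w a').1
      simp only [mem_setOf_eq] at ha ha'
      rw [hw1, if_pos ha']
      omega)
  have hA3 : Teq N A e (Sum.elim w (blk i ζ)) (Sum.elim w (blk (i + 1) ζ)) := by
    have g1 := hA2.comp hH (fun k : κ' ⊕ κ => Sum.elim
      (fun k : κ' => if h : (z k).1 < i then
          (Sum.inl (⟨k, h⟩ : {k | (z k).1 < i}) : {k | (z k).1 < i} ⊕
            (({k | (z k).1 = i} ⊕ κ) ⊕ {k | i < (z k).1}))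
        else if h' : (z k).1 = i then Sum.inr (Sum.inl (Sum.inl ⟨k, h'⟩))
        else Sum.inr (Sum.inr ⟨k, lt_of_le_of_ne (not_lt.1 h) (Ne.symm h')⟩))
      (fun a => Sum.inr (Sum.inl (Sum.inr a))) k)
    have e1 : (fun k : κ' ⊕ κ => (Sum.elim (fun k : {k | (z k).1 < i} => z k)
        (Sum.elim (Sum.elim (fun k : {k | (z k).1 = i} => z k) (blk i ζ))
          (fun k : {k | i < (z k).1} => w k))) (Sum.elim
      (fun k : κ' => if h : (z k).1 < i then
          (Sum.inl (⟨k, h⟩ : {k | (z k).1 < i}) : {k | (z k).1 < i} ⊕
            (({k | (z k).1 = i} ⊕ κ) ⊕ {k | i < (z k).1}))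
        else if h' : (z k).1 = i then Sum.inr (Sum.inl (Sum.inl ⟨k, h'⟩))
        else Sum.inr (Sum.inr ⟨k, lt_of_le_of_ne (not_lt.1 h) (Ne.symm h')⟩))
      (fun a => Sum.inr (Sum.inl (Sum.inr a))) k)) = Sum.elim w (blk i ζ) := by
      funext k
      rcases k with k | k
      · simp only [Sum.elim_inl]
        split_ifs with g1 g2
        · simp only [Sum.elim_inl]
          rw [hw]
          simp only
          rw [if_neg (by omega)]
        · simp only [Sum.elim_inl, Sum.elim_inr]
          rw [hw]
          simp only
          rw [if_neg (by omega)]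
        · simp only [Sum.elim_inr]
      · rfl
    have e2 : (fun k : κ' ⊕ κ => (Sum.elim (fun k : {k | (z k).1 < i} => z k)
        (Sum.elim (Sum.elim (fun k : {k | (z k).1 = i} => z k) (blk (i + 1) ζ))
          (fun k : {k | i < (z k).1} => w k))) (Sum.elim
      (fun k : κ' => if h : (z k).1 < i then
          (Sum.inl (⟨k, h⟩ : {k | (z k).1 < i}) : {k | (z k).1 < i} ⊕
            (({k | (z k).1 = i} ⊕ κ) ⊕ {k | i < (z k).1}))
        else if h' : (z k).1 = i then Sum.inr (Sum.inl (Sum.inl ⟨k, h'⟩))
        else Sum.inr (Sum.inr ⟨k, lt_of_le_of_ne (not_lt.1 h) (Ne.symm h')⟩))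
      (fun a => Sum.inr (Sum.inl (Sum.inr a))) k)) = Sum.elim w (blk (i + 1) ζ) := by
      funext k
      rcases k with k | k
      · simp only [Sum.elim_inl]
        split_ifs with g1 g2
        · simp only [Sum.elim_inl]
          rw [hw]
          simp only
          rw [if_neg (by omega)]
        · simp only [Sum.elim_inl, Sum.elim_inr]
          rw [hw]
          simp only
          rw [if_neg (by omega)]
        · simp only [Sum.elim_inr]
      · rfl
    rw [e1, e2] at g1
    exact g1
  -- step B
  obtain ⟨B, hB⟩ : ∃ B : ℕ, (∀ k, (w k).1 < B) ∧ i + 1 < B ∧ ∀ k, (z k).1 < B := by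
    obtain ⟨M, hM⟩ := (Set.finite_range (fun k => (w k).1)).bddAbove
    obtain ⟨M', hM'⟩ := (Set.finite_range (fun k => (z k).1)).bddAbove
    refine ⟨M + M' + i + 2, fun k => ?_, by omega, fun k => ?_⟩
    · have : (w k).1 ≤ M := hM (mem_range_self k)
      omega
    · have : (z k).1 ≤ M' := hM' (mem_range_self k)
      omega
  have hBm := move_to hH w ζ (i + 1) (by
    intro j hj
    have g1 := (h1 (j - 1) (by omega)).comp hH
      (fun k : {k | (w k).1 = j} => (⟨k.1, by
        have := k.2
        simp only [mem_setOf_eq] at this ⊢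
        rw [hw1] at this
        split_ifs at this <;> omega⟩ : {k | (z k).1 = j - 1})) id
    have e1 : (fun k : {k | (w k).1 = j} => (w k).2) = fun k : {k | (w k).1 = j} => (z k).2 :=
      funext fun k => hw2 k
    rw [e1]
    exact g1) B (by
    intro k
    rw [hw1]
    split_ifs <;> omega) hB.1 hB.2.1
  -- conclusion
  refine bef_of_one hH B hB.2.2 ?_
  refine ((hA1.trans hA3).trans hBm.symm).trans (teq_pat hH _ _ ?_ ?_)
  · rintro (k | k)
    · exact hw2 k
    · rfl
  · rintro (k | k) (k' | k')
    · exact (hwp k k').symm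
    · show (w k).1 < B ↔ (z k).1 < B + i
      have g1 := hB.1 k
      have g2 := hB.2.2 k
      omega
    · show B < (w k').1 ↔ B + i < (z k').1
      have g1 := hB.1 k'
      have g2 := hB.2.2 k'
      omega
    · show B < B ↔ B + i < B + i
      omega

/-- The configuration `(y, z)`, `z = blk i ζ` of the type of `((0, σ), (0, τ))`, `τ` a chain atom
which is behind all similar chain atoms in `σ`, and `Prec (res s σ) τ` for all proper `s`. If not
all letters of `y` are in the block `i` then `Prec σ τ`. PROOF. Let `s₀`, `s₊` be the sets of the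
labels `k` with `(y k).1 = i`, `(y k).1 > i`. For each block `j > i` the part of `y` in this block
contains no chain atom similar to `τ`: for such an atom `s`, `Prec (res s σ) τ`, so the pair
`(y | s, z)` has the type of `((0, σ | s), (1, τ))`, but it also has the type of
`((1, σ | s), (0, τ))` because of the position (`lt_of_not_perp` or `Bef.asymm`). So it commutes with
`ζ` (`perp_of_no_atom`). By `Prec (res s₀ σ) τ` and `cp` (with `u` the part of `y` in blocks
`< i` and `v` the part in blocks `> i`) `z` can be moved from the block `i` to a new block between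
`i` and the next one, and by `move_to` to a block behind everything. So `(y, z)` has the type of
`(y, (B, ζ))`, and this of `((0, σ), (1, τ))` by `cp_back`. -/
theorem split_step (hW : ¬ Wild N univ) (hH : Hom N A e) (hA : A.Finite) [Finite ι] [Finite κ]
    [Finite κ'] {τ : κ → ι} (hτ : CA N A e τ) {σ : κ' → ι} (hσ : Injective σ)
    (h : ∀ s : Set κ', CA N A e (res s σ) → Sim N A e (res s σ) τ → Prec N A e (res s σ) τ)
    (hmin : ∀ s : Set κ', s ≠ univ → Prec N A e (res s σ) τ)
    (y : κ' → ℕ × ι) (hy : Injective y) (i : ℕ) (ζ : κ → ι)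
    (hyz : Teq N A e (Sum.elim y (blk i ζ)) (Sum.elim (blk 0 σ) (blk 0 τ)))
    (hne : ∃ k, (y k).1 ≠ i) : Prec N A e σ τ := by
  classical
  have hζ : Teq N A e (blk 0 ζ) (blk 0 τ) :=
    (teq_blk hH 0 i ζ).trans (hyz.comp hH (Sum.inr : κ → κ' ⊕ κ))
  -- restriction of the pair to a set of labels
  have hres : ∀ s : Set κ', Teq N A e (Sum.elim (res s y) (blk i ζ))
      (Sum.elim (blk 0 (res s σ)) (blk 0 τ)) := by
    intro s
    have g1 := hyz.comp hH (Sum.map (fun k : s => (k : κ')) (id : κ → κ))
    have e1 : (fun k : s ⊕ κ => (Sum.elim y (blk i ζ)) (Sum.map (fun k : s => (k : κ'))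
        (id : κ → κ) k)) = Sum.elim (res s y) (blk i ζ) := by
      funext k
      rcases k with k | k <;> rfl
    have e2 : (fun k : s ⊕ κ => (Sum.elim (blk 0 σ) (blk 0 τ)) (Sum.map (fun k : s => (k : κ'))
        (id : κ → κ) k)) = Sum.elim (blk 0 (res s σ)) (blk 0 τ) := by
      funext k
      rcases k with k | k <;> rfl
    rw [e1, e2] at g1
    exact g1
  have hbef : Bef N A e y (blk i ζ) := by
    refine bef_of_parts hH y i ζ ?_ ?_
    · have hs : {k | (y k).1 = i} ≠ univ := by
        obtain ⟨k, hk⟩ := hne
        intro hs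
        exact hk (by
          have := mem_univ k
          rw [← hs] at this
          exact this)
      exact ((bef_blk_iff hH 0 _ _).2 (hmin _ hs)).congr hH (hres _).symm
    · intro j hj
      have hinj : Injective (fun k : {k | (y k).1 = j} => (y k).2) := by
        intro k k' hkk
        apply Subtype.ext
        apply hy
        have g1 := k.2
        have g2 := k'.2
        simp only [mem_setOf_eq] at g1 g2
        exact Prod.ext (g1.trans g2.symm) hkk
      have hp : Perp N A e (fun k : {k | (y k).1 = j} => (y k).2) τ := by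
        refine perp_of_no_atom hW hH hA hτ hinj fun s hs hsim => ?_
        -- the set of labels in `κ'`
        obtain ⟨s', hs'⟩ : ∃ s' : Set κ', s' = (fun k : {k | (y k).1 = j} => (k : κ')) '' s :=
          ⟨_, rfl⟩
        have hmem : ∀ k : s', (y k).1 = j ∧ ∃ hk : (k : κ') ∈ {k | (y k).1 = j},
            (⟨k, hk⟩ : {k | (y k).1 = j}) ∈ s := by
          rintro ⟨k, hk⟩
          rw [hs'] at hk
          obtain ⟨a, ha, hak⟩ := hk
          subst hak
          exact ⟨a.2, a.2, ha⟩
        obtain ⟨E, hE⟩ : ∃ E : s' ≃ s, ∀ k : s', ((E k : {k | (y k).1 = j}) : κ') = k := by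
          refine ⟨Equiv.ofBijective (fun k : s' => (⟨⟨k, (hmem k).2.1⟩, (hmem k).2.2⟩ : s))
            ⟨?_, ?_⟩, fun k => rfl⟩
          · intro k k' hkk
            apply Subtype.ext
            exact congrArg (fun a : s => ((a : {k | (y k).1 = j}) : κ')) hkk
          · rintro ⟨a, ha⟩
            refine ⟨⟨(a : κ'), ?_⟩, rfl⟩
            rw [hs']
            exact ⟨a, ha, rfl⟩
        -- types
        have hyσ : Teq N A e (blk 0 (fun k : s' => (y k).2)) (blk 0 (res s' σ)) := by
          have g1 := (hres s').comp hH (Sum.inl : s' → s' ⊕ κ)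
          have e1 : (fun k : s' => (Sum.elim (res s' y) (blk i ζ)) (Sum.inl k)) =
              blk j (fun k : s' => (y k).2) := by
            funext k
            exact Prod.ext (hmem k).1 rfl
          rw [e1] at g1
          exact (teq_blk hH 0 j _).trans g1
        have hres' : Injective (res s' σ) := fun k k' hkk => Subtype.ext (hσ hkk)
        have eE : (fun k : s' => (res s (fun k : {k | (y k).1 = j} => (y k).2)) (E k)) =
            fun k : s' => (y k).2 := by
          funext k
          show (y ((E k : {k | (y k).1 = j}) : κ')).2 = _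
          rw [hE]
        have hca : CA N A e (res s' σ) := by
          have g1 := hs.equiv hH E
          rw [eE] at g1
          exact g1.congr hH hres' hyσ
        have hsm : Sim N A e (res s' σ) τ := by
          obtain ⟨E2, hE2⟩ := hsim
          refine ⟨E.trans E2, ?_⟩
          have g1 := hE2.comp hH E
          have e1 : (fun k : s' => (blk 0 (res s (fun k : {k | (y k).1 = j} => (y k).2))
              (E k) : ℕ × ι)) = blk 0 (fun k : s' => (y k).2) := by
            funext k
            show (0, (y ((E k : {k | (y k).1 = j}) : κ')).2) = _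
            rw [hE]
            rfl
          rw [e1] at g1
          exact hyσ.symm.trans g1
        have hpr := h s' hca hsm
        have hnp : ¬ Perp N A e (res s' σ) τ := fun g => hτ.not_perp hH (hsm.symm hH) (g.symm hH)
        -- the pair is in the wrong order
        have t1 : Teq N A e (Sum.elim (blk 0 (res s' σ)) (blk 1 τ))
            (Sum.elim (blk j (res s' σ)) (blk i τ)) := by
          refine (hpr.symm.trans (hres s').symm).trans ?_
          have e1 : res s' y = blk j (fun k : s' => (y k).2) := by
            funext k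
            exact Prod.ext (hmem k).1 rfl
          rw [e1]
          refine cp_front hH ?_ ?_ ?_ ?_
          · exact (teq_blk hH j 0 _).trans (hyσ.trans (teq_blk hH 0 j _))
          · exact (teq_blk hH i 0 _).trans (hζ.trans (teq_blk hH 0 i _))
          · intro k a
            exact hj
          · intro k a
            exact hj
        have := lt_of_not_perp hH hnp (by norm_num : (0 : ℕ) < 1) (by omega : j ≠ i) t1
        omega
      exact hp.congr hH (Teq.refl hH _) hζ.symm
  -- conclusion
  have hb2 := hbef.congr hH hyz
  exact (bef_blk_iff hH 0 _ _).1 hb2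

end Pool.H17.TA
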