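import Pool.Agent.H17.TA.Tq2

/-!
# Words and domains
-/

set_option autoImplicit false

namespace Pool.H17.TA

open Pool.H22.VC Function Set

variable {r : ℕ} {K ι κ κ' : Type} {N : Col r K ℕ} {A : Set ℕ} {e : ℕ → ι → ℕ}

/-- The block sets of the infinite word of `s`: the group `k` consists of the blocks
`(n + 1) k, …, (n + 1) k + n`; the first `n` of them are given by the list `l (s k)` (of length
`n`), the last one is full. -/
def BS (n : ℕ) (l : Bool → List (Set ι)) (s : ℕ → Bool) (i : ℕ) : Set ι :=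
  if i % (n + 1) = n then univ else (l (s (i / (n + 1)))).getD (i % (n + 1)) ∅

/-- the domain with block sets `B` -/
def Dm (B : ℕ → Set ι) : Set (ℕ × ι) := {p | p.2 ∈ B p.1}

/-- elements of the `p`-th block of the domain: the first `r` blocks of `e` are not used -/
def el (r : ℕ) (e : ℕ → ι → ℕ) (p : ℕ × ι) : ℕ := e (r + p.1) p.2

/-- `G` is an isomorphism between the domains `D`, `D'` over the constants `A` and the first `r`
blocks. -/
def NIso (N : Col r K ℕ) (A : Set ℕ) (e : ℕ → ι → ℕ) (D D' : Set (ℕ × ι))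
    (G : ℕ × ι → ℕ × ι) : Prop :=
  BijOn G D D' ∧ ∀ t : Fin r → ℕ ⊕ ((Fin r × ι) ⊕ (ℕ × ι)),
    (∀ j a, t j = Sum.inl a → a ∈ A) → (∀ j p, t j = Sum.inr (Sum.inr p) → p ∈ D) →
      N (fun j => Sum.elim id (Sum.elim (fun p => e p.1 p.2) (fun p => el r e (G p))) (t j)) =
        N (fun j => Sum.elim id (Sum.elim (fun p => e p.1 p.2) (fun p => el r e p)) (t j))

/-- Pattern at infinity: the images of the full blocks `(n + 1) (m k) + n` of the domain have the
letters `lt`, the order pattern `R` of the block numbers, and lie one behind the other. -/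
def PatAt (n : ℕ) (lt : ι → ι) (R : ι → ι → Prop) (m : ℕ → ℕ) (G : ℕ × ι → ℕ × ι) : Prop :=
  StrictMono m ∧ (∀ k c, (G ((n + 1) * m k + n, c)).2 = lt c) ∧
    (∀ k c c', (G ((n + 1) * m k + n, c)).1 < (G ((n + 1) * m k + n, c')).1 ↔ R c c') ∧
    ∀ k k' c c', k < k' → (G ((n + 1) * m k + n, c)).1 < (G ((n + 1) * m k' + n, c')).1

theorem BS_full (n : ℕ) (l : Bool → List (Set ι)) (s : ℕ → Bool) (k : ℕ) :
    BS n l s ((n + 1) * k + n) = univ := by
  have h1 : ((n + 1) * k + n) % (n + 1) = n := by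
    rw [Nat.mul_add_mod]
    exact Nat.mod_eq_of_lt (Nat.lt_succ_self n)
  unfold BS
  rw [if_pos h1]

theorem BS_list (n : ℕ) (l : Bool → List (Set ι)) (s : ℕ → Bool) (k j : ℕ) (hj : j < n) :
    BS n l s ((n + 1) * k + j) = (l (s k)).getD j ∅ := by
  have hj' : j < n + 1 := by omega
  have h1 : ((n + 1) * k + j) % (n + 1) = j := by
    rw [Nat.mul_add_mod]
    exact Nat.mod_eq_of_lt hj'
  have h2 : ((n + 1) * k + j) / (n + 1) = k := by
    rw [Nat.mul_add_div (by omega), Nat.div_eq_of_lt hj']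
    rfl
  unfold BS
  rw [h1, h2, if_neg hj.ne]

/-- block sets of `s` are determined by finitely many coordinates -/
theorem BS_congr (n : ℕ) (l : Bool → List (Set ι)) (s s' : ℕ → Bool) (i : ℕ)
    (h : s (i / (n + 1)) = s' (i / (n + 1))) : BS n l s i = BS n l s' i := by
  unfold BS
  rw [h]

/-- types of arbitrary finite configurations are preserved by `Pres` (enumerate the range of `z`,
`Teq.comp`) -/
theorem Pres.teq (hH : Hom N A e) [Finite κ] {g : ℕ × ι → ℕ × ι} {D D' : Set (ℕ × ι)}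
    (h : Pres N A e g D D') (z : κ → ℕ × ι) (hz : ∀ k, z k ∈ D) :
    Teq N A e z (fun k => g (z k)) := by
  classical
  have hfin : (range z).Finite := Set.finite_range z
  let F : Finset (ℕ × ι) := hfin.toFinset
  have hF : ∀ k, z k ∈ F := fun k => hfin.mem_toFinset.2 ⟨k, rfl⟩
  let y : Fin F.card → ℕ × ι := fun i => (F.equivFin.symm i : ℕ × ι)
  have hy : Injective y := fun i j hij => F.equivFin.symm.injective (Subtype.ext hij)
  have hyD : ∀ i, y i ∈ D := by
    intro i
    obtain ⟨k, hk⟩ := hfin.mem_toFinset.1 (F.equivFin.symm i).2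
    show (F.equivFin.symm i : ℕ × ι) ∈ D
    rw [← hk]
    exact hz k
  have h1 := (h.2 F.card y hy hyD).comp hH (fun k => F.equivFin ⟨z k, hF k⟩)
  have h2 : ∀ k, y (F.equivFin ⟨z k, hF k⟩) = z k := by
    intro k
    simp [y]
  simp only [h2] at h1
  exact h1

/-- the inverse map -/
theorem Pres.symm {g : ℕ × ι → ℕ × ι} {D D' : Set (ℕ × ι)} (h : Pres N A e g D D') :
    ∃ g', Pres N A e g' D' D ∧ (∀ p ∈ D, g' (g p) = p) ∧ ∀ p ∈ D', g (g' p) = p := by
  classical
  rcases isEmpty_or_nonempty (ℕ × ι) with he | hne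
  · have hD : D = D' := by
      ext p
      exact (he.false p).elim
    subst hD
    exact ⟨g, h, fun p _ => (he.false p).elim, fun p _ => (he.false p).elim⟩
  · have hinv : InvOn (invFunOn g D) g D D' := h.1.invOn_invFunOn
    have hbij : BijOn (invFunOn g D) D' D := h.1.symm hinv.symm
    refine ⟨invFunOn g D, ⟨hbij, ?_⟩, fun p hp => hinv.1 hp, fun p hp => hinv.2 hp⟩
    intro n z hz hzD
    have h1 := h.2 n (fun k => invFunOn g D (z k)) (fun i j hij =>
      hz (hbij.injOn (hzD i) (hzD j) hij)) (fun k => hbij.mapsTo (hzD k))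
    have h2 : (fun k => g (invFunOn g D (z k))) = z := funext (fun k => hinv.2 (hzD k))
    rw [h2] at h1
    exact h1.symm

end Pool.H17.TA
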