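import Pool.Agent.H17.TA.Defs

/-!
# The base lemma: colours depend on the pattern of the block numbers only
-/

set_option autoImplicit false

namespace Pool.H17.TA

open Pool.H22.VC Function Set

variable {r : ℕ} {K ι κ κ' : Type} {N : Col r K ℕ} {A : Set ℕ} {e : ℕ → ι → ℕ}

private theorem tq0_enum (P : Finset ℕ) : ∃ ψ : ℕ → ℕ, StrictMono ψ ∧
    ∀ p ∈ P, ψ (P.filter (· < p)).card = p := by
  classical
  let en := P.orderEmbOfFin rfl
  have hen : ∀ k, en k ∈ P := fun k => P.orderEmbOfFin_mem rfl k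
  refine ⟨fun k => if h : k < P.card then en ⟨k, h⟩ else P.sup id + 1 + k, ?_, ?_⟩
  · intro k k' hkk
    by_cases h : k < P.card <;> by_cases h' : k' < P.card
    · simp only [dif_pos h, dif_pos h']
      exact en.strictMono hkk
    · simp only [dif_pos h, dif_neg h']
      have := Finset.le_sup (f := id) (hen ⟨k, h⟩)
      simp only [id] at this
      omega
    · omega
    · simp only [dif_neg h, dif_neg h']
      omega
  · intro p hp
    obtain ⟨i, rfl⟩ : ∃ i, en i = p := by
      have : p ∈ Set.range (P.orderEmbOfFin rfl) := by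
        rw [Finset.range_orderEmbOfFin]
        exact hp
      exact this
    have h1 : P.filter (· < en i) = (Finset.univ.filter (· < i)).map en.toEmbedding := by
      ext q
      rw [Finset.mem_filter, Finset.mem_map]
      constructor
      · rintro ⟨hq, hqi⟩
        obtain ⟨j, rfl⟩ : ∃ j, en j = q := by
          have : q ∈ Set.range (P.orderEmbOfFin rfl) := by
            rw [Finset.range_orderEmbOfFin]
            exact hq
          exact this
        exact ⟨j, Finset.mem_filter.2 ⟨Finset.mem_univ j, en.lt_iff_lt.1 hqi⟩, rfl⟩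
      · rintro ⟨j, hj, rfl⟩
        exact ⟨hen j, en.strictMono (Finset.mem_filter.1 hj).2⟩
    have h2 : (P.filter (· < en i)).card = i := by
      rw [h1, Finset.card_map]
      have : Finset.univ.filter (· < i) = Finset.Iio i := by
        ext j
        simp
      rw [this, Fin.card_Iio]
    rw [h2]
    simp only [dif_pos i.2]

private theorem tq0_card {J : Type} [DecidableEq J] (S : Finset J) (f g : J → ℕ)
    (h : ∀ a ∈ S, ∀ b ∈ S, g a = g b → f a = f b) : (S.image f).card ≤ (S.image g).card := by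
  classical
  rcases S.eq_empty_or_nonempty with rfl | ⟨a₀, ha₀⟩
  · simp
  · let k : ℕ → ℕ := fun y => if hy : ∃ a ∈ S, g a = y then f hy.choose else 0
    have h1 : S.image f ⊆ (S.image g).image k := by
      intro x hx
      obtain ⟨a, ha, rfl⟩ := Finset.mem_image.1 hx
      refine Finset.mem_image.2 ⟨g a, Finset.mem_image_of_mem g ha, ?_⟩
      have hy : ∃ b ∈ S, g b = g a := ⟨a, ha, rfl⟩
      simp only [k, dif_pos hy]
      exact h _ hy.choose_spec.1 _ ha hy.choose_spec.2
    exact (Finset.card_le_card h1).trans Finset.card_image_le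

/-- Two tuples `t`, `t'` of constants and letters with the same constants, the same letters and the
same order pattern of the block numbers have the same colour. PROOF. Let `S` be the finite set of
the block numbers used by `t`. For `i ∈ S` used at the place `j` (`t j = Sum.inr (i, c)`), let
`φ i` be the block number of `t' j`; well defined and strictly monotone on `S` by `h3`. Let `C` be
larger than all `φ i`, `i ∈ S`. Then `ψ₁ n = C * (n + 1)` is strictly monotone and so is `ψ₂`,
defined by `ψ₂ m = C * (i + 1) + (m - φ i)` where `i ∈ S` is maximal with `φ i ≤ m`, and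
`ψ₂ m = m` if there is no such `i`; and `ψ₁ i = ψ₂ (φ i)` for `i ∈ S`. So
`N (ev e ∘ t) = N (ev e ∘ sh ψ₁ ∘ t) = N (ev e ∘ sh ψ₂ ∘ t') = N (ev e ∘ t')` by `Hom.hom`. -/
theorem Hom.pat (hH : Hom N A e) (t t' : Fin r → ℕ ⊕ (ℕ × ι))
    (h1 : ∀ j a, t j = Sum.inl a → a ∈ A ∧ t' j = Sum.inl a)
    (h2 : ∀ j i c, t j = Sum.inr (i, c) → ∃ i', t' j = Sum.inr (i', c))
    (h3 : ∀ j j' i c i' c' k d k' d', t j = Sum.inr (i, c) → t j' = Sum.inr (i', c') →
      t' j = Sum.inr (k, d) → t' j' = Sum.inr (k', d') → (i < i' ↔ k < k')) :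
    N (fun j => ev e (t j)) = N (fun j => ev e (t' j)) := by
  classical
  let f : Fin r → ℕ := fun j => Sum.elim (fun _ => 0) (fun p => p.1) (t j)
  let g : Fin r → ℕ := fun j => Sum.elim (fun _ => 0) (fun p => p.1) (t' j)
  let J : Finset (Fin r) := Finset.univ.filter (fun j => ∃ p, t j = Sum.inr p)
  have hJ : ∀ j, j ∈ J ↔ ∃ p, t j = Sum.inr p := fun j => by simp [J]
  have hfg : ∀ j ∈ J, ∀ j' ∈ J, (f j < f j' ↔ g j < g j') := by
    intro j hj j' hj'
    obtain ⟨⟨i, c⟩, hi⟩ := (hJ j).1 hj
    obtain ⟨⟨i', c'⟩, hi'⟩ := (hJ j').1 hj'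
    obtain ⟨k, hk⟩ := h2 j i c hi
    obtain ⟨k', hk'⟩ := h2 j' i' c' hi'
    have := h3 j j' i c i' c' k c k' c' hi hi' hk hk'
    simp only [f, g, hi, hi', hk, hk', Sum.elim_inr]
    exact this
  have hfg' : ∀ j ∈ J, ∀ j' ∈ J, (f j = f j' ↔ g j = g j') := by
    intro j hj j' hj'
    have h4 := hfg j hj j' hj'
    have h5 := hfg j' hj' j hj
    constructor
    · intro h
      rcases lt_trichotomy (g j) (g j') with h6 | h6 | h6
      · exact absurd (h4.2 h6) (by omega)
      · exact h6
      · exact absurd (h5.2 h6) (by omega)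
    · intro h
      rcases lt_trichotomy (f j) (f j') with h6 | h6 | h6
      · exact absurd (h4.1 h6) (by omega)
      · exact h6
      · exact absurd (h5.1 h6) (by omega)
  obtain ⟨ψ, hψ, hψ'⟩ := tq0_enum (J.image f)
  obtain ⟨χ, hχ, hχ'⟩ := tq0_enum (J.image g)
  have hrk : ∀ j ∈ J, ((J.image f).filter (· < f j)).card = ((J.image g).filter (· < g j)).card := by
    intro j hj
    have e1 : (J.image f).filter (· < f j) = (J.filter (fun j' => f j' < f j)).image f := by
      ext x
      simp only [Finset.mem_filter, Finset.mem_image]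
      constructor
      · rintro ⟨⟨j', hj', rfl⟩, hx⟩
        exact ⟨j', ⟨hj', hx⟩, rfl⟩
      · rintro ⟨j', ⟨hj', hx⟩, rfl⟩
        exact ⟨⟨j', hj', rfl⟩, hx⟩
    have e2 : (J.image g).filter (· < g j) = (J.filter (fun j' => f j' < f j)).image g := by
      ext x
      simp only [Finset.mem_filter, Finset.mem_image]
      constructor
      · rintro ⟨⟨j', hj', rfl⟩, hx⟩
        exact ⟨j', ⟨hj', (hfg j' hj' j hj).2 hx⟩, rfl⟩
      · rintro ⟨j', ⟨hj', hx⟩, rfl⟩
        exact ⟨⟨j', hj', rfl⟩, (hfg j' hj' j hj).1 hx⟩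
    rw [e1, e2]
    apply le_antisymm
    · refine tq0_card _ _ _ (fun a ha b hb h => ?_)
      exact (hfg' a (Finset.mem_filter.1 ha).1 b (Finset.mem_filter.1 hb).1).2 h
    · refine tq0_card _ _ _ (fun a ha b hb h => ?_)
      exact (hfg' a (Finset.mem_filter.1 ha).1 b (Finset.mem_filter.1 hb).1).1 h
  -- the normal form
  let s : Fin r → ℕ ⊕ (ℕ × ι) := fun j => Sum.map id
    (fun p => (((J.image f).filter (· < f j)).card, p.2)) (t j)
  have hsA : ∀ j a, s j = Sum.inl a → a ∈ A := by
    intro j a hj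
    rcases htj : t j with b | p
    · simp only [s, htj, Sum.map_inl] at hj
      rw [← Sum.inl.inj hj]
      exact (h1 j b htj).1
    · simp [s, htj] at hj
  have e1 : (fun j => ev e (sh ψ (s j))) = fun j => ev e (t j) := by
    funext j
    rcases htj : t j with b | ⟨i, c⟩
    · simp [s, htj, sh, ev]
    · have hj : j ∈ J := (hJ j).2 ⟨(i, c), htj⟩
      have h4 := hψ' (f j) (Finset.mem_image_of_mem f hj)
      have h5 : f j = i := by simp [f, htj]
      rw [h5] at h4
      simp only [s, htj, sh, ev, Sum.map_inr, Sum.elim_inr, h5, h4]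
  have e2 : (fun j => ev e (sh χ (s j))) = fun j => ev e (t' j) := by
    funext j
    rcases htj : t j with b | ⟨i, c⟩
    · have h4 := (h1 j b htj).2
      simp [s, htj, h4, sh, ev]
    · have hj : j ∈ J := (hJ j).2 ⟨(i, c), htj⟩
      obtain ⟨k, hk⟩ := h2 j i c htj
      have h4 := hχ' (g j) (Finset.mem_image_of_mem g hj)
      have h5 : g j = k := by simp [g, hk]
      rw [h5] at h4
      simp only [s, htj, hk, sh, ev, Sum.map_inr, Sum.elim_inr, hrk j hj, h5, h4]
  rw [← e1, ← e2, hH.hom ψ hψ s hsA, hH.hom χ hχ s hsA]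

end Pool.H17.TA
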