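import Pool.Agent.H17.TA.Tq0

/-!
# Types of configurations : first properties

Everything follows from `Hom.pat`: write `pl e f b z (t j)` as `ev e (T j)` with
`T j = Sum.inl a` for a constant, `Sum.inr p` for a block `p` in front,
`Sum.inr (f + (z k).1, (z k).2)` for a label `k` and `Sum.inr (b + p.1, p.2)` for a block behind.
-/

set_option autoImplicit false

namespace Pool.H17.TA

open Pool.H22.VC Function Set

variable {r : ℕ} {K ι κ κ' : Type} {N : Col r K ℕ} {A : Set ℕ} {e : ℕ → ι → ℕ}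

/-- the tuple of a context -/
def plT (f b : ℕ) (z : κ → ℕ × ι) : ℕ ⊕ ((ℕ × ι) ⊕ (κ ⊕ (ℕ × ι))) → ℕ ⊕ (ℕ × ι) :=
  Sum.elim Sum.inl (Sum.elim Sum.inr (Sum.elim (fun k => Sum.inr (f + (z k).1, (z k).2))
    (fun p => Sum.inr (b + p.1, p.2))))

theorem pl_eq (e : ℕ → ι → ℕ) (f b : ℕ) (z : κ → ℕ × ι)
    (u : ℕ ⊕ ((ℕ × ι) ⊕ (κ ⊕ (ℕ × ι)))) : pl e f b z u = ev e (plT f b z u) := by
  rcases u with a | p | k | p <;> rfl

/-- general form of the relocation of contexts -/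
theorem pl_gen (hH : Hom N A e) (z z₁ : κ → ℕ × ι) (h1 : ∀ k, (z k).2 = (z₁ k).2)
    (h2 : ∀ k k', (z k).1 < (z k').1 ↔ (z₁ k).1 < (z₁ k').1) {f b f₁ b₁ : ℕ}
    (hb : f ≤ b) (hb₁ : f₁ ≤ b₁) (hz : ∀ k, f + (z k).1 < b) (hz₁ : ∀ k, f₁ + (z₁ k).1 < b₁)
    (t : Fin r → ℕ ⊕ ((ℕ × ι) ⊕ (κ ⊕ (ℕ × ι)))) (htA : ∀ j a, t j = Sum.inl a → a ∈ A)
    (htf : ∀ j p, t j = Sum.inr (Sum.inl p) → p.1 < f ∧ p.1 < f₁) :
    N (fun j => pl e f b z (t j)) = N (fun j => pl e f₁ b₁ z₁ (t j)) := by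
  simp only [pl_eq]
  refine hH.pat _ _ ?_ ?_ ?_
  · intro j a hj
    rcases htj : t j with a' | p | k | p <;>
      simp only [htj, plT, Sum.elim_inl, Sum.elim_inr, Sum.inl.injEq, reduceCtorEq] at hj ⊢
    exact ⟨hj ▸ htA j a' htj, hj⟩
  · intro j i c hj
    rcases htj : t j with a' | p | k | p <;>
      simp only [htj, plT, Sum.elim_inl, Sum.elim_inr, Sum.inr.injEq, reduceCtorEq] at hj ⊢
    · exact ⟨i, hj⟩
    · have h3 := Prod.mk.inj hj
      exact ⟨f₁ + (z₁ k).1, by rw [← h1 k, h3.2]⟩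
    · have h3 := Prod.mk.inj hj
      exact ⟨b₁ + p.1, by rw [h3.2]⟩
  · intro j j' i c i' c' k d k' d' h3 h4 h5 h6
    rcases htj : t j with a₁ | p₁ | k₁ | p₁ <;>
      rcases htj' : t j' with a₂ | p₂ | k₂ | p₂ <;>
      simp only [htj, htj', plT, Sum.elim_inl, Sum.elim_inr, Sum.inr.injEq, Prod.mk.injEq,
        reduceCtorEq] at h3 h4 h5 h6
    · rw [h3] at h5
      rw [h4] at h6
      have h7 := Prod.mk.inj h5
      have h8 := Prod.mk.inj h6
      rw [h7.1, h8.1]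
    · have h7 := htf j p₁ htj
      rw [h3] at h5 h7
      have h8 := Prod.mk.inj h5
      simp only at h7
      omega
    · have h7 := htf j p₁ htj
      rw [h3] at h5 h7
      have h8 := Prod.mk.inj h5
      simp only at h7
      omega
    · have h7 := htf j' p₂ htj'
      rw [h4] at h6 h7
      have h8 := Prod.mk.inj h6
      simp only at h7
      omega
    · have h7 := h2 k₁ k₂
      omega
    · have h7 := hz k₁
      have h8 := hz₁ k₁
      omega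
    · have h7 := htf j' p₂ htj'
      rw [h4] at h6 h7
      have h8 := Prod.mk.inj h6
      simp only at h7
      omega
    · have h7 := hz k₂
      have h8 := hz₁ k₂
      omega
    · omega

/-- a context may be relocated -/
theorem pl_shift (hH : Hom N A e) (z : κ → ℕ × ι) {f b f₁ b₁ : ℕ} (hf : f ≤ f₁) (hb : f ≤ b)
    (hb₁ : f₁ ≤ b₁) (hz : ∀ k, f + (z k).1 < b) (hz₁ : ∀ k, f₁ + (z k).1 < b₁)
    (t : Fin r → ℕ ⊕ ((ℕ × ι) ⊕ (κ ⊕ (ℕ × ι)))) (ht : Adm A f t) :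
    N (fun j => pl e f b z (t j)) = N (fun j => pl e f₁ b₁ z (t j)) :=
  pl_gen hH z z (fun _ => rfl) (fun _ _ => Iff.rfl) hb hb₁ hz hz₁ t ht.1
    (fun j p h => ⟨ht.2 j p h, (ht.2 j p h).trans_le hf⟩)

/-- The general form: `z'` has the same letters as `z` and the same order pattern of the block
numbers. -/
theorem teq_pat (hH : Hom N A e) (z z' : κ → ℕ × ι) (h1 : ∀ k, (z k).2 = (z' k).2)
    (h2 : ∀ k k', (z k).1 < (z k').1 ↔ (z' k).1 < (z' k').1) : Teq N A e z z' :=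
  fun _ _ _ hb hb' hz hz' t ht => pl_gen hH z z' h1 h2 hb hb' hz hz' t ht.1
    (fun j p h => ⟨ht.2 j p h, ht.2 j p h⟩)

theorem Teq.refl (hH : Hom N A e) (z : κ → ℕ × ι) : Teq N A e z z :=
  teq_pat hH z z (fun _ => rfl) (fun _ _ => Iff.rfl)

theorem Teq.symm {z z' : κ → ℕ × ι} (h : Teq N A e z z') : Teq N A e z' z :=
  fun f b b' hb hb' hz hz' t ht => (h f b' b hb' hb hz' hz t ht).symm

private theorem tq1_bound [Finite κ] (z : κ → ℕ × ι) (f m : ℕ) :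
    ∃ b, f ≤ b ∧ m ≤ b ∧ ∀ k, f + (z k).1 < b := by
  obtain ⟨B, hB⟩ := (Set.finite_range (fun k => (z k).1)).bddAbove
  exact ⟨f + B + m + 1, by omega, by omega, fun k => by
    have := hB ⟨k, rfl⟩
    simp only at this
    omega⟩

/-- `κ` finite: choose a large `b'` for the configuration in the middle. -/
theorem Teq.trans [Finite κ] {z z' z'' : κ → ℕ × ι} (h : Teq N A e z z')
    (h' : Teq N A e z' z'') : Teq N A e z z'' := by
  intro f b b' hb hb' hz hz' t ht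
  obtain ⟨b₁, h1, -, h2⟩ := tq1_bound z' f 0
  exact (h f b b₁ hb h1 hz h2 t ht).trans (h' f b₁ b' h1 hb' h2 hz' t ht)

/-- renaming and forgetting labels (use large `b`, `b'` and `pl_shift`) -/
theorem Teq.comp (hH : Hom N A e) [Finite κ] {z z' : κ → ℕ × ι} (h : Teq N A e z z')
    (ρ : κ' → κ) : Teq N A e (fun k => z (ρ k)) (fun k => z' (ρ k)) := by
  intro f b b' hb hb' hz hz' t ht
  obtain ⟨B, h1, -, h2⟩ := tq1_bound z f 0
  obtain ⟨B', h1', -, h2'⟩ := tq1_bound z' f 0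
  rw [pl_shift hH (fun k => z (ρ k)) le_rfl hb h1 hz (fun k => h2 (ρ k)) t ht,
    pl_shift hH (fun k => z' (ρ k)) le_rfl hb' h1' hz' (fun k => h2' (ρ k)) t ht]
  let m : ℕ ⊕ ((ℕ × ι) ⊕ (κ' ⊕ (ℕ × ι))) → ℕ ⊕ ((ℕ × ι) ⊕ (κ ⊕ (ℕ × ι))) :=
    Sum.map id (Sum.map id (Sum.map ρ id))
  have e1 : ∀ (z : κ → ℕ × ι) (B : ℕ) (u : ℕ ⊕ ((ℕ × ι) ⊕ (κ' ⊕ (ℕ × ι)))),
      pl e f B (fun k => z (ρ k)) u = pl e f B z (m u) := by
    intro z B u
    rcases u with a | p | k | p <;> rfl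
  simp only [e1]
  refine h f B B' h1 h1' h2 h2' (fun j => m (t j)) ⟨?_, ?_⟩
  · intro j a hj
    rcases htj : t j with a' | p | k | p <;> simp only [htj, m, Sum.map_inl, Sum.map_inr, id,
      Sum.inl.injEq, reduceCtorEq] at hj
    rw [← hj]
    exact ht.1 j a' htj
  · intro j p hj
    rcases htj : t j with a' | p' | k | p' <;> simp only [htj, m, Sum.map_inl, Sum.map_inr, id,
      Sum.inr.injEq, Sum.inl.injEq, reduceCtorEq] at hj
    rw [← hj]
    exact ht.2 j p' htj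

end Pool.H17.TA
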