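import Pool.Agent.H17.TA.Tq1

/-!
# Types of configurations : relocation and locality
-/

set_option autoImplicit false

namespace Pool.H17.TA

open Pool.H22.VC Function Set

variable {r : ℕ} {K ι κ κ' : Type} {N : Col r K ℕ} {A : Set ℕ} {e : ℕ → ι → ℕ}

/-- Strictly monotone relocation does not change the type. It suffices that `φ` is strictly monotone
on the set of the numbers of the blocks used by `z` (`teq_pat`). -/
theorem Teq.relocOn (hH : Hom N A e) (z : κ → ℕ × ι) (φ : ℕ → ℕ)
    (hφ : ∀ k k', (z k).1 < (z k').1 → φ (z k).1 < φ (z k').1) :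
    Teq N A e z (fun k => (φ (z k).1, (z k).2)) := by
  refine teq_pat hH _ _ (fun _ => rfl) (fun k k' => ⟨hφ k k', fun h => ?_⟩)
  have h' : φ (z k).1 < φ (z k').1 := h
  rcases lt_trichotomy (z k).1 (z k').1 with h1 | h1 | h1
  · exact h1
  · rw [h1] at h'
    exact absurd h' (lt_irrefl _)
  · exact absurd (h'.trans (hφ k' k h1)) (lt_irrefl _)

theorem Teq.reloc (hH : Hom N A e) (z : κ → ℕ × ι) (φ : ℕ → ℕ) (hφ : StrictMono φ) :
    Teq N A e z (fun k => (φ (z k).1, (z k).2)) :=
  Teq.relocOn hH z φ fun _ _ h => hφ h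

/-- all configurations inside one block have the type of the block `0` -/
theorem teq_blk (hH : Hom N A e) (i j : ℕ) (τ : κ → ι) :
    Teq N A e (blk i τ) (blk j τ) :=
  Teq.relocOn hH (blk i τ) (fun _ => j) fun _ _ h => absurd h (lt_irrefl _)

/-- The type is determined by the types of `r`-tuples (`N` is `r`-ary). If `κ` is empty use
`teq_pat`; otherwise a context `t` uses at most `r` labels: choose `ρ` with all used labels in its
range. -/
theorem Teq.loc (hH : Hom N A e) [Finite κ] {z z' : κ → ℕ × ι}
    (h : ∀ ρ : Fin r → κ, Teq N A e (fun k => z (ρ k)) (fun k => z' (ρ k))) :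
    Teq N A e z z' := by
  classical
  rcases isEmpty_or_nonempty κ with he | ⟨⟨k₀⟩⟩
  · exact teq_pat hH z z' (fun k => (he.false k).elim) (fun k => (he.false k).elim)
  · intro f b b' hb hb' hz hz' t ht
    let ρ : Fin r → κ := fun j => Sum.elim (fun _ => k₀) (Sum.elim (fun _ => k₀)
      (Sum.elim id (fun _ => k₀))) (t j)
    let t₁ : Fin r → ℕ ⊕ ((ℕ × ι) ⊕ (Fin r ⊕ (ℕ × ι))) := fun j =>
      Sum.map id (Sum.map id (Sum.map (fun _ => j) id)) (t j)
    have h1 := h ρ f b b' hb hb' (fun k => hz _) (fun k => hz' _) t₁ (by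
      constructor
      · intro j a hj
        rcases htj : t j with a' | p | k | p <;> simp only [htj, t₁, Sum.map_inl, Sum.map_inr, id,
          Sum.inl.injEq, reduceCtorEq] at hj
        rw [← hj]
        exact ht.1 j a' htj
      · intro j p hj
        rcases htj : t j with a' | p' | k | p' <;> simp only [htj, t₁, Sum.map_inl, Sum.map_inr,
          id, Sum.inr.injEq, Sum.inl.injEq, reduceCtorEq] at hj
        rw [← hj]
        exact ht.2 j p' htj)
    have e1 : ∀ (z : κ → ℕ × ι) (b : ℕ), (fun j => pl e f b (fun k => z (ρ k)) (t₁ j)) =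
        fun j => pl e f b z (t j) := by
      intro z b
      funext j
      simp only [t₁]
      have h2 : ∀ k, t j = Sum.inr (Sum.inr (Sum.inl k)) → ρ j = k := by
        intro k hk
        simp [ρ, hk]
      rcases htj : t j with a' | p | k | p
      · rfl
      · rfl
      · show e (f + (z (ρ j)).1) (z (ρ j)).2 = e (f + (z k).1) (z k).2
        rw [h2 k htj]
      · rfl
    rw [e1, e1] at h1
    exact h1

end Pool.H17.TA
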