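import Pool.Agent.H22.VC.Defs
import Pool.Agent.H22.VC.Free

/-!
# Wildness from data

A Cantor family is wild as soon as the relation `isomorphic over A` is covered by countably many
closed sets of data, each of them functional. (The proof is the one of
`Pool.H22.VC.perfect_of_family` in `Pool/Agent/H22/VC/LemT.lean`: Lusin separation and the free set
lemma `free_cantor`.)
-/

set_option autoImplicit false

namespace Pool.H17.TA

open Pool.H22.VC Function Set Topology MeasureTheory

/-- Lusin separation: a functional closed set of data gives a Borel map. -/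
theorem borel_of_data {W : Type} [TopologicalSpace W] [PolishSpace W]
    (C : Set ((ℕ → Bool) × (ℕ → Bool) × W)) (hC : IsClosed C)
    (hfun : ∀ s₁ s₂ s' w₁ w₂, (s₁, s', w₁) ∈ C → (s₂, s', w₂) ∈ C → s₁ = s₂) :
    ∃ F : (ℕ → Bool) → (ℕ → Bool), Measurable F ∧ ∀ s s' w, (s, s', w) ∈ C → F s' = s := by
  classical
  have hpol : PolishSpace (ℕ → Bool) := fr_polishBool
  have hpolZ : PolishSpace ((ℕ → Bool) × (ℕ → Bool) × W) := by
    have : PolishSpace ((ℕ → Bool) × W) := inferInstance
    infer_instance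
  -- the separated sets
  have hsep : ∀ i : ℕ, ∃ D : Set (ℕ → Bool), MeasurableSet D ∧
      ∀ z ∈ C, (z.1 i = true ↔ z.2.1 ∈ D) := by
    intro i
    have hcl : ∀ v : Bool, IsClosed (C ∩ {z | z.1 i = v}) := fun v =>
      hC.inter (show IsClosed ((fun z : (ℕ → Bool) × (ℕ → Bool) × W => z.1 i) ⁻¹' {v}) from
          (isClosed_discrete {v}).preimage ((continuous_apply i).comp continuous_fst))
    have han : ∀ v : Bool, AnalyticSet
        ((fun z : (ℕ → Bool) × (ℕ → Bool) × W => z.2.1) '' (C ∩ {z | z.1 i = v})) := fun v =>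
      (hcl v).analyticSet.image_of_continuous (continuous_fst.comp continuous_snd)
    have hdis : Disjoint
        ((fun z : (ℕ → Bool) × (ℕ → Bool) × W => z.2.1) '' (C ∩ {z | z.1 i = true}))
        ((fun z : (ℕ → Bool) × (ℕ → Bool) × W => z.2.1) '' (C ∩ {z | z.1 i = false})) := by
      rw [Set.disjoint_left]
      rintro x ⟨z, ⟨hz, hzi⟩, rfl⟩ ⟨z', ⟨hz', hzi'⟩, hx⟩
      have h3 : z.1 = z'.1 := by
        refine hfun z.1 z'.1 z.2.1 z.2.2 z'.2.2 hz ?_
        have hx' : z'.2.1 = z.2.1 := hx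
        rw [← hx']
        exact hz'
      have h4 : z.1 i = true := hzi
      have h5 : z'.1 i = false := hzi'
      rw [h3, h5] at h4
      exact Bool.false_ne_true h4
    obtain ⟨D, hD1, hD2, hD3⟩ := (han true).measurablySeparable (han false) hdis
    refine ⟨D, hD3, fun z hz => ⟨fun hi => hD1 ⟨z, ⟨hz, hi⟩, rfl⟩, fun hi => ?_⟩⟩
    by_contra hne
    have hne' : z.1 i = false := by simpa using hne
    exact (Set.disjoint_left.mp hD2) ⟨z, ⟨hz, hne'⟩, rfl⟩ hi
  choose D hDm hD using hsep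
  refine ⟨fun s' i => decide (s' ∈ D i), ?_, ?_⟩
  · rw [measurable_pi_iff]
    intro i
    refine measurable_to_bool ?_
    have : (fun s' : ℕ → Bool => decide (s' ∈ D i)) ⁻¹' {true} = D i := by
      ext s'
      simp
    rw [this]
    exact hDm _
  · intro s s' w hz
    funext i
    have h1 := hD i _ hz
    simp only at h1
    by_cases hi : s i = true
    · rw [hi]
      exact decide_eq_true (h1.mp hi)
    · have hi' : s i = false := by simpa using hi
      rw [hi']
      exact decide_eq_false (fun hh => hi (h1.mpr hh))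

/-- The free set lemma (`Pool.H22.VC.free_cantor`) gives a continuous injective `g` with
`F n (g s') ≠ g s` for `s ≠ s'`; the family `Ω ∘ g` is as required. -/
theorem wild_of_data {r : ℕ} {K : Type} (N : Col r K ℕ) (D : Set ℕ) (A : Finset ℕ)
    (Ω : (ℕ → Bool) → Set ℕ) (hA : ∀ s, ∀ x ∈ A, x ∈ Ω s) (hD : ∀ s, Ω s ⊆ D)
    (hinf : ∀ s, (Ω s).Infinite) (hcl : ∀ x : ℕ, IsClopen {s : ℕ → Bool | x ∈ Ω s})
    {W : Type} [TopologicalSpace W] [PolishSpace W]
    (C : ℕ → Set ((ℕ → Bool) × (ℕ → Bool) × W)) (hC : ∀ n, IsClosed (C n))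
    (hcov : ∀ s s', IsoOn N A (Ω s) (Ω s') → ∃ n w, (s, s', w) ∈ C n)
    (hfun : ∀ n s₁ s₂ s' w₁ w₂, (s₁, s', w₁) ∈ C n → (s₂, s', w₂) ∈ C n → s₁ = s₂) :
    Wild N D := by
  classical
  choose F hF hFC using fun n => borel_of_data (C n) (hC n) (hfun n)
  obtain ⟨g, hgc, -, hg⟩ := free_cantor F hF
  refine ⟨A, fun s => Ω (g s), fun s => hA _, fun s => hD _, fun s => hinf _, fun x =>
    (hcl x).preimage hgc, ?_⟩
  intro s s' hiso
  by_contra hne
  obtain ⟨n, w, hw⟩ := hcov (g s) (g s') hiso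
  exact hg n s' s (Ne.symm hne) (hFC n _ _ _ hw)

end Pool.H17.TA
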